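import Pool.Agent.Lib.MP_1a0ddd_nt.V.Defs
import Pool.Agent.Lib.MP_1a0ddd_nt.W.Cnt

/-! Point counts: components of ideals of `R`-algebras. -/

set_option autoImplicit false

namespace Pool.Agent.Lib.MP_1a0ddd_nt.V

open Polynomial Filter Topology Pool.Agent.Lib.MP_1a0ddd_nt.W

private theorem card_quot {S : Type} [CommRing S] (J : Ideal S) (D : S) (p : ℕ) :
    Nat.card {z : S ⧸ J →+* ZMod p // z (Ideal.Quotient.mk J D) ≠ 0} =
      Nat.card {φ : S →+* ZMod p // (∀ u ∈ J, φ u = 0) ∧ φ D ≠ 0} := by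
  refine Nat.card_congr
    { toFun := fun z => ⟨z.1.comp (Ideal.Quotient.mk J), fun u hu => ?_, z.2⟩
      invFun := fun φ => ⟨Ideal.Quotient.lift J φ.1 φ.2.1, ?_⟩
      left_inv := fun z => ?_
      right_inv := fun φ => ?_ }
  · rw [RingHom.comp_apply, Ideal.Quotient.eq_zero_iff_mem.2 hu, map_zero]
  · rw [Ideal.Quotient.lift_mk]
    exact φ.2.2
  · refine Subtype.ext (Ideal.Quotient.ringHom_ext (RingHom.ext fun u => ?_))
    simp
  · refine Subtype.ext (RingHom.ext fun u => ?_)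
    simp

private theorem between {c l u : ℕ → ℝ} {γ : ℝ} (hl : Quad.TauMean l γ) (hu : Quad.TauMean u γ)
    (h : ∀ p : ℕ, p.Prime → l p ≤ c p ∧ c p ≤ u p) : Quad.TauMean c γ := by
  have h1 : Quad.TauMean (fun p => u p - l p) 0 := by
    have := hu.sub hl
    rwa [sub_self] at this
  have h2 : Quad.TauMean (fun p => c p - l p) 0 := by
    refine Quad.TauMean.of_abs_le h1 1 0 fun p _ hp => ?_
    obtain ⟨h3, h4⟩ := h p hp
    rw [abs_of_nonneg (by linarith), one_mul]
    linarith
  have h3 := h2.add hl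
  rw [zero_add] at h3
  exact h3.congr' 0 fun p _ _ => by ring

/-- proof: word for word the proof of `comps_count` in `W/Cnt.lean` -/
theorem comps_countG (R : Type) {S : Type} [CommRing R] [CommRing S] [Algebra R S]
    [Algebra.FiniteType ℤ S] {I : Ideal S} {e n : ℕ} {P : Fin n → Ideal S}
    (h : CompsG R I e P) :
    Quad.TauMean (fun p : ℕ => (Nat.card {φ : S →+* ZMod p // ∀ u ∈ I, φ u = 0} : ℝ) /
      (p : ℝ) ^ e) (n : ℝ) := by
  classical
  have hD : ∀ i, ∃ D : S, D ∉ P i ∧ ∀ j, j ≠ i → D ∈ P j := by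
    intro i
    have h1 : ¬ (∏ j ∈ Finset.univ.erase i, P j) ≤ P i := by
      intro h2
      obtain ⟨j, hj, h3⟩ := (Ideal.IsPrime.prod_le (h.prime i)).1 h2
      exact (Finset.mem_erase.1 hj).1 (h.inc j i h3)
    obtain ⟨D, hD, hD'⟩ := SetLike.not_le_iff_exists.1 h1
    refine ⟨D, hD', fun j hj => ?_⟩
    have h2 : (∏ j ∈ Finset.univ.erase i, P j) ≤ P j :=
      Ideal.prod_le_inf.trans (Finset.inf_le (Finset.mem_erase.2 ⟨hj, Finset.mem_univ j⟩))
    exact h2 hD
  choose D hD1 hD2 using hD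
  set b : (i : Fin n) → S → ℕ → ℝ := fun i E p =>
    (Nat.card {φ : S →+* ZMod p // (∀ u ∈ P i, φ u = 0) ∧ φ E ≠ 0} : ℝ) / (p : ℝ) ^ e
    with hb
  have hmean : ∀ i (E : S), E ∉ P i → Quad.TauMean (b i E) 1 := by
    intro i E hE
    have h1 := h.count i (Ideal.Quotient.mk (P i) E)
      (fun h2 => hE (Ideal.Quotient.eq_zero_iff_mem.1 h2))
    refine h1.congr' 0 fun p _ _ => ?_
    simp only [hb]
    rw [card_quot]
  have hone : ∀ i, (1 : S) ∉ P i := fun i h1 =>
    (h.prime i).ne_top ((Ideal.eq_top_iff_one _).2 h1)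
  have hl : Quad.TauMean (fun p => ∑ i, b i (D i) p) (n : ℝ) := by
    have := Quad.TauMean.sum Finset.univ (fun i => b i (D i)) (fun _ => 1)
      (fun i _ => hmean i (D i) (hD1 i))
    simpa using this
  have hu : Quad.TauMean (fun p => ∑ i, b i 1 p) (n : ℝ) := by
    have := Quad.TauMean.sum Finset.univ (fun i => b i 1) (fun _ => 1)
      (fun i _ => hmean i 1 (hone i))
    simpa using this
  refine between hl hu fun p hp => ?_
  have : Fact p.Prime := ⟨hp⟩
  have hfin : Finite (S →+* ZMod p) := finite_hom S p hp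
  have := Fintype.ofFinite (S →+* ZMod p)
  have hp0 : (0 : ℝ) ≤ (p : ℝ) ^ e := by positivity
  have hcard : ∀ (Q : (S →+* ZMod p) → Prop) [DecidablePred Q],
      Nat.card {φ : S →+* ZMod p // Q φ} = (Finset.univ.filter Q).card := by
    intro Q _
    rw [Nat.card_eq_fintype_card, Fintype.card_subtype]
  simp only [hb]
  rw [← Finset.sum_div, ← Finset.sum_div]
  constructor
  · refine div_le_div_of_nonneg_right ?_ hp0
    rw [hcard]
    have h1 : (Finset.univ.biUnion fun i : Fin n => Finset.univ.filter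
        fun φ : S →+* ZMod p => (∀ u ∈ P i, φ u = 0) ∧ φ (D i) ≠ 0) ⊆
        Finset.univ.filter fun φ : S →+* ZMod p => ∀ u ∈ I, φ u = 0 := by
      intro φ hφ
      obtain ⟨i, -, hi⟩ := Finset.mem_biUnion.1 hφ
      refine Finset.mem_filter.2 ⟨Finset.mem_univ φ, fun u hu => ?_⟩
      exact (Finset.mem_filter.1 hi).2.1 u (h.le i hu)
    have h2 := Finset.card_le_card h1
    rw [Finset.card_biUnion] at h2
    · calc _ = ((∑ i : Fin n, (Finset.univ.filter
            fun φ : S →+* ZMod p => (∀ u ∈ P i, φ u = 0) ∧ φ (D i) ≠ 0).card : ℕ) : ℝ) := by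
            push_cast
            refine Finset.sum_congr rfl fun i _ => ?_
            rw [hcard]
        _ ≤ _ := by exact_mod_cast h2
    · intro i _ j _ hij
      change Disjoint _ _
      rw [Finset.disjoint_left]
      intro φ h3 h4
      exact (Finset.mem_filter.1 h3).2.2 ((Finset.mem_filter.1 h4).2.1 _ (hD2 i j (Ne.symm hij)))
  · refine div_le_div_of_nonneg_right ?_ hp0
    rw [hcard]
    have h1 : (Finset.univ.filter fun φ : S →+* ZMod p => ∀ u ∈ I, φ u = 0) ⊆
        (Finset.univ.biUnion fun i : Fin n => Finset.univ.filter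
        fun φ : S →+* ZMod p => (∀ u ∈ P i, φ u = 0) ∧ φ 1 ≠ 0) := by
      intro φ hφ
      have h2 := (Finset.mem_filter.1 hφ).2
      obtain ⟨k, hk⟩ := h.pow
      have hker : (RingHom.ker φ).IsPrime := RingHom.ker_isPrime φ
      have h3 : (∏ i, P i) ^ k ≤ RingHom.ker φ := hk.trans fun u hu => h2 u hu
      have h4 : (∏ i, P i) ≤ RingHom.ker φ := hker.le_of_pow_le h3
      obtain ⟨i, -, hi⟩ := (Ideal.IsPrime.prod_le hker).1 h4
      refine Finset.mem_biUnion.2 ⟨i, Finset.mem_univ i, Finset.mem_filter.2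
        ⟨Finset.mem_univ φ, fun u hu => hi hu, ?_⟩⟩
      rw [map_one]
      exact one_ne_zero
    have h2 := (Finset.card_le_card h1).trans Finset.card_biUnion_le
    calc _ ≤ ((∑ i : Fin n, (Finset.univ.filter
            fun φ : S →+* ZMod p => (∀ u ∈ P i, φ u = 0) ∧ φ 1 ≠ 0).card : ℕ) : ℝ) := by
            exact_mod_cast h2
        _ = _ := by
            push_cast
            refine Finset.sum_congr rfl fun i _ => ?_
            rw [hcard]

/-- ring maps from `R[x, y]` are pairs `(z, (x, y))` -/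
private noncomputable def homEquiv (R : Type) [CommRing R] (p : ℕ) :
    (R →+* ZMod p) × (ZMod p × ZMod p) ≃ (R[X][X] →+* ZMod p) where
  toFun a := val a.1 a.2
  invFun φ := ((φ.comp C).comp C, (φ (C X), φ X))
  left_inv a := by
    refine Prod.ext ?_ (Prod.ext ?_ ?_)
    · refine RingHom.ext fun r => ?_
      simp [val]
    · simp [val]
    · simp [val]
  right_inv φ := by
    refine Polynomial.ringHom_ext' (Polynomial.ringHom_ext' ?_ ?_) ?_
    · refine RingHom.ext fun r => ?_
      simp [val]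
    · simp [val]
    · simp [val]

private theorem card_hom {R : Type} [CommRing R] (p : ℕ) [Fact p.Prime]
    [Fintype (R →+* ZMod p)] (Q : (R[X][X] →+* ZMod p) → Prop) :
    Nat.card {φ : R[X][X] →+* ZMod p // Q φ} =
      ∑ z : R →+* ZMod p, Nat.card {q : ZMod p × ZMod p // Q (val z q)} := by
  classical
  have e : {φ : R[X][X] →+* ZMod p // Q φ} ≃
      Σ z : R →+* ZMod p, {q : ZMod p × ZMod p // Q (val z q)} :=
    ((Equiv.subtypeEquiv (homEquiv R p) (p := fun a => Q (val a.1 a.2)) (q := Q)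
      (fun a => Iff.rfl)).symm).trans
      (Equiv.subtypeProdEquivSigmaSubtype (fun z q => Q (val z q)))
  rw [Nat.card_congr e, Nat.card_sigma]

/-- ring maps `R[x, y] → F_p` with `φ u = 0` for `u ∈ I`, as pairs -/
theorem hom2_count {R : Type} [CommRing R] (p : ℕ) (hp : p.Prime) [Fintype (R →+* ZMod p)]
    (I : Ideal R[X][X]) :
    Nat.card {φ : R[X][X] →+* ZMod p // ∀ u ∈ I, φ u = 0} =
      ∑ z : R →+* ZMod p, Nat.card {q : ZMod p × ZMod p // ∀ u ∈ I, val z q u = 0} := by
  have : Fact p.Prime := ⟨hp⟩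
  exact card_hom p (fun φ => ∀ u ∈ I, φ u = 0)

/-- ring maps from `R[t]` are pairs `(z, t)` -/
private noncomputable def homEquiv1 (R : Type) [CommRing R] (p : ℕ) :
    (R →+* ZMod p) × ZMod p ≃ (R[X] →+* ZMod p) where
  toFun a := eval₂RingHom a.1 a.2
  invFun φ := (φ.comp C, φ X)
  left_inv a := by
    refine Prod.ext ?_ ?_
    · refine RingHom.ext fun r => ?_
      simp
    · simp
  right_inv φ := by
    refine Polynomial.ringHom_ext' ?_ ?_
    · refine RingHom.ext fun r => ?_
      simp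
    · simp

/-- ring maps `R[t] → F_p` with `φ u = 0` for `u ∈ I`, as pairs -/
theorem hom1_count {R : Type} [CommRing R] (p : ℕ) (hp : p.Prime) [Fintype (R →+* ZMod p)]
    (I : Ideal R[X]) :
    Nat.card {φ : R[X] →+* ZMod p // ∀ u ∈ I, φ u = 0} =
      ∑ z : R →+* ZMod p, Nat.card {y : ZMod p // ∀ u ∈ I, (u.map z).eval y = 0} := by
  classical
  have : Fact p.Prime := ⟨hp⟩
  have e : {φ : R[X] →+* ZMod p // ∀ u ∈ I, φ u = 0} ≃
      Σ z : R →+* ZMod p, {y : ZMod p // ∀ u ∈ I, (u.map z).eval y = 0} :=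
    ((Equiv.subtypeEquiv (homEquiv1 R p)
      (p := fun a => ∀ u ∈ I, (u.map a.1).eval a.2 = 0) (q := fun φ => ∀ u ∈ I, φ u = 0)
      (fun a => by
        refine forall₂_congr fun u _ => ?_
        rw [eval_map]
        rfl)).symm).trans
      (Equiv.subtypeProdEquivSigmaSubtype
        (fun (z : R →+* ZMod p) (y : ZMod p) => ∀ u ∈ I, (u.map z).eval y = 0))
  rw [Nat.card_congr e, Nat.card_sigma]

end Pool.Agent.Lib.MP_1a0ddd_nt.V
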