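import Pool.Agent.Lib.MP_1a0ddd_nt.V.Cnt

/-! The average of `p - #(affine points)` over the members outside `B = 0`. -/

set_option autoImplicit false

namespace Pool.Agent.Lib.MP_1a0ddd_nt.V

open Polynomial Filter Topology Pool.Agent.Lib.MP_1a0ddd_nt.W

private theorem card_zeros_le {p : ℕ} [Fact p.Prime] (β : (ZMod p)[X]) (hβ : β.Monic) :
    (∑ _t : {t : ZMod p // β.eval t = 0}, (1 : ℝ)) ≤ β.natDegree := by
  classical
  have h1 : Fintype.card {t : ZMod p // β.eval t = 0} ≤ β.natDegree := by
    rw [Fintype.card_subtype]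
    refine le_trans (Finset.card_le_card ?_) (β.roots.toFinset_card_le.trans β.card_roots')
    intro t ht
    rw [Multiset.mem_toFinset, mem_roots hβ.ne_zero]
    exact (Finset.mem_filter.1 ht).2
  rw [Finset.sum_const, Finset.card_univ, nsmul_eq_mul, mul_one]
  exact_mod_cast h1

private theorem fib_val {p : ℕ} [Fact p.Prime] (β : (ZMod p)[X]) (f g : ZMod p) (hg : g ≠ 0) :
    ∑ i ∈ Finset.range (β.natDegree + 1), β.coeff i * (-f) ^ i * g ^ (β.natDegree - i) =
      g ^ β.natDegree * β.eval (-f / g) := by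
  rw [eval_eq_sum_range, Finset.mul_sum]
  refine Finset.sum_congr rfl fun i hi => ?_
  have hi' : i ≤ β.natDegree := by
    rw [Finset.mem_range] at hi; omega
  have h1 : g ^ β.natDegree = g ^ (β.natDegree - i) * g ^ i := by
    rw [← pow_add, Nat.sub_add_cancel hi']
  rw [h1, div_pow]
  field_simp

private theorem fib_zero {p : ℕ} [Fact p.Prime] (β : (ZMod p)[X]) (hβ : β.Monic) (f : ZMod p) :
    ∑ i ∈ Finset.range (β.natDegree + 1), β.coeff i * (-f) ^ i * 0 ^ (β.natDegree - i) =
      (-f) ^ β.natDegree := by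
  rw [Finset.sum_eq_single β.natDegree]
  · rw [Nat.sub_self, pow_zero, mul_one, hβ.coeff_natDegree, one_mul]
  · intro i hi hne
    have hi' : i < β.natDegree := by
      rw [Finset.mem_range] at hi; omega
    rw [zero_pow (by omega), mul_zero]
  · intro h
    exact absurd (Finset.mem_range.2 (Nat.lt_succ_self _)) h

private theorem pointwise {p : ℕ} [Fact p.Prime] (β : (ZMod p)[X]) (hβ : β.Monic) (f g : ZMod p) :
    |(∑ t : {t : ZMod p // β.eval t = 0}, (if f + t.1 * g = 0 then (1 : ℝ) else 0)) -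
      (if ∑ i ∈ Finset.range (β.natDegree + 1), β.coeff i * (-f) ^ i * g ^ (β.natDegree - i) = 0
        then 1 else 0)| ≤ β.natDegree * (if f = 0 ∧ g = 0 then 1 else 0) := by
  classical
  by_cases hg : g = 0
  · subst hg
    rw [fib_zero β hβ]
    by_cases hf : f = 0
    · subst hf
      rw [if_pos (⟨rfl, rfl⟩ : (0 : ZMod p) = 0 ∧ (0 : ZMod p) = 0), mul_one]
      have h1 := card_zeros_le β hβ
      have h2 : (∑ t : {t : ZMod p // β.eval t = 0}, (if (0 : ZMod p) + t.1 * 0 = 0 then (1 : ℝ)
          else 0)) = ∑ _t : {t : ZMod p // β.eval t = 0}, (1 : ℝ) :=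
        Finset.sum_congr rfl fun t _ => by simp
      have h3 : 0 ≤ ∑ _t : {t : ZMod p // β.eval t = 0}, (1 : ℝ) :=
        Finset.sum_nonneg fun _ _ => zero_le_one
      rw [h2]
      rcases Nat.eq_zero_or_pos β.natDegree with h | h
      · rw [h, neg_zero, pow_zero, if_neg one_ne_zero, sub_zero, abs_of_nonneg h3, Nat.cast_zero]
        rw [h, Nat.cast_zero] at h1
        exact h1
      · rw [neg_zero, zero_pow (by omega), if_pos rfl, abs_le]
        have h4 : (1 : ℝ) ≤ β.natDegree := by exact_mod_cast h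
        constructor <;> linarith
    · have hf' : ¬ (f = 0 ∧ (0 : ZMod p) = 0) := fun h => hf h.1
      rw [if_neg hf', if_neg (pow_ne_zero _ (neg_ne_zero.2 hf)), mul_zero, sub_zero,
        abs_nonpos_iff]
      refine Finset.sum_eq_zero fun t _ => ?_
      rw [mul_zero, add_zero, if_neg hf]
  · have hg' : ¬ (f = 0 ∧ g = 0) := fun h => hg h.2
    rw [if_neg hg', mul_zero, fib_val β f g hg, abs_nonpos_iff, sub_eq_zero]
    have hiff : ∀ t : ZMod p, f + t * g = 0 ↔ t = -f / g := by
      intro t
      rw [eq_div_iff hg]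
      constructor
      · intro h; linear_combination h
      · intro h; linear_combination h
    by_cases h : β.eval (-f / g) = 0
    · rw [h, mul_zero, if_pos rfl, Finset.sum_eq_single (⟨-f / g, h⟩ : {t : ZMod p // β.eval t = 0})]
      · rw [if_pos ((hiff _).2 rfl)]
      · intro t _ ht
        rw [if_neg]
        intro h1
        exact ht (Subtype.ext ((hiff _).1 h1))
      · intro h1; exact absurd (Finset.mem_univ _) h1
    · rw [if_neg (mul_ne_zero (pow_ne_zero _ hg) h)]
      refine Finset.sum_eq_zero fun t _ => ?_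
      rw [if_neg]
      intro h1
      apply h
      rw [← (hiff _).1 h1]
      exact t.2

private theorem val_fib {p : ℕ} [Fact p.Prime] {R : Type} [CommRing R] (F G : R[X][X]) (B : R[X])
    (hB : B.Monic) (z : R →+* ZMod p) (q : ZMod p × ZMod p) :
    val z q (fib F G B) = ∑ i ∈ Finset.range ((B.map z).natDegree + 1),
      (B.map z).coeff i * (-(val z q F)) ^ i * (val z q G) ^ ((B.map z).natDegree - i) := by
  rw [hB.natDegree_map, fib, map_sum]
  refine Finset.sum_congr rfl fun i _ => ?_
  rw [map_mul, map_mul, map_pow, map_pow, map_neg, coeff_map]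
  congr 2
  simp [val]

private theorem card_sum {p : ℕ} [Fact p.Prime] (Q : ZMod p × ZMod p → Prop) [DecidablePred Q] :
    (Nat.card {q : ZMod p × ZMod p // Q q} : ℝ) = ∑ q, (if Q q then (1 : ℝ) else 0) := by
  rw [Nat.card_eq_fintype_card, Fintype.card_subtype, Finset.card_filter]
  push_cast
  rfl

/-- proof: for `G_z(x, y) ≠ 0` there is exactly one `t` with `F + t G = 0`, and `B(t) = 0` for
this `t` if and only if `fib = 0`; if `G_z(x, y) = 0` and `B` is monic then `fib = ± F^n` -/
theorem fibre_bad {p : ℕ} [Fact p.Prime] {R : Type} [CommRing R] (F G : R[X][X]) (B : R[X])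
    (hB : B.Monic) (z : R →+* ZMod p) :
    |(∑ t : {t : ZMod p // (B.map z).eval t = 0},
        (Nat.card {q : ZMod p × ZMod p // val z q F + t.1 * val z q G = 0} : ℝ)) -
      Nat.card {q : ZMod p × ZMod p // val z q (fib F G B) = 0}| ≤
      B.natDegree * Nat.card {q : ZMod p × ZMod p // val z q F = 0 ∧ val z q G = 0} := by
  classical
  have hn : (B.map z).natDegree = B.natDegree := hB.natDegree_map z
  have hBm : (B.map z).Monic := hB.map z
  rw [card_sum, card_sum]
  simp only [card_sum]
  rw [Finset.sum_comm, ← Finset.sum_sub_distrib, Finset.mul_sum]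
  refine (Finset.abs_sum_le_sum_abs _ _).trans (Finset.sum_le_sum fun q _ => ?_)
  rw [val_fib F G B hB z q]
  have := pointwise (B.map z) hBm (val z q F) (val z q G)
  rwa [hn] at this ⊢

private theorem ft_int (S : Type) [CommRing S] [a : Algebra ℤ S]
    (h : @Algebra.FiniteType ℤ S _ _ a) : @Algebra.FiniteType ℤ S _ _ (Ring.toIntAlgebra S) := by
  have e : a = Ring.toIntAlgebra S := Subsingleton.elim _ _
  rw [← e]
  exact h

private theorem span_iff {S T : Type} [CommRing S] [CommRing T] (φ : S →+* T) (s : Set S) :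
    (∀ u ∈ Ideal.span s, φ u = 0) ↔ ∀ u ∈ s, φ u = 0 := by
  constructor
  · intro h u hu
    exact h u (Ideal.subset_span hu)
  · intro h u hu
    have h2 : Ideal.span s ≤ RingHom.ker φ := by
      rw [Ideal.span_le]
      intro x hx
      exact h x hx
    exact h2 hu

/-- proof: the sum over all `t` is `#{G = 0} - p #{F = G = 0}` (`avg_eq` in `W/Cnt.lean`); subtract
the `t` with `B(t) = 0` by `fibre_bad`; sum over `z` and use `comps_countG` for the four ideals
(`finite_hom`, `hom2_count`, `hom1_count`; the error is `O(p^d)` in the mean) -/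
theorem aff_mean {R : Type} [CommRing R] [IsDomain R] [Algebra.FiniteType ℤ R] {δ : ℕ}
    {F G : R[X][X]} {B : R[X]} {d m N s w n₀ : ℕ} (h : Data R δ F G B d m N s w n₀) :
    Quad.TauMean (fun p => (∑ᶠ z : R →+* ZMod p, ∑ᶠ t : {t : ZMod p // (B.map z).eval t ≠ 0},
      ((p : ℝ) - Nat.card {q : ZMod p × ZMod p // val z q F + t.1 * val z q G = 0})) /
        (p : ℝ) ^ (d + 1)) ((m : ℝ) - N - s + w) := by
  classical
  have hft1 : Algebra.FiniteType ℤ R[X] :=
    Algebra.FiniteType.trans (S := R) inferInstance inferInstance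
  have hft2 : Algebra.FiniteType ℤ R[X][X] :=
    Algebra.FiniteType.trans (S := R[X]) hft1 inferInstance
  have hft3 := ft_int _ hft1
  have hft4 := ft_int _ hft2
  obtain ⟨PG, hG⟩ := h.compG
  obtain ⟨PFG, hFG⟩ := h.compFG
  obtain ⟨PB, hPB⟩ := h.compB
  obtain ⟨PF, hF⟩ := h.compF
  have mG := comps_countG R hG
  have mFG := comps_countG R hFG
  have mB := comps_countG R hPB
  have mF := comps_countG R hF
  have hB := h.monic
  -- the error
  set E : ℕ → ℝ := fun p => (∑ᶠ z : R →+* ZMod p, ((∑ᶠ t : {t : ZMod p // (B.map z).eval t = 0},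
    (Nat.card {q : ZMod p × ZMod p // val z q F + t.1 * val z q G = 0} : ℝ)) -
      Nat.card {q : ZMod p × ZMod p // val z q (fib F G B) = 0})) / (p : ℝ) ^ (d + 1) with hE
  have mE : Quad.TauMean E 0 := by
    refine Quad.TauMean.squeeze mFG fun ε hε => ?_
    obtain ⟨p₀, hp₀⟩ := exists_nat_gt ((B.natDegree : ℝ) / ε)
    refine ⟨p₀ + 1, fun p hp hpp => ?_⟩
    have : Fact p.Prime := ⟨hpp⟩
    have hfin : Finite (R →+* ZMod p) := finite_hom R p hpp
    have := Fintype.ofFinite (R →+* ZMod p)
    have hp0 : (0 : ℝ) < p := by exact_mod_cast hpp.pos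
    have hpe : (B.natDegree : ℝ) ≤ ε * p := by
      have h1 : (p₀ : ℝ) ≤ p := by
        have : p₀ ≤ p := by omega
        exact_mod_cast this
      rw [div_lt_iff₀ hε] at hp₀
      nlinarith
    rw [hom2_count p hpp]
    have h2 : ∀ z : R →+* ZMod p, ∀ q : ZMod p × ZMod p,
        (∀ u ∈ Ideal.span {F, G}, val z q u = 0) ↔ (val z q F = 0 ∧ val z q G = 0) := by
      intro z q
      rw [span_iff]
      simp
    simp only [h2, hE]
    rw [finsum_eq_sum_of_fintype, abs_div, abs_of_pos (by positivity : (0 : ℝ) < (p : ℝ) ^ (d + 1)),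
      div_le_iff₀ (by positivity)]
    have h3 : |∑ z : R →+* ZMod p, ((∑ᶠ t : {t : ZMod p // (B.map z).eval t = 0},
        (Nat.card {q : ZMod p × ZMod p // val z q F + t.1 * val z q G = 0} : ℝ)) -
        Nat.card {q : ZMod p × ZMod p // val z q (fib F G B) = 0})| ≤
        B.natDegree * ∑ z : R →+* ZMod p,
          (Nat.card {q : ZMod p × ZMod p // val z q F = 0 ∧ val z q G = 0} : ℝ) := by
      rw [Finset.mul_sum]
      refine (Finset.abs_sum_le_sum_abs _ _).trans (Finset.sum_le_sum fun z _ => ?_)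
      rw [finsum_eq_sum_of_fintype]
      exact fibre_bad F G B hB z
    refine h3.trans ?_
    push_cast
    have h4 : (0 : ℝ) ≤ ∑ z : R →+* ZMod p,
        (Nat.card {q : ZMod p × ZMod p // val z q F = 0 ∧ val z q G = 0} : ℝ) :=
      Finset.sum_nonneg fun _ _ => Nat.cast_nonneg _
    calc _ ≤ ε * p * ∑ z : R →+* ZMod p,
          (Nat.card {q : ZMod p × ZMod p // val z q F = 0 ∧ val z q G = 0} : ℝ) := by gcongr
      _ = _ := by
        rw [pow_succ]
        field_simp
  have main := ((mG.sub mFG).sub mB).add (mF.add mE)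
  have e : (m : ℝ) - N - s + (w + 0) = (m : ℝ) - N - s + w := by ring
  rw [e] at main
  refine main.congr' 0 fun p _ hpp => ?_
  have : Fact p.Prime := ⟨hpp⟩
  have hfin : Finite (R →+* ZMod p) := finite_hom R p hpp
  have := Fintype.ofFinite (R →+* ZMod p)
  have hp0 : (p : ℝ) ≠ 0 := by exact_mod_cast hpp.ne_zero
  have havg := avg_eq F G d p hpp
  have i1 : ∀ φ : R[X][X] →+* ZMod p, (∀ u ∈ Ideal.span {G}, φ u = 0) ↔ φ G = 0 := by
    intro φ; rw [span_iff]; simp
  have i2 : ∀ φ : R[X][X] →+* ZMod p,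
      (∀ u ∈ Ideal.span {F, G}, φ u = 0) ↔ (φ F = 0 ∧ φ G = 0) := by
    intro φ; rw [span_iff]; simp
  simp only [i1, i2]
  rw [← havg, hom1_count p hpp, hom2_count p hpp]
  have i3 : ∀ z : R →+* ZMod p, ∀ y : ZMod p,
      (∀ u ∈ Ideal.span {B}, (u.map z).eval y = 0) ↔ (B.map z).eval y = 0 := by
    intro z y
    have := span_iff ((evalRingHom y).comp (mapRingHom z)) ({B} : Set R[X])
    simpa using this
  have i4 : ∀ z : R →+* ZMod p, ∀ q : ZMod p × ZMod p,
      (∀ u ∈ Ideal.span {fib F G B}, val z q u = 0) ↔ val z q (fib F G B) = 0 := by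
    intro z q; rw [span_iff]; simp
  simp only [i3, i4, hE, avg, trc]
  simp only [finsum_eq_sum_of_fintype]
  have key : ∀ z : R →+* ZMod p, ∑ t : {t : ZMod p // (B.map z).eval t ≠ 0},
      ((p : ℝ) - Nat.card {q : ZMod p × ZMod p // val z q F + t.1 * val z q G = 0}) =
      (∑ t : ZMod p, (((p : ℤ) - Nat.card {q : ZMod p × ZMod p // val z q F + t * val z q G = 0} : ℤ)
        : ℝ)) - p * Nat.card {y : ZMod p // (B.map z).eval y = 0} +
      ∑ t : {t : ZMod p // (B.map z).eval t = 0},
        (Nat.card {q : ZMod p × ZMod p // val z q F + t.1 * val z q G = 0} : ℝ) := by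
    intro z
    have h1 := Fintype.sum_subtype_add_sum_subtype (fun t : ZMod p => (B.map z).eval t = 0)
      (fun t : ZMod p => (p : ℝ) -
        Nat.card {q : ZMod p × ZMod p // val z q F + t * val z q G = 0})
    have h2 : ∑ t : {t : ZMod p // (B.map z).eval t = 0}, ((p : ℝ) -
        Nat.card {q : ZMod p × ZMod p // val z q F + t.1 * val z q G = 0}) =
        p * Nat.card {y : ZMod p // (B.map z).eval y = 0} -
        ∑ t : {t : ZMod p // (B.map z).eval t = 0},
        (Nat.card {q : ZMod p × ZMod p // val z q F + t.1 * val z q G = 0} : ℝ) := by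
      rw [Finset.sum_sub_distrib, Finset.sum_const, Finset.card_univ, nsmul_eq_mul,
        Nat.card_eq_fintype_card]
      ring
    push_cast
    rw [h2] at h1
    linarith
  rw [Finset.sum_congr rfl fun z _ => key z]
  rw [Finset.sum_add_distrib, Finset.sum_sub_distrib, ← Finset.mul_sum, Finset.sum_sub_distrib]
  push_cast
  field_simp
  ring

end Pool.Agent.Lib.MP_1a0ddd_nt.V
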