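import Pool.Agent.Lib.MP_1a0ddd_nt.Base2

/-! Lines, graphs and sections are components with the point count. -/

set_option autoImplicit false

namespace Pool.Agent.Lib.MP_1a0ddd_nt.V

open Polynomial

/-- the line `x = α`; `Ideal.polynomialQuotientEquivQuotientPolynomial` -/
theorem tower_line (R : Type) [CommRing R] (d : ℕ) (h : TowerD R d) (α : R) :
    TowerD (R[X][X] ⧸ Ideal.span {(C (X - C α) : R[X][X])}) (d + 1) := by
  have e1 : R[X] ≃+* (R[X] ⧸ Ideal.span ({X - C α} : Set R[X]))[X] :=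
    Polynomial.mapEquiv (Polynomial.quotientSpanXSubCAlgEquiv α).symm.toRingEquiv
  have e2 := Ideal.polynomialQuotientEquivQuotientPolynomial
    (Ideal.span ({X - C α} : Set R[X]))
  have hI : Ideal.map C (Ideal.span ({X - C α} : Set R[X]))
      = Ideal.span {(C (X - C α) : R[X][X])} := by
    rw [Ideal.map_span, Set.image_singleton]
  exact TowerD.iso (TowerD.poly h) ((e1.trans e2).trans (Ideal.quotEquivOfEq hI))

/-- the graph `y = φ(x)`; `quotientSpanXSubCAlgEquiv` -/
theorem tower_graph (R : Type) [CommRing R] (d : ℕ) (h : TowerD R d) (φ : R[X]) :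
    TowerD (R[X][X] ⧸ Ideal.span {(X - C φ : R[X][X])}) (d + 1) :=
  TowerD.iso (TowerD.poly h) (Polynomial.quotientSpanXSubCAlgEquiv φ).symm.toRingEquiv

/-- the section `(α, β)`; `quotientSpanCXSubCXSubCAlgEquiv` -/
theorem tower_point (R : Type) [CommRing R] (d : ℕ) (h : TowerD R d) (α β : R) :
    TowerD (R[X][X] ⧸ Ideal.span {(C (X - C α) : R[X][X]), X - C (C β)}) d :=
  TowerD.iso h
    (Polynomial.quotientSpanCXSubCXSubCAlgEquiv (x := α) (y := C β)).symm.toRingEquiv

end Pool.Agent.Lib.MP_1a0ddd_nt.V
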