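import Pool.Agent.Lib.MP_1a0ddd_nt.V.Unt
import Pool.Agent.Lib.MP_1a0ddd_nt.W.Frc

/-! From components over `R` to prime factors over the fraction field of `R`. -/

set_option autoImplicit false

namespace Pool.Agent.Lib.MP_1a0ddd_nt.V

open Polynomial Pool.Agent.Lib.MP_1a0ddd_nt.W

/-- the two notions of components agree -/
private theorem frv_comps {R : Type} [CommRing R] {I : Ideal R[X][X]} {e n : ℕ}
    {P : Fin n → Ideal R[X][X]} (h : CompsG R I e P) : Comps I e P :=
  ⟨h.le, h.pow, h.inc, h.prime, fun i r hr => h.dom i r hr, h.count⟩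

/-- a prime ideal with the ideal `I` contains the extension of one of the components -/
private theorem frv_contains {S T : Type} [CommRing S] [CommRing T] (φ : S →+* T) {I : Ideal S}
    {n : ℕ} {P : Fin n → Ideal S} (hP : ∃ k : ℕ, (∏ i, P i) ^ k ≤ I)
    (M : Ideal T) (hM : M.IsPrime) (hI : I.map φ ≤ M) : ∃ i, (P i).map φ ≤ M := by
  obtain ⟨k, hk⟩ := hP
  have h1 : ((∏ i, P i) ^ k).map φ ≤ M := le_trans (Ideal.map_mono hk) hI
  rw [Ideal.map_pow] at h1
  have h2 : (∏ i, P i).map φ ≤ M := Ideal.IsPrime.le_of_pow_le h1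
  have h3 : (∏ i, P i).map φ = ∏ i, (P i).map φ := map_prod (Ideal.mapHom φ) P Finset.univ
  rw [h3, hM.prod_le] at h2
  obtain ⟨i, _, hi⟩ := h2
  exact ⟨i, hi⟩

/-- the extensions of the components to a factorial ring are principal -/
private theorem frv_gen {S T : Type} [CommRing S] [CommRing T] [IsDomain T]
    [UniqueFactorizationMonoid T] (φ : S →+* T) {G : S} (hG0 : φ G ≠ 0) {n : ℕ}
    {P : Fin n → Ideal S} (hle : ∀ i, Ideal.span {G} ≤ P i)
    (hpow : ∃ k : ℕ, (∏ i, P i) ^ k ≤ Ideal.span {G}) (hinc : ∀ i j, P i ≤ P j → i = j)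
    (hpr : ∀ i, ((P i).map φ).IsPrime ∧ ((P i).map φ).comap φ = P i) :
    ∃ g : Fin n → T, (∀ j, Prime (g j)) ∧ (∀ i j, g i ∣ g j → i = j) ∧
      (∀ j, g j ∣ φ G) ∧ ∀ π : T, Prime π → π ∣ φ G → ∃ j, g j ∣ π := by
  classical
  -- comparison of the extensions
  have hcomp : ∀ i j, (P i).map φ ≤ (P j).map φ → i = j := by
    intro i j hij
    apply hinc
    have h1 := Ideal.comap_mono (f := φ) hij
    rw [(hpr i).2, (hpr j).2] at h1
    exact h1
  have hspan : ∀ π : T, π ∣ φ G → (Ideal.span {G}).map φ ≤ Ideal.span {π} := by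
    intro π hπ
    rw [Ideal.map_span, Set.image_singleton, Ideal.span_singleton_le_span_singleton]
    exact hπ
  -- every extension is principal
  have hprinc : ∀ i, ∃ π : T, Prime π ∧ π ∣ φ G ∧ (P i).map φ = Ideal.span {π} := by
    intro i
    have hGi : φ G ∈ (P i).map φ := Ideal.mem_map_of_mem φ (hle i (Ideal.subset_span rfl))
    obtain ⟨π, hπ, hπG, hπi⟩ : ∃ π : T, Prime π ∧ π ∣ φ G ∧ π ∈ (P i).map φ := by
      obtain ⟨s, hs, u, hu⟩ := UniqueFactorizationMonoid.exists_prime_factors (φ G) hG0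
      have h1 : s.prod ∈ (P i).map φ := by
        have h2 : s.prod = φ G * ↑u⁻¹ := by
          rw [← hu, mul_assoc, Units.mul_inv, mul_one]
        rw [h2]
        exact Ideal.mul_mem_right _ _ hGi
      rw [(hpr i).1.multiset_prod_mem_iff_exists_mem] at h1
      obtain ⟨π, hπs, hπ⟩ := h1
      exact ⟨π, hs π hπs, (Multiset.dvd_prod hπs).trans ⟨u, hu.symm⟩, hπ⟩
    refine ⟨π, hπ, hπG, ?_⟩
    have hπprime : (Ideal.span {π}).IsPrime := (Ideal.span_singleton_prime hπ.ne_zero).2 hπ
    obtain ⟨j, hj⟩ := frv_contains φ hpow (Ideal.span {π}) hπprime (hspan π hπG)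
    have hle : Ideal.span {π} ≤ (P i).map φ := by
      rw [Ideal.span_singleton_le_iff_mem]
      exact hπi
    have hij : j = i := hcomp j i (le_trans hj hle)
    rw [hij] at hj
    exact le_antisymm hj hle
  choose g hg hgG hgP using hprinc
  refine ⟨g, hg, ?_, hgG, ?_⟩
  · intro i j hij
    refine (hcomp j i ?_).symm
    rw [hgP, hgP, Ideal.span_singleton_le_span_singleton]
    exact hij
  · intro π hπ hπG
    have hπprime : (Ideal.span {π}).IsPrime := (Ideal.span_singleton_prime hπ.ne_zero).2 hπ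
    obtain ⟨j, hj⟩ := frv_contains φ hpow (Ideal.span {π}) hπprime (hspan π hπG)
    have hj' : (P j).map φ ≤ Ideal.span {π} := hj
    rw [hgP, Ideal.span_singleton_le_span_singleton] at hj'
    exact ⟨j, ((hπ.irreducible.dvd_symm (hg j).irreducible) hj')⟩

section

attribute [local instance] Polynomial.algebra Polynomial.isLocalization

private theorem frv_loc2 {R : Type} [CommRing R] [IsDomain R] (K : Type) [Field K] [Algebra R K]
    [IsFractionRing R K] (P : Ideal R[X][X]) (hP : P.IsPrime)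
    (hd : ∀ r : R, C (C r) ∈ P → r = 0) :
    (P.map (mapRingHom (mapRingHom (algebraMap R K)))).IsPrime ∧
      (P.map (mapRingHom (mapRingHom (algebraMap R K)))).comap
        (mapRingHom (mapRingHom (algebraMap R K))) = P := by
  have halg : algebraMap R[X][X] K[X][X] = mapRingHom (mapRingHom (algebraMap R K)) := rfl
  let M : Submonoid R[X][X] := Submonoid.map C (Submonoid.map C (nonZeroDivisors R))
  have hloc : IsLocalization M K[X][X] := inferInstance
  have hdis : Disjoint (M : Set R[X][X]) (P : Set R[X][X]) := by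
    rw [Set.disjoint_left]
    rintro _ ⟨_, ⟨r, hr, rfl⟩, rfl⟩ hmem
    exact nonZeroDivisors.ne_zero hr (hd r hmem)
  rw [← halg]
  exact ⟨IsLocalization.isPrime_of_isPrime_disjoint M K[X][X] P hP hdis,
    IsLocalization.under_map_of_isPrime_disjoint M K[X][X] hP hdis⟩

private theorem frv_loc1 {R : Type} [CommRing R] [IsDomain R] (K : Type) [Field K] [Algebra R K]
    [IsFractionRing R K] (P : Ideal R[X]) (hP : P.IsPrime)
    (hd : ∀ r : R, C r ∈ P → r = 0) :
    (P.map (mapRingHom (algebraMap R K))).IsPrime ∧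
      (P.map (mapRingHom (algebraMap R K))).comap (mapRingHom (algebraMap R K)) = P := by
  have halg : algebraMap R[X] K[X] = mapRingHom (algebraMap R K) := rfl
  let M : Submonoid R[X] := Submonoid.map C (nonZeroDivisors R)
  have hloc : IsLocalization M K[X] := inferInstance
  have hdis : Disjoint (M : Set R[X]) (P : Set R[X]) := by
    rw [Set.disjoint_left]
    rintro _ ⟨r, hr, rfl⟩ hmem
    exact nonZeroDivisors.ne_zero hr (hd r hmem)
  rw [← halg]
  exact ⟨IsLocalization.isPrime_of_isPrime_disjoint M K[X] P hP hdis,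
    IsLocalization.under_map_of_isPrime_disjoint M K[X] hP hdis⟩

end

/-- proof: as for `frac_factors` in `W/Frc.lean` -/
theorem frac_factors2 {R : Type} [CommRing R] [IsDomain R] {G : R[X][X]} (h0 : G ≠ 0)
    {m e : ℕ} {P : Fin m → Ideal R[X][X]} (hP : CompsG R (Ideal.span {G}) e P) (K : Type)
    [Field K] [Algebra R K] [IsFractionRing R K] :
    ∃ g : Fin m → K[X][X], (∀ j, Prime (g j)) ∧ (∀ i j, g i ∣ g j → i = j) ∧
      (∀ j, g j ∣ bc (algebraMap R K) G) ∧
      ∀ π : K[X][X], Prime π → π ∣ bc (algebraMap R K) G → ∃ j, g j ∣ π := by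
  have hinj : Function.Injective (mapRingHom (mapRingHom (algebraMap R K))) :=
    Polynomial.map_injective _ (Polynomial.map_injective _ (IsFractionRing.injective R K))
  exact frv_gen (mapRingHom (mapRingHom (algebraMap R K))) ((map_ne_zero_iff _ hinj).2 h0)
    hP.le hP.pow hP.inc fun i => frv_loc2 K (P i) (hP.prime i) fun r hr => hP.dom i r hr

/-- the same in one variable -/
theorem frac_factors1 {R : Type} [CommRing R] [IsDomain R] {B : R[X]} (h0 : B ≠ 0)
    {s e : ℕ} {P : Fin s → Ideal R[X]} (hP : CompsG R (Ideal.span {B}) e P) (K : Type)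
    [Field K] [Algebra R K] [IsFractionRing R K] :
    ∃ q : Fin s → K[X], (∀ j, Prime (q j)) ∧ (∀ i j, q i ∣ q j → i = j) ∧
      (∀ j, q j ∣ B.map (algebraMap R K)) ∧
      ∀ π : K[X], Prime π → π ∣ B.map (algebraMap R K) → ∃ j, q j ∣ π := by
  have hinj : Function.Injective (mapRingHom (algebraMap R K)) :=
    Polynomial.map_injective _ (IsFractionRing.injective R K)
  exact frv_gen (mapRingHom (algebraMap R K)) ((map_ne_zero_iff _ hinj).2 h0)
    hP.le hP.pow hP.inc fun i => frv_loc1 K (P i) (hP.prime i) fun r hr => hP.dom i r hr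

/-- the polynomial `fib F G B` is not zero -/
private theorem frv_fib_ne {R : Type} [CommRing R] [IsDomain R] {F G : R[X][X]}
    (h : Pencil F G) {B : R[X]} (hB : B.Monic) : fib F G B ≠ 0 := by
  classical
  have hF0 : F ≠ 0 := h.monic.ne_zero
  have hpow : ∀ i : ℕ, i < B.natDegree →
      (C (C (B.coeff i)) * (-F) ^ i * G ^ (B.natDegree - i)).natDegree <
        B.natDegree * F.natDegree := by
    intro i hi
    have h1 : (C (C (B.coeff i)) * (-F) ^ i * G ^ (B.natDegree - i)).natDegree ≤
        i * F.natDegree + (B.natDegree - i) * G.natDegree := by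
      refine (natDegree_mul_le).trans (add_le_add ?_ (natDegree_pow_le))
      refine (natDegree_C_mul_le _ _).trans ?_
      refine natDegree_pow_le.trans ?_
      rw [natDegree_neg]
    have h3 : (B.natDegree - i) * G.natDegree < (B.natDegree - i) * F.natDegree :=
      Nat.mul_lt_mul_of_pos_left h.lt (by omega)
    have h4 : B.natDegree * F.natDegree = i * F.natDegree + (B.natDegree - i) * F.natDegree := by
      rw [← add_mul]
      congr 1
      omega
    omega
  intro h0
  have hc : (fib F G B).coeff (B.natDegree * F.natDegree) = 0 := by rw [h0, coeff_zero]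
  rw [fib, finsetSum_coeff, Finset.sum_range_succ, Finset.sum_eq_zero, zero_add] at hc
  · rw [hB.coeff_natDegree, C_1, C_1, one_mul, Nat.sub_self, pow_zero, mul_one] at hc
    have h1 : (-F) ^ B.natDegree ≠ 0 := pow_ne_zero _ (neg_ne_zero.2 hF0)
    apply leadingCoeff_ne_zero.2 h1
    rw [leadingCoeff, natDegree_pow, natDegree_neg]
    exact hc
  · intro i hi
    exact coeff_eq_zero_of_natDegree_lt (hpow i (Finset.mem_range.1 hi))

/-- proof: the families for `G` and for `fib F G B` together (`fib_bc`, `fib_relPrime`) -/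
theorem frac_family {R : Type} [CommRing R] [IsDomain R] {F G : R[X][X]} (h : Pencil F G)
    {B : R[X]} (hB : B.Monic) {m w e : ℕ} {P : Fin m → Ideal R[X][X]}
    {W : Fin w → Ideal R[X][X]} (hP : CompsG R (Ideal.span {G}) e P)
    (hW : CompsG R (Ideal.span {fib F G B}) e W) (K : Type) [Field K] [Algebra R K]
    [IsFractionRing R K] :
    ∃ g : Fin m ⊕ Fin w → K[X][X], (∀ j, Prime (g j)) ∧ (∀ i j, g i ∣ g j → i = j) ∧
      (∀ j, g j ∣ bc (algebraMap R K) G *
        fib (bc (algebraMap R K) F) (bc (algebraMap R K) G) (B.map (algebraMap R K))) ∧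
      ∀ π : K[X][X], Prime π → π ∣ bc (algebraMap R K) G *
        fib (bc (algebraMap R K) F) (bc (algebraMap R K) G) (B.map (algebraMap R K)) →
          ∃ j, g j ∣ π := by
  have hinj := IsFractionRing.injective R K
  have h' : Pencil (bc (algebraMap R K) F) (bc (algebraMap R K) G) :=
    pencil_map (algebraMap R K) hinj h
  obtain ⟨g, g1, g2, g3, g4⟩ := frac_factors2 h.ne hP K
  obtain ⟨f, f1, f2, f3, f4⟩ := frac_factors2 (frv_fib_ne h hB) hW K
  rw [fib_bc _ hinj] at f3 f4
  have hrel : IsRelPrime (fib (bc (algebraMap R K) F) (bc (algebraMap R K) G)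
      (B.map (algebraMap R K))) (bc (algebraMap R K) G) :=
    (fib_relPrime h' (hB.map _).ne_zero one_ne_zero isCoprime_one_right).2
  refine ⟨Sum.elim g f, ?_, ?_, ?_, ?_⟩
  · rintro (j | j)
    · exact g1 j
    · exact f1 j
  · rintro (i | i) (j | j) hij
    · exact congrArg Sum.inl (g2 i j hij)
    · exact absurd (hrel (dvd_trans hij (f3 j)) (g3 i)) (g1 i).not_isUnit
    · exact absurd (hrel (f3 i) (dvd_trans hij (g3 j))) (f1 i).not_isUnit
    · exact congrArg Sum.inr (f2 i j hij)
  · rintro (j | j)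
    · exact dvd_mul_of_dvd_left (g3 j) _
    · exact dvd_mul_of_dvd_right (f3 j) _
  · intro π hπ hd
    rcases hπ.dvd_or_dvd hd with h1 | h1
    · obtain ⟨j, hj⟩ := g4 π hπ h1
      exact ⟨Sum.inl j, hj⟩
    · obtain ⟨j, hj⟩ := f4 π hπ h1
      exact ⟨Sum.inr j, hj⟩

/-- proof: as for `frac_base` in `W/Frc.lean` -/
theorem frac_base3 {R : Type} [CommRing R] [IsDomain R] {F G : R[X][X]}
    (h : Pencil F G) {N e : ℕ} {Q : Fin N → Ideal R[X][X]}
    (hQ : CompsG R (Ideal.span {F, G}) e Q) (K : Type) [Field K] [Algebra R K]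
    [IsFractionRing R K] {A : Type} [CommRing A] {ψ : (RatFunc K)[X][X] →+* A}
    (H : Cv (bc (algebraMap R K) F) (bc (algebraMap R K) G) A ψ) :
    Nat.card {P : Ideal A // P.IsPrime ∧ ψ (up (bc (algebraMap R K) G)) ∈ P} = N :=
  frac_base h (frv_comps hQ) K H

end Pool.Agent.Lib.MP_1a0ddd_nt.V
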