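import Pool.Agent.Lib.MP_1a0ddd_nt.V.Defs
import Pool.Agent.Lib.MP_1a0ddd_nt.Over

/-! The closed points at infinity. -/

set_option autoImplicit false

namespace Pool.Agent.Lib.MP_1a0ddd_nt.V

open Polynomial Pool.Agent.Lib.MP_1a0ddd_nt.W

private theorem coeff_top {R : Type} [CommRing R] (δ : ℕ) (F : R[X][X]) (j : ℕ) :
    (top δ F).coeff j = if j ≤ δ then (F.coeff j).coeff (δ - j) else 0 := by
  unfold top
  rw [finset_sum_coeff]
  simp only [coeff_C_mul_X_pow]
  rw [Finset.sum_ite_eq]
  simp only [Finset.mem_range, Nat.lt_succ_iff]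

theorem top_monic {R : Type} [CommRing R] [Nontrivial R] {δ : ℕ} {F G : R[X][X]}
    (h : PlanePencil δ F G) :
    (top δ F).Monic ∧ (top δ F).natDegree = δ ∧ (top δ G).natDegree < δ := by
  have hle : ∀ H : R[X][X], (top δ H).natDegree ≤ δ := by
    intro H
    rw [natDegree_le_iff_coeff_eq_zero]
    intro N hN
    rw [coeff_top, if_neg (by omega)]
  have h1 : (top δ F).coeff δ = 1 := by
    rw [coeff_top, if_pos le_rfl, Nat.sub_self]
    have h2 : F.coeff δ = 1 := by
      have h3 := h.pencil.monic.coeff_natDegree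
      rwa [h.deg] at h3
    rw [h2, coeff_one_zero]
  have hlt : G.natDegree < δ := by
    have h2 := h.pencil.lt
    rwa [h.deg] at h2
  have h2 : (top δ G).coeff δ = 0 := by
    rw [coeff_top, if_pos le_rfl, coeff_eq_zero_of_natDegree_lt hlt, coeff_zero]
  refine ⟨monic_of_natDegree_le_of_coeff_eq_one δ (hle F) h1, ?_, ?_⟩
  · refine le_antisymm (hle F) (le_natDegree_of_ne_zero ?_)
    rw [h1]
    exact one_ne_zero
  · refine lt_of_le_of_ne (hle G) fun h3 => ?_
    have h4 : (top δ G).leadingCoeff = 0 := by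
      rw [leadingCoeff, h3, h2]
    rw [leadingCoeff_eq_zero] at h4
    rw [h4, natDegree_zero] at h3
    omega

theorem top_pen {L : Type} [Field L] (δ : ℕ) (F G : L[X][X]) :
    top δ (pen F G) = (top δ F).map RatFunc.C + C RatFunc.X * (top δ G).map RatFunc.C := by
  ext j
  rw [coeff_add, coeff_C_mul, coeff_map, coeff_map, coeff_top, coeff_top, coeff_top]
  by_cases hj : j ≤ δ
  · simp only [if_pos hj]
    simp only [pen, lin, bc, coeff_add, coeff_C_mul, coeff_map, coe_mapRingHom]
  · simp only [if_neg hj, map_zero, mul_zero, add_zero]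

private theorem monic_eq {K : Type} [Field K] {p q : K[X]} (hp : p.Monic) (hq : q.Monic)
    (hpi : Irreducible p) (hqi : Irreducible q) (h : p ∣ q) : p = q :=
  eq_of_monic_of_associated hp hq (hpi.associated_of_dvd hqi h)

private theorem exists_monic {K : Type} [Field K] {p : K[X]} (hp : Irreducible p) :
    ∃ q : K[X], q.Monic ∧ Irreducible q ∧ Associated p q := by
  have hp0 : p ≠ 0 := hp.ne_zero
  have hunit : IsUnit (C p.leadingCoeff⁻¹ : K[X]) := by
    rw [isUnit_C]
    exact isUnit_iff_ne_zero.2 (inv_ne_zero (leadingCoeff_ne_zero.2 hp0))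
  have hass : Associated p (p * C p.leadingCoeff⁻¹) :=
    (associated_mul_isUnit_right_iff hunit).2 (Associated.refl p)
  exact ⟨_, monic_mul_leadingCoeff_inv hp0, hass.irreducible hp, hass⟩

/-- monic irreducible factors of a polynomial over `L` do not change over `L(t)` -/
private theorem factor_down {L : Type} [Field L] {D : L[X]} (hD : D ≠ 0) {π : (RatFunc L)[X]}
    (hm : π.Monic) (hi : Irreducible π) (h : π ∣ D.map (RatFunc.C : L →+* RatFunc L)) :
    ∃ q : L[X], q.Monic ∧ Irreducible q ∧ q ∣ D ∧ q.map (RatFunc.C : L →+* RatFunc L) = π := by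
  obtain ⟨s, hs, u, hu⟩ := WfDvdMonoid.exists_factors D hD
  have h1 : π ∣ (s.prod * (u : L[X])).map (RatFunc.C : L →+* RatFunc L) := by rwa [hu]
  rw [Polynomial.map_mul] at h1
  have hu1 : IsUnit ((u : L[X]).map (RatFunc.C : L →+* RatFunc L)) :=
    u.isUnit.map (mapRingHom (RatFunc.C : L →+* RatFunc L))
  have h2 : π ∣ (s.prod).map (RatFunc.C : L →+* RatFunc L) := (hu1.dvd_mul_right).1 h1
  have h3 : (s.prod).map (RatFunc.C : L →+* RatFunc L) =
      (s.map (fun q => q.map (RatFunc.C : L →+* RatFunc L))).prod :=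
    map_multiset_prod (mapRingHom (RatFunc.C : L →+* RatFunc L)) s
  rw [h3] at h2
  obtain ⟨a, ha, hda⟩ := hi.prime.exists_mem_multiset_map_dvd h2
  obtain ⟨q, hqm, hqi, hqa⟩ := exists_monic (hs a ha)
  refine ⟨q, hqm, hqi, ?_, ?_⟩
  · refine hqa.symm.dvd.trans ?_
    rw [← hu]
    exact (Multiset.dvd_prod ha).mul_right _
  · have h4 : π ∣ q.map (RatFunc.C : L →+* RatFunc L) :=
      hda.trans (_root_.map_dvd (mapRingHom (RatFunc.C : L →+* RatFunc L)) hqa.dvd)
    exact (monic_eq hm (hqm.map _) hi (map_irreducible hqi) h4).symm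

private theorem pen_irreducible {L : Type} [Field L] {f g : L[X]} (hf : f.Monic)
    (hfg : g.natDegree < f.natDegree) (hg : g ≠ 0) (hc : IsCoprime f g) :
    (f.map RatFunc.C + C RatFunc.X * g.map RatFunc.C : (RatFunc L)[X]).Monic ∧
    Irreducible (f.map RatFunc.C + C RatFunc.X * g.map RatFunc.C : (RatFunc L)[X]) := by
  have h1 : Irreducible (C g * X + C f : L[X][X]) :=
    irreducible_C_mul_X_add_C hg hc.symm.isRelPrime
  have h2 : Irreducible (Bivariate.swap (C g * X + C f : L[X][X])) :=
    (MulEquiv.irreducible_iff (Bivariate.swap (R := L)).toMulEquiv).2 h1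
  have h3 : Bivariate.swap (C g * X + C f : L[X][X]) = f.map C + C X * g.map C := by
    rw [map_add, map_mul, Bivariate.swap_C, Bivariate.swap_C, Bivariate.swap_Y]
    ring
  rw [h3] at h2
  have h4 : (f.map C + C X * g.map C : L[X][X]).Monic := by
    refine (hf.map _).add_of_left (degree_lt_degree ?_)
    rw [hf.natDegree_map]
    refine lt_of_le_of_lt (natDegree_C_mul_le _ _) ?_
    exact lt_of_le_of_lt natDegree_map_le hfg
  have h5 := (h4.irreducible_iff_irreducible_map_fraction_map (K := RatFunc L)).1 h2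
  have h6 : (f.map C + C X * g.map C : L[X][X]).map (algebraMap L[X] (RatFunc L)) =
      f.map RatFunc.C + C RatFunc.X * g.map RatFunc.C := by
    rw [Polynomial.map_add, Polynomial.map_mul, Polynomial.map_map, Polynomial.map_map,
      map_C, RatFunc.algebraMap_X]
    have h7 : (algebraMap L[X] (RatFunc L)).comp C = (RatFunc.C : L →+* RatFunc L) := by
      ext a
      rw [RingHom.comp_apply, RatFunc.algebraMap_C]
    rw [h7]
  rw [h6] at h5
  refine ⟨?_, h5⟩
  rw [← h6]
  exact h4.map _

private theorem ratX_ne {L : Type} [Field L] (a : L) : (RatFunc.X : RatFunc L) ≠ RatFunc.C a := by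
  intro h
  rw [← RatFunc.algebraMap_X, ← RatFunc.algebraMap_C] at h
  have h1 := RatFunc.algebraMap_injective L h
  exact Polynomial.X_ne_C a h1

/-- proof: let `f` be monic, `deg g < deg f`, `D = gcd(f, g)` monic, `f = D f'`, `g = D g'`. A
monic irreducible factor of `f + t g = D (f' + t g')` over `L(t)` is an irreducible factor of `D`
over `L` (`map_irreducible` in `MP_1a0ddd_nt/Over.lean`), or, if `g ≠ 0`, the monic polynomial
`f' + t g'`, which is irreducible (compare `pencil_irreducible` in `MP_1a0ddd_nt/Defs.lean`) and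
not defined over `L` -/
theorem card_factors {L : Type} [Field L] {f g : L[X]} (hf : f.Monic)
    (hfg : g.natDegree < f.natDegree) :
    Set.ncard {π : (RatFunc L)[X] | π.Monic ∧ Irreducible π ∧
      π ∣ f.map RatFunc.C + C RatFunc.X * g.map RatFunc.C} =
    Set.ncard {π : L[X] | π.Monic ∧ Irreducible π ∧ π ∣ f ∧ π ∣ g} +
      (open Classical in if g = 0 then 0 else 1) := by
  classical
  have hinj : Function.Injective (fun q : L[X] => q.map (RatFunc.C : L →+* RatFunc L)) :=
    map_injective _ RatFunc.C_injective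
  have himg : ∀ q ∈ {π : L[X] | π.Monic ∧ Irreducible π ∧ π ∣ f ∧ π ∣ g},
      q.map (RatFunc.C : L →+* RatFunc L) ∈ {π : (RatFunc L)[X] | π.Monic ∧ Irreducible π ∧
      π ∣ f.map RatFunc.C + C RatFunc.X * g.map RatFunc.C} := by
    rintro q ⟨h1, h2, h3, h4⟩
    refine ⟨h1.map _, map_irreducible h2, dvd_add ?_ (Dvd.dvd.mul_left ?_ _)⟩
    · exact _root_.map_dvd (mapRingHom (RatFunc.C : L →+* RatFunc L)) h3
    · exact _root_.map_dvd (mapRingHom (RatFunc.C : L →+* RatFunc L)) h4
  by_cases hg : g = 0
  · rw [if_pos hg, add_zero, ← Set.ncard_image_of_injective _ hinj]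
    congr 1
    ext π
    constructor
    · rintro ⟨h1, h2, h3⟩
      rw [hg, Polynomial.map_zero, mul_zero, add_zero] at h3
      obtain ⟨q, hq1, hq2, hq3, hq4⟩ := factor_down hf.ne_zero h1 h2 h3
      exact ⟨q, ⟨hq1, hq2, hq3, by rw [hg]; exact dvd_zero q⟩, hq4⟩
    · rintro ⟨q, hq, rfl⟩
      exact himg q hq
  · rw [if_neg hg]
    -- the gcd
    obtain ⟨D, hDm, f', g', hfD, hgD, hc⟩ : ∃ D : L[X], D.Monic ∧ ∃ f' g' : L[X],
        f = D * f' ∧ g = D * g' ∧ IsCoprime f' g' := by
      have hne : gcd f g ≠ 0 := fun h0 => hg ((gcd_eq_zero_iff f g).1 h0).2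
      obtain ⟨f1, hf1⟩ := gcd_dvd_left f g
      obtain ⟨g1, hg1⟩ := gcd_dvd_right f g
      refine ⟨gcd f g, ?_, f1, g1, hf1, hg1, ?_⟩
      · have h1 := normalize_gcd f g
        rw [← h1]
        exact monic_normalize hne
      · rw [← gcd_isUnit_iff]
        have h2 : gcd f g * gcd f1 g1 = gcd f g * 1 := by
          have h3 := gcd_mul_left (gcd f g) f1 g1
          rw [← hf1, ← hg1, normalize_gcd] at h3
          rw [mul_one]
          exact h3.symm
        rw [mul_left_cancel₀ hne h2]
        exact isUnit_one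
    have hD0 : D ≠ 0 := hDm.ne_zero
    have hg' : g' ≠ 0 := by
      rintro rfl
      rw [mul_zero] at hgD
      exact hg hgD
    have hf'm : f'.Monic := by
      rw [hfD] at hf
      exact hDm.of_mul_monic_left hf
    have hlt : g'.natDegree < f'.natDegree := by
      rw [hfD, hgD, natDegree_mul hD0 hg', natDegree_mul hD0 hf'm.ne_zero] at hfg
      omega
    obtain ⟨hNm, hNi⟩ := pen_irreducible hf'm hlt hg' hc
    set N : (RatFunc L)[X] := f'.map RatFunc.C + C RatFunc.X * g'.map RatFunc.C with hN
    have hprod : f.map RatFunc.C + C RatFunc.X * g.map RatFunc.C =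
        D.map (RatFunc.C : L →+* RatFunc L) * N := by
      rw [hfD, hgD, Polynomial.map_mul, Polynomial.map_mul, hN]
      ring
    have hNnot : N ∉ (fun q : L[X] => q.map (RatFunc.C : L →+* RatFunc L)) ''
        {π : L[X] | π.Monic ∧ Irreducible π ∧ π ∣ f ∧ π ∣ g} := by
      rintro ⟨q, -, hq⟩
      have hq' : q.map (RatFunc.C : L →+* RatFunc L) = N := hq
      obtain ⟨i, hi⟩ : ∃ i, g'.coeff i ≠ 0 := by
        by_contra hcon
        push Not at hcon
        exact hg' (Polynomial.ext fun i => by rw [hcon i, coeff_zero])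
      have h1 := congrArg (fun p => p.coeff i) hq'
      simp only [hN, coeff_add, coeff_C_mul, coeff_map] at h1
      have h2 : (RatFunc.C (g'.coeff i) : RatFunc L) ≠ 0 := by
        rw [Ne, map_eq_zero]
        exact hi
      apply ratX_ne (L := L) ((q.coeff i - f'.coeff i) / g'.coeff i)
      rw [map_div₀, map_sub, eq_div_iff h2, h1]
      ring
    have hset : {π : (RatFunc L)[X] | π.Monic ∧ Irreducible π ∧
        π ∣ f.map RatFunc.C + C RatFunc.X * g.map RatFunc.C} =
        insert N ((fun q : L[X] => q.map (RatFunc.C : L →+* RatFunc L)) ''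
          {π : L[X] | π.Monic ∧ Irreducible π ∧ π ∣ f ∧ π ∣ g}) := by
      ext π
      constructor
      · rintro ⟨h1, h2, h3⟩
        rw [hprod] at h3
        rcases h2.prime.dvd_or_dvd h3 with h4 | h4
        · right
          obtain ⟨q, hq1, hq2, hq3, hq4⟩ := factor_down hD0 h1 h2 h4
          exact ⟨q, ⟨hq1, hq2, hq3.trans ⟨f', hfD⟩, hq3.trans ⟨g', hgD⟩⟩, hq4⟩
        · left
          exact monic_eq h1 hNm h2 hNi h4
      · rintro (rfl | ⟨q, hq, rfl⟩)
        · refine ⟨hNm, hNi, ?_⟩
          rw [hprod]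
          exact dvd_mul_left _ _
        · exact himg q hq
    have hfin : {π : L[X] | π.Monic ∧ Irreducible π ∧ π ∣ f ∧ π ∣ g}.Finite := by
      refine ((UniqueFactorizationMonoid.normalizedFactors f).toFinset.finite_toSet).subset ?_
      rintro q ⟨h1, h2, h3, -⟩
      rw [Finset.mem_coe, Multiset.mem_toFinset,
        UniqueFactorizationMonoid.mem_normalizedFactors_iff' hf.ne_zero]
      exact ⟨h2, h1.normalize_eq_self, h3⟩
    rw [hset, Set.ncard_insert_of_notMem hNnot (hfin.image _), Set.ncard_image_of_injective _ hinj]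

private theorem top_bc {R K : Type} [CommRing R] [CommRing K] (φ : R →+* K) (δ : ℕ)
    (F : R[X][X]) : top δ (bc φ F) = (top δ F).map φ := by
  ext j
  rw [coeff_map, coeff_top, coeff_top]
  by_cases hj : j ≤ δ
  · rw [if_pos hj, if_pos hj, bc, coeff_map, coe_mapRingHom, coeff_map]
  · rw [if_neg hj, if_neg hj, map_zero]

/-- a prime of `R[X]` with zero intersection with `R` which contains a monic polynomial comes from
a monic irreducible polynomial over the fraction field -/
private theorem prime_gen {R : Type} [CommRing R] [IsDomain R] (K : Type) [Field K] [Algebra R K]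
    [IsFractionRing R K] (P : Ideal R[X]) (hP : P.IsPrime)
    (hdom : ∀ r : R, algebraMap R R[X] r ∈ P → r = 0) {f : R[X]} (hf : f.Monic) (hfP : f ∈ P) :
    ∃ π : K[X], π.Monic ∧ Irreducible π ∧ ∀ a : R[X], π ∣ a.map (algebraMap R K) ↔ a ∈ P := by
  let _ : Algebra R[X] K[X] := (mapRingHom (algebraMap R K)).toAlgebra
  have hloc : IsLocalization ((nonZeroDivisors R).map (C : R →+* R[X])) K[X] :=
    Polynomial.isLocalization (nonZeroDivisors R) K
  have hdis : Disjoint (((nonZeroDivisors R).map (C : R →+* R[X]) : Submonoid R[X]) : Set R[X])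
      (P : Set R[X]) := by
    rw [Set.disjoint_left]
    rintro _ ⟨r, hr, rfl⟩ hrP
    have h1 : r = 0 := hdom r hrP
    exact nonZeroDivisors.ne_zero hr h1
  have hJp : (P.map (algebraMap R[X] K[X])).IsPrime :=
    IsLocalization.isPrime_of_isPrime_disjoint ((nonZeroDivisors R).map (C : R →+* R[X])) K[X] P hP
      hdis
  have hJc : (P.map (algebraMap R[X] K[X])).comap (algebraMap R[X] K[X]) = P :=
    IsLocalization.under_map_of_isPrime_disjoint ((nonZeroDivisors R).map (C : R →+* R[X])) K[X]
      hP hdis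
  obtain ⟨π₀, hπ₀⟩ := (IsPrincipalIdealRing.principal (P.map (algebraMap R[X] K[X]))).principal
  have hπ₀' : P.map (algebraMap R[X] K[X]) = Ideal.span {π₀} := hπ₀
  have hfJ : f.map (algebraMap R K) ∈ P.map (algebraMap R[X] K[X]) :=
    Ideal.mem_map_of_mem (algebraMap R[X] K[X]) hfP
  have hne : π₀ ≠ 0 := by
    rintro rfl
    rw [hπ₀', Ideal.mem_span_singleton, zero_dvd_iff] at hfJ
    exact (hf.map (algebraMap R K)).ne_zero hfJ
  have hpr : Prime π₀ := by
    rw [← Ideal.span_singleton_prime hne, ← hπ₀']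
    exact hJp
  obtain ⟨π, hπ1, hπ2, hπ3⟩ := exists_monic hpr.irreducible
  refine ⟨π, hπ1, hπ2, fun a => ?_⟩
  rw [← hπ3.dvd_iff_dvd_left, ← Ideal.mem_span_singleton, ← hπ₀']
  constructor
  · intro h1
    rw [← hJc]
    exact h1
  · intro h1
    exact Ideal.mem_map_of_mem (algebraMap R[X] K[X]) h1

/-- proof: `card_factors`; the monic common prime factors of `top δ F` and `top δ G` over the
fraction field `K` are the extensions of the minimal primes over the ideal of the two -/
theorem inf_points {R : Type} [CommRing R] [IsDomain R] {δ : ℕ} {F G : R[X][X]}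
    (h : PlanePencil δ F G) {n₀ e : ℕ} {V : Fin n₀ → Ideal R[X]}
    (hV : CompsG R (Ideal.span {top δ F, top δ G}) e V) (K : Type) [Field K] [Algebra R K]
    [IsFractionRing R K] :
    infPoints δ (bc (algebraMap R K) F) (bc (algebraMap R K) G) =
      n₀ + (open Classical in if top δ G = 0 then 0 else 1) := by
  classical
  obtain ⟨hm, hd, hlt⟩ := top_monic h
  have hinj : Function.Injective (algebraMap R K) := IsFractionRing.injective R K
  have h1 : infPoints δ (bc (algebraMap R K) F) (bc (algebraMap R K) G) =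
      Set.ncard {π : K[X] | π.Monic ∧ Irreducible π ∧ π ∣ (top δ F).map (algebraMap R K) ∧
        π ∣ (top δ G).map (algebraMap R K)} +
      (if (top δ G).map (algebraMap R K) = 0 then 0 else 1) := by
    unfold infPoints factors
    rw [top_pen, top_bc, top_bc]
    convert card_factors (hm.map (algebraMap R K)) ?_
    rw [hm.natDegree_map, hd]
    exact lt_of_le_of_lt natDegree_map_le hlt
  have h2 : (top δ G).map (algebraMap R K) = 0 ↔ top δ G = 0 :=
    Polynomial.map_eq_zero_iff hinj
  rw [h1]
  simp only [h2]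
  congr 1
  -- the bijection
  have hF : ∀ i, top δ F ∈ V i := fun i => hV.le i (Ideal.subset_span (by simp))
  have hG : ∀ i, top δ G ∈ V i := fun i => hV.le i (Ideal.subset_span (by simp))
  choose π hπm hπi hπV using fun i => prime_gen K (V i) (hV.prime i) (hV.dom i) hm (hF i)
  have hrange : {π : K[X] | π.Monic ∧ Irreducible π ∧ π ∣ (top δ F).map (algebraMap R K) ∧
      π ∣ (top δ G).map (algebraMap R K)} = Set.range π := by
    ext ρ
    constructor
    · rintro ⟨hρm, hρi, hρF, hρG⟩
      have hρp : (Ideal.span {ρ}).IsPrime := (Ideal.span_singleton_prime hρi.ne_zero).2 hρi.prime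
      have hPp : ((Ideal.span {ρ}).comap (mapRingHom (algebraMap R K))).IsPrime :=
        Ideal.comap_isPrime _ _
      have hle : Ideal.span {top δ F, top δ G} ≤
          (Ideal.span {ρ}).comap (mapRingHom (algebraMap R K)) := by
        rw [Ideal.span_le]
        rintro a (rfl | rfl)
        · exact Ideal.mem_span_singleton.2 hρF
        · exact Ideal.mem_span_singleton.2 hρG
      obtain ⟨k, hk⟩ := hV.pow
      obtain ⟨i, -, hi⟩ := (Ideal.IsPrime.prod_le hPp).1
        (Ideal.IsPrime.le_of_pow_le (hk.trans hle))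
      refine ⟨i, ?_⟩
      -- `ρ` divides `π i`
      obtain ⟨b, hb, hb'⟩ := IsLocalization.integerNormalization_spec (nonZeroDivisors R) (π i)
      set W := IsLocalization.integerNormalization (nonZeroDivisors R) (π i)
      have hW : W.map (algebraMap R K) = C (algebraMap R K b) * π i := by
        rw [hb', ← smul_eq_C_mul, algebraMap_smul]
      have hb0 : algebraMap R K b ≠ 0 := by
        intro h0
        exact nonZeroDivisors.ne_zero hb (hinj (h0.trans (map_zero _).symm))
      have hWV : W ∈ V i := by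
        rw [← hπV i, hW]
        exact dvd_mul_left _ _
      have h3 : ρ ∣ W.map (algebraMap R K) := Ideal.mem_span_singleton.1 (hi hWV)
      rw [hW] at h3
      have h4 : ρ ∣ π i :=
        ((isUnit_C.2 (isUnit_iff_ne_zero.2 hb0)).dvd_mul_left).1 h3
      exact (monic_eq hρm (hπm i) hρi (hπi i) h4).symm
    · rintro ⟨i, rfl⟩
      exact ⟨hπm i, hπi i, (hπV i _).2 (hF i), (hπV i _).2 (hG i)⟩
  have hpi : Function.Injective π := by
    intro i j hij
    apply hV.inc
    intro a ha
    rw [← hπV j, ← hij]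
    exact (hπV i a).2 ha
  rw [hrange, ← Nat.card_coe_set_eq, Nat.card_range_of_injective hpi, Nat.card_eq_fintype_card,
    Fintype.card_fin]

end Pool.Agent.Lib.MP_1a0ddd_nt.V
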