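import Pool.Agent.Lib.MP_1a0ddd_nt.V.Cnt
import Pool.Agent.Lib.MP_1a0ddd_nt.V.Inf

/-! The average of `1 - #(points at infinity)` over the members outside `B = 0`. -/

set_option autoImplicit false

namespace Pool.Agent.Lib.MP_1a0ddd_nt.V

open Polynomial Filter Topology Pool.Agent.Lib.MP_1a0ddd_nt.W

private theorem tau_small {q : ℕ → ℝ} (hq : Quad.TauMean q 1) (hq0 : ∀ p, 0 ≤ q p) (K : ℝ)
    (hK : 0 ≤ K) : Quad.TauMean (fun p => K / (p : ℝ) * q p) 0 := by
  refine Quad.TauMean.squeeze hq fun ε hε => ?_
  obtain ⟨p₀, hp₀⟩ := exists_nat_gt (K / ε)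
  refine ⟨p₀, fun p hp hpp => ?_⟩
  have h0 : (0 : ℝ) < p := by exact_mod_cast hpp.pos
  rw [abs_of_nonneg (mul_nonneg (div_nonneg hK h0.le) (hq0 p))]
  refine mul_le_mul_of_nonneg_right ?_ (hq0 p)
  rw [div_le_iff₀ h0]
  have h1 : (p₀ : ℝ) ≤ p := by exact_mod_cast hp
  rw [div_lt_iff₀ hε] at hp₀
  nlinarith

private theorem card_root_le {K : Type} [Field K] [Fintype K] {P : K[X]} (hP : P ≠ 0) :
    Nat.card {y : K // P.eval y = 0} ≤ P.natDegree := by
  classical
  rw [Nat.card_eq_fintype_card, Fintype.card_subtype]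
  have h1 : (Finset.univ.filter fun y : K => P.eval y = 0) ⊆ P.roots.toFinset := by
    intro y hy
    rw [Multiset.mem_toFinset, mem_roots hP]
    exact (Finset.mem_filter.1 hy).2
  exact (Finset.card_le_card h1).trans ((Multiset.toFinset_card_le _).trans (card_roots' P))

private theorem lin_count {p : ℕ} [Fact p.Prime] (a b : ZMod p) :
    (Finset.univ.filter fun t : ZMod p => a + t * b = 0).card =
      (if b = 0 then 0 else 1) + p * (if a = 0 ∧ b = 0 then 1 else 0) := by
  classical
  by_cases hb : b = 0
  · subst hb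
    by_cases ha : a = 0
    · subst ha
      simp [ZMod.card]
    · simp [ha]
  · rw [if_neg hb, if_neg (fun h => hb h.2), mul_zero, add_zero, Finset.card_eq_one]
    refine ⟨-a / b, ?_⟩
    ext t
    rw [Finset.mem_filter, Finset.mem_singleton]
    constructor
    · rintro ⟨-, h⟩
      rw [eq_div_iff hb]
      linear_combination h
    · rintro rfl
      refine ⟨Finset.mem_univ _, ?_⟩
      rw [div_mul_cancel₀ _ hb]
      ring

private theorem line_sum {p : ℕ} [Fact p.Prime] (f g : ZMod p → ZMod p) :
    ∑ t : ZMod p, ((1 : ℝ) - (Nat.card {y : ZMod p // f y + t * g y = 0} : ℝ)) =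
      (Nat.card {y : ZMod p // g y = 0} : ℝ) -
        p * (Nat.card {y : ZMod p // f y = 0 ∧ g y = 0} : ℝ) := by
  classical
  have h1 : ∑ t : ZMod p, Nat.card {y : ZMod p // f y + t * g y = 0} =
      ∑ y : ZMod p, ((if g y = 0 then 0 else 1) + p * (if f y = 0 ∧ g y = 0 then 1 else 0)) := by
    calc ∑ t : ZMod p, Nat.card {y : ZMod p // f y + t * g y = 0}
        = ∑ t : ZMod p, ∑ y : ZMod p, (if f y + t * g y = 0 then 1 else 0) := by
          refine Finset.sum_congr rfl fun t _ => ?_
          rw [Nat.card_eq_fintype_card, Fintype.card_subtype, Finset.card_filter]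
      _ = ∑ y : ZMod p, ∑ t : ZMod p, (if f y + t * g y = 0 then 1 else 0) :=
          Finset.sum_comm
      _ = _ := by
          refine Finset.sum_congr rfl fun y _ => ?_
          rw [← Finset.card_filter]
          exact lin_count (f y) (g y)
  have h2 : (∑ y : ZMod p, (if g y = 0 then 0 else 1)) +
      Nat.card {y : ZMod p // g y = 0} = p := by
    rw [Nat.card_eq_fintype_card, Fintype.card_subtype, Finset.card_filter,
      ← Finset.sum_add_distrib]
    calc _ = ∑ y : ZMod p, 1 := by
          refine Finset.sum_congr rfl fun y _ => ?_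
          by_cases h : g y = 0 <;> simp [h]
      _ = p := by simp [ZMod.card]
  have h3 : (∑ y : ZMod p, p * (if f y = 0 ∧ g y = 0 then 1 else 0)) =
      p * Nat.card {y : ZMod p // f y = 0 ∧ g y = 0} := by
    rw [Nat.card_eq_fintype_card, Fintype.card_subtype, Finset.card_filter, Finset.mul_sum]
  rw [Finset.sum_add_distrib, h3] at h1
  have h4 : (∑ t : ZMod p, (Nat.card {y : ZMod p // f y + t * g y = 0} : ℝ)) =
      ((∑ y : ZMod p, (if g y = 0 then 0 else 1) : ℕ) : ℝ) +
        p * (Nat.card {y : ZMod p // f y = 0 ∧ g y = 0} : ℝ) := by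
    have := congrArg (Nat.cast : ℕ → ℝ) h1
    push_cast at this ⊢
    exact this
  have h5 : ((∑ y : ZMod p, (if g y = 0 then 0 else 1) : ℕ) : ℝ) =
      (p : ℝ) - (Nat.card {y : ZMod p // g y = 0} : ℝ) := by
    have := congrArg (Nat.cast : ℕ → ℝ) h2
    push_cast at this ⊢
    linarith
  rw [Finset.sum_sub_distrib, h4, h5]
  simp only [Finset.sum_const, Finset.card_univ, ZMod.card, nsmul_eq_mul]
  ring

/-- the number of homomorphisms, divided by `p^d` -/
private noncomputable def qq (R : Type) [CommRing R] (d p : ℕ) : ℝ :=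
  (Nat.card (R →+* ZMod p) : ℝ) / (p : ℝ) ^ d

private theorem qq_nonneg (R : Type) [CommRing R] (d p : ℕ) : 0 ≤ qq R d p := by
  unfold qq
  positivity

private theorem qq_mean {R : Type} [CommRing R] [Nontrivial R] {d : ℕ} (h : Quad.LangWeilT R d) :
    Quad.TauMean (qq R d) 1 := by
  refine (h 1 one_ne_zero).congr' 0 fun p _ hp => ?_
  have : Fact p.Prime := ⟨hp⟩
  unfold qq
  congr 2
  refine Nat.card_congr (Equiv.subtypeUnivEquiv fun z => ?_).symm
  rw [map_one]
  exact one_ne_zero

/-- proof: `top δ F` is monic of degree `δ` and `top δ G` has smaller degree. For fixed `z` the sum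
over all `t` of `#{y : f + t g = 0}` is `#{y : g(y) ≠ 0} + p #{y : f = g = 0}`; the mean of the
second part is `n₀` (`comps_countG`, `hom1_count`). The first part is `0` if `top δ G = 0`, and
otherwise it is `p + O(1)` for all `z` which do not kill the leading coefficient of `top δ G`;
there are `p^d (1 + o(1))` such `z` in the mean (`h.base`), and `o(p^d)` others. The at most
`deg B` values of `t` with `B(t) = 0` contribute `O(p^d)` in all, because `f + t g` is monic of
degree `δ`. -/
theorem inf_mean {R : Type} [CommRing R] [IsDomain R] [Algebra.FiniteType ℤ R] {δ : ℕ}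
    {F G : R[X][X]} {B : R[X]} {d m N s w n₀ : ℕ} (h : Data R δ F G B d m N s w n₀) :
    Quad.TauMean (fun p => (∑ᶠ z : R →+* ZMod p, ∑ᶠ t : {t : ZMod p // (B.map z).eval t ≠ 0},
      ((1 : ℝ) - Nat.card {y : ZMod p //
        ((top δ F).map z).eval y + t.1 * ((top δ G).map z).eval y = 0})) / (p : ℝ) ^ (d + 1))
      ((1 : ℝ) - n₀ - (open Classical in if top δ G = 0 then 0 else 1)) := by
  classical
  obtain ⟨hfm, hfd, hgd⟩ := top_monic h.pencil
  obtain ⟨V, hV⟩ := h.compI
  set f := top δ F with hf
  set g := top δ G with hg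
  have hq := qq_mean h.base
  -- the homomorphisms from `R[X]`
  have hft : @Algebra.FiniteType ℤ R[X] _ _ (Ring.toIntAlgebra R[X]) := by
    have h1 : Algebra.FiniteType ℤ R[X] :=
      Algebra.FiniteType.trans (S := R) inferInstance inferInstance
    have h2 : ∀ a : Algebra ℤ R[X], @Algebra.FiniteType ℤ R[X] _ _ a →
        @Algebra.FiniteType ℤ R[X] _ _ (Ring.toIntAlgebra R[X]) := by
      intro a ha
      have e : a = Ring.toIntAlgebra R[X] := Subsingleton.elim _ _
      rw [← e]
      exact ha
    exact h2 _ h1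
  have hn : Quad.TauMean (fun p => (∑ᶠ z : R →+* ZMod p,
      (Nat.card {y : ZMod p // (f.map z).eval y = 0 ∧ (g.map z).eval y = 0} : ℝ)) / (p : ℝ) ^ d)
      (n₀ : ℝ) := by
    refine (comps_countG R hV).congr' 0 fun p _ hp => ?_
    have : Fact p.Prime := ⟨hp⟩
    have hfin := finite_hom R p hp
    have := Fintype.ofFinite (R →+* ZMod p)
    rw [hom1_count p hp, finsum_eq_sum_of_fintype]
    push_cast
    congr 1
    refine Finset.sum_congr rfl fun z _ => ?_
    congr 1
    refine Nat.card_congr (Equiv.subtypeEquivRight fun y => ?_)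
    constructor
    · rintro ⟨h1, h2⟩ u hu
      have h3 : Ideal.span {f, g} ≤ RingHom.ker (eval₂RingHom z y) := by
        rw [Ideal.span_le]
        rintro x (rfl | rfl)
        · change eval₂ z y _ = 0
          rw [← eval_map]
          exact h1
        · change eval₂ z y _ = 0
          rw [← eval_map]
          exact h2
      rw [eval_map]
      exact h3 hu
    · intro h1
      exact ⟨h1 f (Ideal.subset_span (Or.inl rfl)), h1 g (Ideal.subset_span (Or.inr rfl))⟩
  -- the zeros of `g`
  have hg1 : Quad.TauMean (fun p => (∑ᶠ z : R →+* ZMod p,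
      (Nat.card {y : ZMod p // (g.map z).eval y = 0} : ℝ)) / (p : ℝ) ^ (d + 1))
      ((1 : ℝ) - (if g = 0 then 0 else 1)) := by
    by_cases hg0 : g = 0
    · rw [if_pos hg0, sub_zero]
      refine hq.congr' 0 fun p _ hp => ?_
      have : Fact p.Prime := ⟨hp⟩
      have hfin := finite_hom R p hp
      have := Fintype.ofFinite (R →+* ZMod p)
      have hp0 : (p : ℝ) ≠ 0 := by exact_mod_cast hp.ne_zero
      rw [finsum_eq_sum_of_fintype]
      have h1 : ∀ z : R →+* ZMod p, Nat.card {y : ZMod p // (g.map z).eval y = 0} = p := by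
        intro z
        rw [Nat.card_congr (Equiv.subtypeUnivEquiv (fun y => by rw [hg0]; simp)),
          Nat.card_eq_fintype_card, ZMod.card]
      unfold qq
      simp only [h1, Finset.sum_const, Finset.card_univ, nsmul_eq_mul]
      rw [Nat.card_eq_fintype_card, pow_succ]
      field_simp
    · rw [if_neg hg0, sub_self]
      have hl : g.leadingCoeff ≠ 0 := leadingCoeff_ne_zero.2 hg0
      have h1 := ((tau_small hq (qq_nonneg R d) (δ : ℝ) (by positivity)).add
        (hq.sub (h.base g.leadingCoeff hl)))
      rw [sub_self, add_zero] at h1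
      refine Quad.TauMean.of_abs_le h1 1 0 fun p _ hp => ?_
      have : Fact p.Prime := ⟨hp⟩
      have hfin := finite_hom R p hp
      have := Fintype.ofFinite (R →+* ZMod p)
      have hp0 : (0 : ℝ) < p := by exact_mod_cast hp.pos
      rw [finsum_eq_sum_of_fintype, abs_of_nonneg (by positivity), one_mul]
      have h2 : ∀ z : R →+* ZMod p, (Nat.card {y : ZMod p // (g.map z).eval y = 0} : ℝ) ≤
          δ + p * (1 - if z g.leadingCoeff ≠ 0 then 1 else 0) := by
        intro z
        by_cases hz : z g.leadingCoeff ≠ 0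
        · rw [if_pos hz, sub_self, mul_zero, add_zero]
          have h3 : g.map z ≠ 0 := by
            intro h4
            apply hz
            have := congrArg (fun q => coeff q g.natDegree) h4
            simpa [coeff_map] using this
          have h4 := (card_root_le h3).trans natDegree_map_le
          exact_mod_cast h4.trans hgd.le
        · rw [if_neg hz, sub_zero, mul_one]
          have h4 : Nat.card {y : ZMod p // (g.map z).eval y = 0} ≤ Nat.card (ZMod p) :=
            Nat.card_le_card_of_injective _ Subtype.val_injective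
          rw [Nat.card_eq_fintype_card (α := ZMod p), ZMod.card] at h4
          have h5 : (Nat.card {y : ZMod p // (g.map z).eval y = 0} : ℝ) ≤ p := by exact_mod_cast h4
          have h6 : (0 : ℝ) ≤ δ := by positivity
          linarith
      have h3 : (∑ z : R →+* ZMod p, (Nat.card {y : ZMod p // (g.map z).eval y = 0} : ℝ)) ≤
          δ * Nat.card (R →+* ZMod p) + p * (Nat.card (R →+* ZMod p) -
            Nat.card {z : R →+* ZMod p // z g.leadingCoeff ≠ 0}) := by
        refine (Finset.sum_le_sum fun z _ => h2 z).trans (le_of_eq ?_)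
        rw [Finset.sum_add_distrib, ← Finset.mul_sum, Finset.sum_sub_distrib]
        rw [Nat.card_eq_fintype_card, Nat.card_eq_fintype_card, Fintype.card_subtype,
          Finset.card_filter]
        simp only [Finset.sum_const, Finset.card_univ, nsmul_eq_mul]
        push_cast
        ring
      calc _ ≤ (δ * Nat.card (R →+* ZMod p) + p * (Nat.card (R →+* ZMod p) -
            Nat.card {z : R →+* ZMod p // z g.leadingCoeff ≠ 0})) / (p : ℝ) ^ (d + 1) :=
            div_le_div_of_nonneg_right h3 (by positivity)
        _ = _ := by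
            unfold qq
            rw [pow_succ]
            field_simp
  -- the zeros of `B`
  have hE : Quad.TauMean (fun p => (∑ᶠ z : R →+* ZMod p, ∑ᶠ t : {t : ZMod p // (B.map z).eval t = 0},
      ((1 : ℝ) - Nat.card {y : ZMod p //
        (f.map z).eval y + t.1 * (g.map z).eval y = 0})) / (p : ℝ) ^ (d + 1)) 0 := by
    have h1 := tau_small hq (qq_nonneg R d) ((B.natDegree : ℝ) * (1 + δ)) (by positivity)
    refine Quad.TauMean.of_abs_le h1 1 0 fun p _ hp => ?_
    have : Fact p.Prime := ⟨hp⟩
    have hfin := finite_hom R p hp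
    have := Fintype.ofFinite (R →+* ZMod p)
    have hp0 : (0 : ℝ) < p := by exact_mod_cast hp.pos
    rw [one_mul, finsum_eq_sum_of_fintype, abs_div, abs_of_pos (by positivity : (0 : ℝ) < (p : ℝ) ^ (d + 1))]
    have h2 : ∀ z : R →+* ZMod p, |∑ᶠ t : {t : ZMod p // (B.map z).eval t = 0},
      ((1 : ℝ) - Nat.card {y : ZMod p // (f.map z).eval y + t.1 * (g.map z).eval y = 0})| ≤
        (B.natDegree : ℝ) * (1 + δ) := by
      intro z
      rw [finsum_eq_sum_of_fintype]
      refine (Finset.abs_sum_le_sum_abs _ _).trans ?_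
      have h3 : ∀ t : {t : ZMod p // (B.map z).eval t = 0}, |((1 : ℝ) -
          Nat.card {y : ZMod p // (f.map z).eval y + t.1 * (g.map z).eval y = 0})| ≤ 1 + δ := by
        intro t
        have hm : (f.map z + C t.1 * g.map z).Monic := by
          refine (hfm.map z).add_of_left ?_
          have e1 : (f.map z).degree = (δ : WithBot ℕ) := by
            rw [hfm.degree_map, degree_eq_natDegree hfm.ne_zero, hfd]
          rw [e1]
          have e2 : (C t.1 * g.map z).degree ≤ (g.map z).degree := by
            rw [← smul_eq_C_mul]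
            exact degree_smul_le _ _
          refine e2.trans_lt (degree_map_le.trans_lt ?_)
          by_cases hg0 : g = 0
          · rw [hg0, degree_zero]
            exact WithBot.bot_lt_coe δ
          · rw [degree_eq_natDegree hg0]
            exact_mod_cast hgd
        have hnd : (f.map z + C t.1 * g.map z).natDegree ≤ δ := by
          refine (natDegree_add_le _ _).trans (max_le ?_ ?_)
          · exact natDegree_map_le.trans hfd.le
          · exact (natDegree_C_mul_le _ _).trans (natDegree_map_le.trans hgd.le)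
        have h4 := (card_root_le hm.ne_zero).trans hnd
        have h5 : ∀ y : ZMod p, (f.map z + C t.1 * g.map z).eval y =
            (f.map z).eval y + t.1 * (g.map z).eval y := by
          intro y
          simp
        simp only [h5] at h4
        have h6 : (Nat.card {y : ZMod p // (f.map z).eval y + t.1 * (g.map z).eval y = 0} : ℝ) ≤ δ := by
          exact_mod_cast h4
        have h7 : (0 : ℝ) ≤ Nat.card {y : ZMod p // (f.map z).eval y + t.1 * (g.map z).eval y = 0} := by
          positivity
        rw [abs_le]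
        constructor
        · linarith
        · have h8 : (0 : ℝ) ≤ δ := by positivity
          linarith
      refine (Finset.sum_le_sum fun t _ => h3 t).trans ?_
      rw [Finset.sum_const, Finset.card_univ, nsmul_eq_mul]
      refine mul_le_mul_of_nonneg_right ?_ (by positivity)
      have h4 := (card_root_le (h.monic.map z).ne_zero).trans natDegree_map_le
      rw [Nat.card_eq_fintype_card] at h4
      exact_mod_cast h4
    calc _ ≤ (∑ z : R →+* ZMod p, (B.natDegree : ℝ) * (1 + δ)) / (p : ℝ) ^ (d + 1) := by
          refine div_le_div_of_nonneg_right ?_ (by positivity)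
          exact (Finset.abs_sum_le_sum_abs _ _).trans (Finset.sum_le_sum fun z _ => h2 z)
      _ = _ := by
          unfold qq
          rw [Finset.sum_const, Finset.card_univ, nsmul_eq_mul, Nat.card_eq_fintype_card, pow_succ]
          field_simp
  have hfinal := (hg1.sub hn).sub hE
  have e0 : (1 : ℝ) - (if g = 0 then 0 else 1) - n₀ - 0 = (1 : ℝ) - n₀ - (if g = 0 then 0 else 1) := by
    ring
  rw [e0] at hfinal
  refine hfinal.congr' 0 fun p _ hp => ?_
  have : Fact p.Prime := ⟨hp⟩
  have hfin := finite_hom R p hp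
  have := Fintype.ofFinite (R →+* ZMod p)
  have hp0 : (p : ℝ) ≠ 0 := by exact_mod_cast hp.ne_zero
  rw [finsum_eq_sum_of_fintype, finsum_eq_sum_of_fintype, finsum_eq_sum_of_fintype,
    finsum_eq_sum_of_fintype]
  have h1 : ∀ z : R →+* ZMod p, (∑ᶠ t : {t : ZMod p // (B.map z).eval t ≠ 0},
      ((1 : ℝ) - Nat.card {y : ZMod p // (f.map z).eval y + t.1 * (g.map z).eval y = 0})) =
      (Nat.card {y : ZMod p // (g.map z).eval y = 0} : ℝ) -
        p * (Nat.card {y : ZMod p // (f.map z).eval y = 0 ∧ (g.map z).eval y = 0} : ℝ) -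
      ∑ᶠ t : {t : ZMod p // (B.map z).eval t = 0},
      ((1 : ℝ) - Nat.card {y : ZMod p // (f.map z).eval y + t.1 * (g.map z).eval y = 0}) := by
    intro z
    rw [← line_sum, finsum_eq_sum_of_fintype, finsum_eq_sum_of_fintype]
    have h2 := Finset.sum_filter_add_sum_filter_not (Finset.univ : Finset (ZMod p))
      (fun t => (B.map z).eval t ≠ 0)
      (fun t => (1 : ℝ) - Nat.card {y : ZMod p // (f.map z).eval y + t * (g.map z).eval y = 0})
    rw [← h2]
    have h3 : ∀ (Q : ZMod p → Prop) [DecidablePred Q] (φ : ZMod p → ℝ),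
        ∑ t : {t : ZMod p // Q t}, φ t.1 = ∑ t ∈ Finset.univ.filter Q, φ t := by
      intro Q _ φ
      exact (Finset.sum_subtype (Finset.univ.filter Q) (fun t => by simp) φ).symm
    rw [h3 (fun t => (B.map z).eval t ≠ 0)
      (fun t => (1 : ℝ) - Nat.card {y : ZMod p // (f.map z).eval y + t * (g.map z).eval y = 0}),
      h3 (fun t => (B.map z).eval t = 0)
      (fun t => (1 : ℝ) - Nat.card {y : ZMod p // (f.map z).eval y + t * (g.map z).eval y = 0})]
    simp only [not_not, add_sub_cancel_right, ne_eq]
  rw [Finset.sum_congr rfl fun z _ => h1 z, Finset.sum_sub_distrib, Finset.sum_sub_distrib,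
    ← Finset.mul_sum, pow_succ]
  field_simp

end Pool.Agent.Lib.MP_1a0ddd_nt.V
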