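import Pool.Agent.Lib.MP_1a0ddd_nt.V.Unt
import Pool.Agent.Lib.MP_1a0ddd_nt.W.Pic

/-! The rank of the Picard group in the presence of reducible members and units.

Same symbols as in `W/Pic.lean`, `E` the fraction field of `A`. For `k ∈ ℤ^κ` let
`θ(k) = ∏ g_j^(k_j) ∈ E^*`, and let `Ψ(k) ∈ ℤ^S` be its divisor (`S` is the set of the primes of
`A` which contain `G`; all `g_j` are units outside `S`, because `fib F G q = G^n q(t)` in `A`).
`Φ : ℤ^S → Cl(A)` is surjective (`gen`), `range Ψ = ker Φ` (`unit_thm3`, as in `W/Pic.lean`). So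
`rank Pic(A) = card S - card κ + rank ker Ψ`. The map `ker Ψ → A^*/L(t)^*`, `k ↦ θ(k)`, is
surjective (`unit_thm3` with `N = 0`), and its kernel `Λ = {k : θ(k) ∈ L(t)^*}` has rank `card σ`:
for `n ∈ ℤ^σ` let `χ(n)_j` be the exponent of `g_j` in `∏ fib(q_i)^(n_i) G^(-n_i deg q_i)`. By
`const_rel` one has `Λ = range χ`, and `χ` is injective because the `fib(q_i)` are nonunits,
relatively prime to each other and to `G` (`fib_relPrime`). -/

set_option autoImplicit false

namespace Pool.Agent.Lib.MP_1a0ddd_nt.V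

open Polynomial nonZeroDivisors Pool.Agent.Lib.MP_1a0ddd_nt.W

section cls

variable {A : Type} [CommRing A] [IsDedekindDomain A]

/-- the class of an ideal, `0` for the zero ideal -/
private noncomputable def cls (I : Ideal A) : Additive (ClassGroup A) := by
  classical
  exact if h : I ≠ ⊥ then Additive.ofMul (ClassGroup.mk0 ⟨I, mem_nonZeroDivisors_iff_ne_zero.2 h⟩)
    else 0

private theorem cls_of {I : Ideal A} (h : I ≠ ⊥) :
    cls I = Additive.ofMul (ClassGroup.mk0 ⟨I, mem_nonZeroDivisors_iff_ne_zero.2 h⟩) := by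
  rw [cls, dif_pos h]

private theorem cls_mul {I J : Ideal A} (hI : I ≠ ⊥) (hJ : J ≠ ⊥) :
    cls (I * J) = cls I + cls J := by
  have hIJ : I * J ≠ ⊥ := mul_ne_zero hI hJ
  rw [cls_of hI, cls_of hJ, cls_of hIJ, ← ofMul_mul, ← map_mul]
  rfl

private theorem cls_eq_zero {I : Ideal A} (hI : I ≠ ⊥) : cls I = 0 ↔ ∃ a, I = Ideal.span {a} := by
  rw [cls_of hI]
  have h1 : Additive.ofMul (ClassGroup.mk0 ⟨I, mem_nonZeroDivisors_iff_ne_zero.2 hI⟩) = 0 ↔
      ClassGroup.mk0 ⟨I, mem_nonZeroDivisors_iff_ne_zero.2 hI⟩ = 1 := Iff.rfl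
  rw [h1, ClassGroup.mk0_eq_one_iff, Submodule.isPrincipal_iff]

private theorem cls_span {a : A} : cls (Ideal.span {a}) = 0 := by
  by_cases h : Ideal.span {a} = (⊥ : Ideal A)
  · rw [cls, dif_neg (not_not.2 h)]
  · exact (cls_eq_zero h).2 ⟨a, rfl⟩

private theorem cls_top : cls (⊤ : Ideal A) = 0 := by
  rw [← Ideal.span_singleton_one]
  exact cls_span

private theorem cls_surj (c : Additive (ClassGroup A)) : ∃ I : Ideal A, I ≠ ⊥ ∧ cls I = c := by
  obtain ⟨I, hI⟩ := ClassGroup.mk0_surjective (Additive.toMul c)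
  have h : (I : Ideal A) ≠ ⊥ := mem_nonZeroDivisors_iff_ne_zero.1 I.2
  refine ⟨I, h, ?_⟩
  rw [cls_of h]
  exact hI

private theorem cls_pow {I : Ideal A} (hI : I ≠ ⊥) (n : ℕ) : cls (I ^ n) = n • cls I := by
  induction n with
  | zero => rw [pow_zero, zero_smul, Ideal.one_eq_top, cls_top]
  | succ n ih =>
    rw [pow_succ, cls_mul (pow_ne_zero n hI) hI, ih, succ_nsmul]

private theorem cls_prod {ι : Type} (s : Finset ι) (I : ι → Ideal A) (hI : ∀ i ∈ s, I i ≠ ⊥) :
    cls (∏ i ∈ s, I i) = ∑ i ∈ s, cls (I i) := by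
  classical
  induction s using Finset.induction_on with
  | empty => rw [Finset.prod_empty, Finset.sum_empty, Ideal.one_eq_top, cls_top]
  | insert i s hi ih =>
    rw [Finset.prod_insert hi, Finset.sum_insert hi,
      cls_mul (hI i (Finset.mem_insert_self i s))
        (Finset.prod_ne_zero_iff.2 fun j hj => hI j (Finset.mem_insert_of_mem hj)),
      ih fun j hj => hI j (Finset.mem_insert_of_mem hj)]

/-- if the classes of all primes containing `I` are in a subgroup then so is the class of `I` -/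
private theorem cls_mem (S : AddSubgroup (Additive (ClassGroup A))) (I : Ideal A) (hI : I ≠ ⊥)
    (h : ∀ P : Ideal A, P.IsPrime → P ≠ ⊥ → I ≤ P → cls P ∈ S) : cls I ∈ S := by
  revert hI h
  refine UniqueFactorizationMonoid.induction_on_prime
    (P := fun I : Ideal A => I ≠ ⊥ → (∀ P : Ideal A, P.IsPrime → P ≠ ⊥ → I ≤ P → cls P ∈ S) →
      cls I ∈ S) I ?_ ?_ ?_
  · intro h
    exact absurd rfl h
  · intro J hJ _ _
    rw [Ideal.isUnit_iff.1 hJ, cls_top]
    exact S.zero_mem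
  · intro J P hJ hP ih _ h
    have hP1 : P.IsPrime := Ideal.isPrime_of_prime hP
    rw [cls_mul hP.ne_zero hJ]
    refine S.add_mem (h P hP1 hP.ne_zero Ideal.mul_le_left) (ih hJ fun Q hQ hQ0 hJQ => ?_)
    exact h Q hQ hQ0 (Ideal.mul_le_right.trans hJQ)

/-- the exponent of `P` in `I` -/
private noncomputable def cnt (I P : Ideal A) : ℕ := by
  classical
  exact (UniqueFactorizationMonoid.normalizedFactors I).count P

private theorem cnt_mul {I J : Ideal A} (hI : I ≠ ⊥) (hJ : J ≠ ⊥) (P : Ideal A) :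
    cnt (I * J) P = cnt I P + cnt J P := by
  classical
  rw [cnt, cnt, cnt, UniqueFactorizationMonoid.normalizedFactors_mul hI hJ, Multiset.count_add]

private theorem cnt_top (P : Ideal A) : cnt ⊤ P = 0 := by
  classical
  rw [cnt, ← Ideal.one_eq_top, UniqueFactorizationMonoid.normalizedFactors_one,
    Multiset.count_zero]

private theorem cnt_pow {I : Ideal A} (hI : I ≠ ⊥) (n : ℕ) (P : Ideal A) :
    cnt (I ^ n) P = n * cnt I P := by
  induction n with
  | zero => rw [pow_zero, zero_mul, Ideal.one_eq_top, cnt_top]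
  | succ n ih => rw [pow_succ, cnt_mul (pow_ne_zero n hI) hI, ih, Nat.succ_mul]

private theorem cnt_prod {ι : Type} (s : Finset ι) (I : ι → Ideal A) (hI : ∀ i ∈ s, I i ≠ ⊥)
    (P : Ideal A) : cnt (∏ i ∈ s, I i) P = ∑ i ∈ s, cnt (I i) P := by
  classical
  induction s using Finset.induction_on with
  | empty => rw [Finset.prod_empty, Finset.sum_empty, Ideal.one_eq_top, cnt_top]
  | insert i s hi ih =>
    rw [Finset.prod_insert hi, Finset.sum_insert hi,
      cnt_mul (hI i (Finset.mem_insert_self i s))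
        (Finset.prod_ne_zero_iff.2 fun j hj => hI j (Finset.mem_insert_of_mem hj)),
      ih fun j hj => hI j (Finset.mem_insert_of_mem hj)]

private theorem cnt_self {P : Ideal A} (hP : P.IsPrime) (h0 : P ≠ ⊥) : cnt P P = 1 := by
  classical
  rw [cnt, UniqueFactorizationMonoid.normalizedFactors_irreducible
    ((Ideal.prime_iff_isPrime h0).2 hP).irreducible, normalize_eq, Multiset.count_singleton_self]

private theorem cnt_ne {P Q : Ideal A} (hP : P.IsPrime) (h0 : P ≠ ⊥) (h : Q ≠ P) :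
    cnt P Q = 0 := by
  classical
  rw [cnt, UniqueFactorizationMonoid.normalizedFactors_irreducible
    ((Ideal.prime_iff_isPrime h0).2 hP).irreducible, normalize_eq, Multiset.count_singleton,
    if_neg h]

private theorem cnt_pos {I P : Ideal A} (hI : I ≠ ⊥) (hP : P.IsPrime) (h : I ≤ P) :
    1 ≤ cnt I P := by
  classical
  rw [cnt, Multiset.one_le_count_iff_mem, Ideal.mem_normalizedFactors_iff hI]
  exact ⟨hP, h⟩

private theorem eq_prod {T : Ideal A → Prop} [Fintype {P // T P}] {I : Ideal A} (hI : I ≠ ⊥)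
    (h : ∀ P : Ideal A, P.IsPrime → I ≤ P → T P) :
    I = ∏ P : {P // T P}, P.1 ^ cnt I P.1 := by
  classical
  have h1 := Ideal.prod_normalizedFactors_eq_self hI
  have h2 := Finset.prod_multiset_count_of_subset
    (UniqueFactorizationMonoid.normalizedFactors I)
    (Finset.univ.map (Function.Embedding.subtype T)) (fun P hP => by
      rw [Multiset.mem_toFinset, Ideal.mem_normalizedFactors_iff hI] at hP
      exact Finset.mem_map.2 ⟨⟨P, h P hP.1 hP.2⟩, Finset.mem_univ _, rfl⟩)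
  rw [h1, Finset.prod_map] at h2
  exact h2

end cls
section ab

variable {E : Type} [Field E]

/-- the class of an element of the field, `0` for `0` -/
private noncomputable def el (x : E) : Additive Eˣ := by
  classical
  exact if h : x ≠ 0 then Additive.ofMul (Units.mk0 x h) else 0

private theorem el_of {x : E} (h : x ≠ 0) : el x = Additive.ofMul (Units.mk0 x h) := by
  rw [el, dif_pos h]

private theorem el_mul {x y : E} (hx : x ≠ 0) (hy : y ≠ 0) : el (x * y) = el x + el y := by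
  rw [el_of hx, el_of hy, el_of (mul_ne_zero hx hy), ← ofMul_mul, Units.mk0_mul]

private theorem el_inj {x y : E} (hx : x ≠ 0) (hy : y ≠ 0) (h : el x = el y) : x = y := by
  rw [el_of hx, el_of hy] at h
  exact congrArg Units.val (Additive.ofMul.injective h)

private theorem el_one : el (1 : E) = 0 := by
  rw [el_of one_ne_zero, Units.mk0_one]
  rfl

private theorem el_pow {x : E} (hx : x ≠ 0) (n : ℕ) : el (x ^ n) = (n : ℤ) • el x := by
  induction n with
  | zero => rw [pow_zero, el_one, Nat.cast_zero, zero_zsmul]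
  | succ n ih =>
    rw [pow_succ, el_mul (pow_ne_zero n hx) hx, ih, Nat.cast_succ, add_zsmul, one_zsmul]

private theorem el_prod {ι : Type} (s : Finset ι) (r : ι → E) (hr : ∀ i ∈ s, r i ≠ 0) :
    el (∏ i ∈ s, r i) = ∑ i ∈ s, el (r i) := by
  classical
  induction s using Finset.induction_on with
  | empty => rw [Finset.prod_empty, Finset.sum_empty, el_one]
  | insert i s hi ih =>
    rw [Finset.prod_insert hi, Finset.sum_insert hi,
      el_mul (hr i (Finset.mem_insert_self i s))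
        (Finset.prod_ne_zero_iff.2 fun j hj => hr j (Finset.mem_insert_of_mem hj)),
      ih fun j hj => hr j (Finset.mem_insert_of_mem hj)]

/-- the image of the units -/
private noncomputable def im {T : Type} [CommRing T] (f : T →+* E) :
    Submodule ℤ (Additive Eˣ) :=
  LinearMap.range ((MonoidHom.toAdditive (Units.map (f : T →* E))).toIntLinearMap)

private theorem el_mem {T : Type} [CommRing T] (f : T →+* E) {x : E} (hx : x ≠ 0) :
    el x ∈ im f ↔ ∃ u : Tˣ, f u = x := by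
  rw [el_of hx, im, LinearMap.mem_range]
  constructor
  · rintro ⟨u, hu⟩
    refine ⟨Additive.toMul u, ?_⟩
    exact congrArg Units.val (Additive.ofMul.injective hu)
  · rintro ⟨u, hu⟩
    refine ⟨Additive.ofMul u, ?_⟩
    refine congrArg Additive.ofMul (Units.ext ?_)
    exact hu

private theorem el_sub_mem {T : Type} [CommRing T] (f : T →+* E) {x y : E} (hx : x ≠ 0)
    (hy : y ≠ 0) : el x - el y ∈ im f ↔ ∃ u : Tˣ, x = f u * y := by
  have h1 : el x - el y = el (x * y⁻¹) := by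
    rw [sub_eq_iff_eq_add, ← el_mul (mul_ne_zero hx (inv_ne_zero hy)) hy, mul_assoc,
      inv_mul_cancel₀ hy, mul_one]
  rw [h1, el_mem f (mul_ne_zero hx (inv_ne_zero hy))]
  refine exists_congr fun u => ?_
  rw [eq_mul_inv_iff_mul_eq₀ hy]
  exact eq_comm

variable {R : Type} [CommRing R] {κ : Type} [Fintype κ]

/-- the classes of the products of powers of the `g j` -/
private noncomputable def lc (f : R →+* E) (g : κ → R) : (κ → ℤ) →ₗ[ℤ] Additive Eˣ :=
  Fintype.linearCombination ℤ fun j => el (f (g j))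

private theorem lc_apply (f : R →+* E) (g : κ → R) (x : κ → ℤ) :
    lc f g x = ∑ j, x j • el (f (g j)) := Fintype.linearCombination_apply ..

private theorem lc_pow (f : R →+* E) (g : κ → R) (hg : ∀ j, f (g j) ≠ 0) (k : κ → ℕ) :
    lc f g (fun j => (k j : ℤ)) = el (f (∏ j, g j ^ k j)) := by
  rw [map_prod, el_prod _ _ fun j _ => by rw [map_pow]; exact pow_ne_zero _ (hg j), lc_apply]
  refine Finset.sum_congr rfl fun j _ => ?_
  rw [map_pow, el_pow (hg j)]

private theorem lc_pn (f : R →+* E) (g : κ → R) (hg : ∀ j, f (g j) ≠ 0) (x : κ → ℤ) :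
    lc f g x = el (f (∏ j, g j ^ (x j).toNat)) - el (f (∏ j, g j ^ (-x j).toNat)) := by
  rw [← lc_pow f g hg, ← lc_pow f g hg, ← map_sub]
  congr 1
  funext j
  rw [Pi.sub_apply, Int.toNat_sub_toNat_neg]

private theorem prod_ne [IsDomain R] (g : κ → R) (hg : ∀ j, g j ≠ 0) (k : κ → ℕ) :
    ∏ j, g j ^ k j ≠ 0 := Finset.prod_ne_zero_iff.2 fun j _ => pow_ne_zero _ (hg j)

private theorem fact [IsDomain R] [UniqueFactorizationMonoid R] (g : κ → R)
    (hg : ∀ j, Prime (g j)) {D : R} (hD : D ≠ 0)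
    (hcov : ∀ π : R, Prime π → π ∣ D → ∃ j, g j ∣ π) (n : ℕ) (r : R) :
    r ∣ D ^ n → ∃ k : κ → ℕ, Associated (∏ j, g j ^ k j) r := by
  classical
  refine UniqueFactorizationMonoid.induction_on_prime
    (P := fun r : R => r ∣ D ^ n → ∃ k : κ → ℕ, Associated (∏ j, g j ^ k j) r) r ?_ ?_ ?_
  · intro h0
    exact absurd (zero_dvd_iff.1 h0) (pow_ne_zero n hD)
  · intro u hu _
    refine ⟨fun _ => 0, ?_⟩
    simp only [pow_zero, Finset.prod_const_one]
    exact (associated_one_iff_isUnit.2 hu).symm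
  · intro a π _ hπ ih hd
    obtain ⟨k, hk⟩ := ih (dvd_of_mul_left_dvd hd)
    obtain ⟨j, hj⟩ := hcov π hπ (hπ.dvd_of_dvd_pow (dvd_of_mul_right_dvd hd))
    have h1 := (hg j).irreducible.associated_of_dvd hπ.irreducible hj
    refine ⟨fun i => k i + (Pi.single j 1 : κ → ℕ) i, ?_⟩
    have h2 : ∏ i, g i ^ (k i + (Pi.single j 1 : κ → ℕ) i) = g j * ∏ i, g i ^ k i := by
      simp only [pow_add, Finset.prod_mul_distrib]
      rw [mul_comm]
      congr 1
      rw [Finset.prod_eq_single j]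
      · rw [Pi.single_eq_same, pow_one]
      · intro i _ hi
        rw [Pi.single_eq_of_ne hi, pow_zero]
      · intro hi
        exact absurd (Finset.mem_univ _) hi
    rw [h2]
    exact h1.mul_mul hk

private theorem eq_zero_of_assoc [IsDomain R] [UniqueFactorizationMonoid R] (g : κ → R)
    (hg : ∀ j, Prime (g j)) (hne : ∀ i j, g i ∣ g j → i = j) (x : κ → ℤ)
    (h : Associated (∏ j, g j ^ (x j).toNat) (∏ j, g j ^ (-x j).toNat)) : x = 0 := by
  classical
  have hrel : IsRelPrime (∏ j, g j ^ (x j).toNat) (∏ j, g j ^ (-x j).toNat) := by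
    refine IsRelPrime.prod_left fun i _ => IsRelPrime.prod_right fun j _ => ?_
    by_cases hij : i = j
    · subst hij
      rcases le_total 0 (x i) with h1 | h1
      · rw [show (-x i).toNat = 0 by omega, pow_zero]
        exact isRelPrime_one_right
      · rw [show (x i).toNat = 0 by omega, pow_zero]
        exact isRelPrime_one_left
    · refine IsRelPrime.pow ?_
      rw [(hg i).irreducible.isRelPrime_iff_not_dvd]
      exact fun h1 => hij (hne i j h1)
  have h2 : IsUnit (∏ j, g j ^ (x j).toNat) := hrel dvd_rfl h.dvd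
  have h2' : IsUnit (∏ j, g j ^ (-x j).toNat) := hrel h.symm.dvd dvd_rfl
  funext j
  have h3 : (x j).toNat = 0 := by
    by_contra h4
    have h5 : IsUnit (g j ^ (x j).toNat) :=
      isUnit_of_dvd_unit (Finset.dvd_prod_of_mem (fun j => g j ^ (x j).toNat)
        (Finset.mem_univ j)) h2
    exact (hg j).not_isUnit ((isUnit_pow_iff h4).1 h5)
  have h4 : (-x j).toNat = 0 := by
    by_contra h4
    have h5 : IsUnit (g j ^ (-x j).toNat) :=
      isUnit_of_dvd_unit (Finset.dvd_prod_of_mem (fun j => g j ^ (-x j).toNat)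
        (Finset.mem_univ j)) h2'
    exact (hg j).not_isUnit ((isUnit_pow_iff h4).1 h5)
  rw [Pi.zero_apply]
  omega

/-- the independence of pairwise non-associated primes modulo units -/
private theorem lc_inj [IsDomain R] [UniqueFactorizationMonoid R] (f : R →+* E)
    (hf : Function.Injective f) (g : κ → R) (hg : ∀ j, Prime (g j))
    (hne : ∀ i j, g i ∣ g j → i = j) :
    Function.Injective ((im f).mkQ ∘ₗ lc f g) := by
  have hf0 : ∀ r : R, r ≠ 0 → f r ≠ 0 := fun r hr => (map_ne_zero_iff f hf).2 hr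
  rw [← LinearMap.ker_eq_bot, LinearMap.ker_eq_bot']
  intro x hx
  rw [LinearMap.comp_apply, Submodule.mkQ_apply, Submodule.Quotient.mk_eq_zero,
    lc_pn f g (fun j => hf0 _ (hg j).ne_zero),
    el_sub_mem f (hf0 _ (prod_ne g (fun j => (hg j).ne_zero) _))
      (hf0 _ (prod_ne g (fun j => (hg j).ne_zero) _))] at hx
  obtain ⟨u, hu⟩ := hx
  rw [← map_mul] at hu
  have h1 := hf hu
  exact eq_zero_of_assoc g hg hne x ⟨u⁻¹, by
    rw [h1, mul_comm, ← mul_assoc, Units.inv_mul, one_mul]⟩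

private theorem lc_fact [IsDomain R] (f : R →+* E) (hf : Function.Injective f) (g : κ → R)
    (hg : ∀ j, g j ≠ 0) {k : κ → ℕ} {r : R} (h : Associated (∏ j, g j ^ k j) r) :
    el (f r) - lc f g (fun j => (k j : ℤ)) ∈ im f := by
  have hf0 : ∀ r : R, r ≠ 0 → f r ≠ 0 := fun r hr => (map_ne_zero_iff f hf).2 hr
  have hr0 : r ≠ 0 := (h.ne_zero_iff).1 (prod_ne g hg k)
  rw [lc_pow f g (fun j => hf0 _ (hg j)), el_sub_mem f (hf0 _ hr0) (hf0 _ (prod_ne g hg k))]
  obtain ⟨u, hu⟩ := h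
  exact ⟨u, by rw [← hu, map_mul, mul_comm]⟩

end ab

section main

variable {L : Type} [Field L] {F G : L[X][X]} {A : Type} [CommRing A]
  {ψ : (RatFunc L)[X][X] →+* A}

private theorem upG_ne (h : Pencil F G) (H : Cv F G A ψ) {r : L[X][X]} (hr : r ≠ 0) :
    ψ (up r) ≠ 0 := by
  intro h0
  refine hr (up_injective h H ?_)
  simp only [map_zero]
  exact h0

private theorem fin_S [IsDedekindDomain A] (h : Pencil F G) (H : Cv F G A ψ) :
    Finite {P : Ideal A // P.IsPrime ∧ ψ (up G) ∈ P} := by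
  have hG := upG_ne h H h.ne
  have h1 : Ideal.span {ψ (up G)} ≠ (⊥ : Ideal A) := fun h0 =>
    hG (Ideal.span_singleton_eq_bot.1 h0)
  classical
  refine ((UniqueFactorizationMonoid.normalizedFactors
    (Ideal.span {ψ (up G)})).toFinset.finite_toSet.subset ?_).to_subtype
  rintro P ⟨hP, hPG⟩
  rw [Finset.mem_coe, Multiset.mem_toFinset, Ideal.mem_normalizedFactors_iff h1]
  exact ⟨hP, (Ideal.span_singleton_le_iff_mem _).2 hPG⟩

private theorem S_ne [IsDedekindDomain A] (h : Pencil F G) (H : Cv F G A ψ)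
    (P : {P : Ideal A // P.IsPrime ∧ ψ (up G) ∈ P}) : P.1 ≠ ⊥ := by
  intro h0
  have h1 := P.2.2
  rw [h0, Ideal.mem_bot] at h1
  exact upG_ne h H h.ne h1

/-- the class map -/
private noncomputable def Φ [IsDedekindDomain A] (ψ : (RatFunc L)[X][X] →+* A) (G : L[X][X])
    [Fintype {P : Ideal A // P.IsPrime ∧ ψ (up G) ∈ P}] :
    ({P : Ideal A // P.IsPrime ∧ ψ (up G) ∈ P} → ℤ) →ₗ[ℤ] Additive (ClassGroup A) :=
  Fintype.linearCombination ℤ fun P => cls P.1

private theorem Φ_apply [IsDedekindDomain A]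
    [Fintype {P : Ideal A // P.IsPrime ∧ ψ (up G) ∈ P}]
    (n : {P : Ideal A // P.IsPrime ∧ ψ (up G) ∈ P} → ℤ) :
    Φ ψ G n = ∑ P, n P • cls P.1 := Fintype.linearCombination_apply ..

private theorem Φ_surj [IsDedekindDomain A] (h : Pencil F G) (H : Cv F G A ψ)
    [Fintype {P : Ideal A // P.IsPrime ∧ ψ (up G) ∈ P}] : Function.Surjective (Φ ψ G) := by
  classical
  have hover : ∀ P : Ideal A, P.IsPrime → ψ (up G) ∈ P →
      cls P ∈ (Φ ψ G).toAddMonoidHom.range := by
    intro P hP hg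
    refine ⟨Pi.single ⟨P, hP, hg⟩ 1, ?_⟩
    rw [LinearMap.toAddMonoidHom_coe, Φ_apply, Finset.sum_eq_single ⟨P, hP, hg⟩]
    · rw [Pi.single_eq_same, one_smul]
    · intro j _ hj
      rw [Pi.single_eq_of_ne hj, zero_smul]
    · intro hi
      exact absurd (Finset.mem_univ _) hi
  intro c
  obtain ⟨I, hI, rfl⟩ := cls_surj c
  have key : cls I ∈ (Φ ψ G).toAddMonoidHom.range := by
    refine cls_mem _ I hI fun P hP hP0 _ => ?_
    by_cases hg : ψ (up G) ∈ P
    · exact hover P hP hg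
    · obtain ⟨J, a, ha, hPJ, N, hN⟩ := gen h H P hP hP0 hg
      have hJ0 : J ≠ ⊥ := by
        rintro rfl
        rw [Ideal.mul_bot] at hPJ
        exact ha (Ideal.span_singleton_eq_bot.1 hPJ.symm)
      have h1 := cls_mul hP0 hJ0
      rw [hPJ, cls_span] at h1
      have h2 : cls J ∈ (Φ ψ G).toAddMonoidHom.range := by
        refine cls_mem _ J hJ0 fun Q hQ _ hJQ => hover Q hQ ?_
        exact hQ.mem_of_pow_mem N (hJQ hN)
      have h3 : cls P = -cls J := (neg_eq_of_add_eq_zero_left h1.symm).symm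
      rw [h3]
      exact AddSubgroup.neg_mem _ h2
  obtain ⟨n, hn⟩ := key
  exact ⟨n, hn⟩

/-- the divisor of an ideal -/
private noncomputable def dv [IsDedekindDomain A] (ψ : (RatFunc L)[X][X] →+* A) (G : L[X][X])
    (I : Ideal A) : {P : Ideal A // P.IsPrime ∧ ψ (up G) ∈ P} → ℤ := fun P => cnt I P.1

private theorem dv_mul [IsDedekindDomain A] {I J : Ideal A} (hI : I ≠ ⊥) (hJ : J ≠ ⊥) :
    dv ψ G (I * J) = dv ψ G I + dv ψ G J := by
  funext P
  rw [Pi.add_apply, dv, dv, dv, cnt_mul hI hJ]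
  push_cast
  ring

private theorem prime_mem [IsDedekindDomain A] {I : Ideal A} {N : ℕ} (hN : ψ (up G) ^ N ∈ I)
    (P : Ideal A) (hP : P.IsPrime) (h : I ≤ P) : P.IsPrime ∧ ψ (up G) ∈ P :=
  ⟨hP, hP.mem_of_pow_mem N (h hN)⟩

private theorem dv_inj [IsDedekindDomain A]
    [Fintype {P : Ideal A // P.IsPrime ∧ ψ (up G) ∈ P}] {I J : Ideal A} (hI : I ≠ ⊥)
    (hJ : J ≠ ⊥) {M N : ℕ} (hM : ψ (up G) ^ M ∈ I) (hN : ψ (up G) ^ N ∈ J)
    (h : dv ψ G I = dv ψ G J) : I = J := by
  rw [eq_prod (T := fun P => P.IsPrime ∧ ψ (up G) ∈ P) hI (prime_mem hM),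
    eq_prod (T := fun P => P.IsPrime ∧ ψ (up G) ∈ P) hJ (prime_mem hN)]
  refine Finset.prod_congr rfl fun P _ => ?_
  have h1 := congrFun h P
  rw [dv, dv] at h1
  have h2 : cnt I P.1 = cnt J P.1 := by exact_mod_cast h1
  rw [h2]

private theorem Φ_dv [IsDedekindDomain A] (h : Pencil F G) (H : Cv F G A ψ)
    [Fintype {P : Ideal A // P.IsPrime ∧ ψ (up G) ∈ P}] {I : Ideal A} (hI : I ≠ ⊥)
    {N : ℕ} (hN : ψ (up G) ^ N ∈ I) : Φ ψ G (dv ψ G I) = cls I := by
  conv_rhs => rw [eq_prod (T := fun P => P.IsPrime ∧ ψ (up G) ∈ P) hI (prime_mem hN)]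
  rw [cls_prod _ _ fun P _ => pow_ne_zero _ (S_ne h H P), Φ_apply]
  refine Finset.sum_congr rfl fun P _ => ?_
  rw [cls_pow (S_ne h H P), dv, natCast_zsmul]

private theorem dv_prod [IsDedekindDomain A] (h : Pencil F G) (H : Cv F G A ψ)
    [Fintype {P : Ideal A // P.IsPrime ∧ ψ (up G) ∈ P}]
    (m : {P : Ideal A // P.IsPrime ∧ ψ (up G) ∈ P} → ℕ) :
    dv ψ G (∏ P : {P : Ideal A // P.IsPrime ∧ ψ (up G) ∈ P}, P.1 ^ m P) = fun P => (m P : ℤ) := by
  funext Q
  rw [dv, cnt_prod _ _ fun P _ => pow_ne_zero _ (S_ne h H P), Finset.sum_eq_single Q]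
  · rw [cnt_pow (S_ne h H Q), cnt_self Q.2.1 (S_ne h H Q), mul_one]
  · intro P _ hPQ
    rw [cnt_pow (S_ne h H P), cnt_ne P.2.1 (S_ne h H P) fun e => hPQ (Subtype.ext e).symm,
      mul_zero]
  · intro hi
    exact absurd (Finset.mem_univ _) hi

/-- the divisor of an element -/
private noncomputable def w [IsDedekindDomain A] (ψ : (RatFunc L)[X][X] →+* A) (G r : L[X][X]) :
    {P : Ideal A // P.IsPrime ∧ ψ (up G) ∈ P} → ℤ := dv ψ G (Ideal.span {ψ (up r)})

private theorem sp_ne (h : Pencil F G) (H : Cv F G A ψ) {r : L[X][X]} (hr : r ≠ 0) :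
    Ideal.span {ψ (up r)} ≠ (⊥ : Ideal A) := fun h0 =>
  upG_ne h H hr (Ideal.span_singleton_eq_bot.1 h0)

private theorem w_mul [IsDedekindDomain A] (h : Pencil F G) (H : Cv F G A ψ) {r s : L[X][X]}
    (hr : r ≠ 0) (hs : s ≠ 0) : w ψ G (r * s) = w ψ G r + w ψ G s := by
  rw [w, w, w, ← dv_mul (sp_ne h H hr) (sp_ne h H hs), Ideal.span_singleton_mul_span_singleton,
    map_mul, map_mul]

private theorem w_unit [IsDedekindDomain A] {r : L[X][X]} (hr : IsUnit r) : w ψ G r = 0 := by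
  have h1 : IsUnit (ψ (up r)) := (hr.map up).map ψ
  rw [w, Ideal.span_singleton_eq_top.2 h1]
  funext P
  rw [dv, cnt_top]
  rfl

private theorem w_pow [IsDedekindDomain A] (h : Pencil F G) (H : Cv F G A ψ) {r : L[X][X]}
    (hr : r ≠ 0) (n : ℕ) : w ψ G (r ^ n) = (n : ℤ) • w ψ G r := by
  induction n with
  | zero => rw [pow_zero, w_unit isUnit_one, Nat.cast_zero, zero_smul]
  | succ n ih =>
    rw [pow_succ, w_mul h H (pow_ne_zero n hr) hr, ih, Nat.cast_succ, add_smul, one_smul]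

private theorem w_prod [IsDedekindDomain A] (h : Pencil F G) (H : Cv F G A ψ) {ι : Type}
    (s : Finset ι) (r : ι → L[X][X]) (hr : ∀ i ∈ s, r i ≠ 0) :
    w ψ G (∏ i ∈ s, r i) = ∑ i ∈ s, w ψ G (r i) := by
  classical
  induction s using Finset.induction_on with
  | empty => rw [Finset.prod_empty, Finset.sum_empty, w_unit isUnit_one]
  | insert i s hi ih =>
    rw [Finset.prod_insert hi, Finset.sum_insert hi,
      w_mul h H (hr i (Finset.mem_insert_self i s))
        (Finset.prod_ne_zero_iff.2 fun j hj => hr j (Finset.mem_insert_of_mem hj)),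
      ih fun j hj => hr j (Finset.mem_insert_of_mem hj)]

private theorem w_assoc [IsDedekindDomain A] {r s : L[X][X]} (h : Associated r s) :
    w ψ G r = w ψ G s := by
  have h1 : Associated (ψ (up r)) (ψ (up s)) := (h.map up).map ψ
  rw [w, w, Ideal.span_singleton_eq_span_singleton.2 h1]

private theorem up_fib (H : Cv F G A ψ) (B : L[X]) : ψ (up (fib F G B)) =
    ψ (up G) ^ B.natDegree * ψ (ct (algebraMap L[X] (RatFunc L) B)) := by
  rw [fib_hmg, up_hmg H B.natDegree (lft B) (show (lft B).natDegree ≤ B.natDegree from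
    natDegree_map_le), tup_lft]

private theorem ct_unit {c : RatFunc L} (hc : c ≠ 0) : IsUnit (ψ (ct c)) :=
  ((IsUnit.mk0 c hc).map ct).map ψ

private theorem alg_ne {B : L[X]} (hB : B ≠ 0) : algebraMap L[X] (RatFunc L) B ≠ 0 :=
  (map_ne_zero_iff _ (RatFunc.algebraMap_injective L)).mpr hB

private theorem fib_ne (h : Pencil F G) (H : Cv F G A ψ) {B : L[X]} (hB : B ≠ 0) :
    fib F G B ≠ 0 := by
  intro h0
  have hdom := cv_domain h H
  have h1 := up_fib H B
  rw [h0, map_zero, map_zero] at h1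
  exact mul_ne_zero (pow_ne_zero _ (upG_ne h H h.ne)) (ct_unit (alg_ne hB)).ne_zero h1.symm

private theorem up_dvd (H : Cv F G A ψ) {B : L[X]} (hB : B ≠ 0) {r : L[X][X]} {n : ℕ}
    (hr : r ∣ (G * fib F G B) ^ n) : ∃ m, ψ (up G) ^ m ∈ Ideal.span {ψ (up r)} := by
  refine ⟨(1 + B.natDegree) * n, ?_⟩
  rw [Ideal.mem_span_singleton]
  have h1 := map_dvd ψ (map_dvd up hr)
  rw [map_pow, map_pow, map_mul, map_mul, up_fib H B, ← mul_assoc, mul_pow, ← pow_succ',
    ← pow_mul, add_comm] at h1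
  exact ((ct_unit (alg_ne hB)).pow n).dvd_mul_right.1 h1

variable {κ : Type} [Fintype κ]

/-- the divisors of the `g j` -/
private noncomputable def Ψ [IsDedekindDomain A] (ψ : (RatFunc L)[X][X] →+* A) (G : L[X][X])
    (g : κ → L[X][X]) :
    (κ → ℤ) →ₗ[ℤ] ({P : Ideal A // P.IsPrime ∧ ψ (up G) ∈ P} → ℤ) :=
  Fintype.linearCombination ℤ fun j => w ψ G (g j)

private theorem Ψ_apply [IsDedekindDomain A] (g : κ → L[X][X]) (x : κ → ℤ) :
    Ψ ψ G g x = ∑ j, x j • w ψ G (g j) := Fintype.linearCombination_apply ..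

private theorem Ψ_pow [IsDedekindDomain A] (h : Pencil F G) (H : Cv F G A ψ) (g : κ → L[X][X])
    (hg : ∀ j, g j ≠ 0) (k : κ → ℕ) :
    Ψ ψ G g (fun j => (k j : ℤ)) = w ψ G (∏ j, g j ^ k j) := by
  rw [w_prod h H _ _ fun j _ => pow_ne_zero _ (hg j), Ψ_apply]
  exact Finset.sum_congr rfl fun j _ => (w_pow h H (hg j) _).symm

private theorem Ψ_pn [IsDedekindDomain A] (h : Pencil F G) (H : Cv F G A ψ) (g : κ → L[X][X])
    (hg : ∀ j, g j ≠ 0) (x : κ → ℤ) :
    Ψ ψ G g x = w ψ G (∏ j, g j ^ (x j).toNat) - w ψ G (∏ j, g j ^ (-x j).toNat) := by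
  rw [← Ψ_pow h H g hg, ← Ψ_pow h H g hg, ← map_sub]
  congr 1
  funext j
  rw [Pi.sub_apply, Int.toNat_sub_toNat_neg]

private theorem w_fact [IsDedekindDomain A] (h : Pencil F G) (H : Cv F G A ψ)
    (g : κ → L[X][X]) (hg : ∀ j, g j ≠ 0) {k : κ → ℕ} {r : L[X][X]}
    (hr : Associated (∏ j, g j ^ k j) r) : Ψ ψ G g (fun j => (k j : ℤ)) = w ψ G r := by
  rw [Ψ_pow h H g hg, w_assoc hr]

private theorem w_mem [IsDedekindDomain A] (h : Pencil F G) (H : Cv F G A ψ) {B : L[X]}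
    (hB : B ≠ 0) (g : κ → L[X][X])
    (hcov : ∀ π : L[X][X], Prime π → π ∣ G * fib F G B → ∃ j, g j ∣ π) (hg : ∀ j, Prime (g j))
    (r : L[X][X]) (n : ℕ) (hr : r ∣ (G * fib F G B) ^ n) :
    w ψ G r ∈ LinearMap.range (Ψ ψ G g) := by
  obtain ⟨k, hk⟩ := fact g hg (mul_ne_zero h.ne (fib_ne h H hB)) hcov n r hr
  exact ⟨_, w_fact h H g (fun j => (hg j).ne_zero) hk⟩

private theorem ker_le [IsDedekindDomain A] (h : Pencil F G) {B : L[X]} (hB : B ≠ 0)
    (hm : IrrOutside F G B)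
    (H : Cv F G A ψ) [Fintype {P : Ideal A // P.IsPrime ∧ ψ (up G) ∈ P}] (g : κ → L[X][X])
    (hcov : ∀ π : L[X][X], Prime π → π ∣ G * fib F G B → ∃ j, g j ∣ π)
    (hg : ∀ j, Prime (g j)) :
    LinearMap.ker (Φ ψ G) ≤ LinearMap.range (Ψ ψ G g) := by
  classical
  intro n hn
  rw [LinearMap.mem_ker] at hn
  let S : Type := {P : Ideal A // P.IsPrime ∧ ψ (up G) ∈ P}
  have hD : w ψ G G ∈ LinearMap.range (Ψ ψ G g) := w_mem h H hB g hcov hg G 1 (by
    rw [pow_one]; exact dvd_mul_right _ _)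
  have hDpos : ∀ P : S, 1 ≤ w ψ G G P := by
    intro P
    have h1 := cnt_pos (sp_ne h H h.ne) P.2.1 ((Ideal.span_singleton_le_iff_mem _).2 P.2.2)
    rw [w, dv]
    exact_mod_cast h1
  let k : ℕ := ∑ P : S, (n P).natAbs
  have hk : ∀ P : S, 0 ≤ n P + k * w ψ G G P := by
    intro P
    have h1 : (n P).natAbs ≤ k :=
      Finset.single_le_sum (f := fun P : S => (n P).natAbs) (fun _ _ => Nat.zero_le _)
        (Finset.mem_univ P)
    have h2 : |n P| ≤ (k : ℤ) := by
      rw [Int.abs_eq_natAbs]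
      exact_mod_cast h1
    have h3 := neg_abs_le (n P)
    have h4 := hDpos P
    have h5 : (k : ℤ) * 1 ≤ k * w ψ G G P := mul_le_mul_of_nonneg_left h4 (by positivity)
    linarith
  let m : S → ℕ := fun P => (n P + k * w ψ G G P).toNat
  have hm' : ∀ P, (m P : ℤ) = n P + k * w ψ G G P := fun P => Int.toNat_of_nonneg (hk P)
  let I : Ideal A := ∏ P : S, P.1 ^ m P
  have hI0 : I ≠ ⊥ := Finset.prod_ne_zero_iff.2 fun P _ => pow_ne_zero _ (S_ne h H P)
  have hdvI : dv ψ G I = n + (k : ℤ) • w ψ G G := by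
    rw [dv_prod h H m]
    funext P
    rw [hm' P, Pi.add_apply, Pi.smul_apply, smul_eq_mul]
  have hGI : ψ (up G) ^ (∑ P : S, m P) ∈ I := by
    rw [← Finset.prod_pow_eq_pow_sum]
    exact Ideal.prod_mem_prod fun P _ => Ideal.pow_mem_pow P.2.2 _
  have hcls : cls I = 0 := by
    rw [← Φ_dv h H hI0 hGI, hdvI, map_add, map_smul, hn, zero_add]
    have h1 : Φ ψ G (w ψ G G) = cls (Ideal.span {ψ (up G)}) :=
      Φ_dv h H (sp_ne h H h.ne) (N := 1) (by rw [pow_one]; exact Ideal.mem_span_singleton_self _)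
    rw [h1, cls_span, smul_zero]
  obtain ⟨e, he⟩ := (cls_eq_zero hI0).1 hcls
  rw [he, Ideal.mem_span_singleton] at hGI
  obtain ⟨c, r, s, hc, ⟨n1, hr⟩, ⟨n2, hs⟩, hers⟩ := unit_thm3 h hB hm H e _ hGI
  have hGf : G * fib F G B ≠ 0 := mul_ne_zero h.ne (fib_ne h H hB)
  have hr0 : r ≠ 0 := fun h0 => pow_ne_zero n1 hGf (zero_dvd_iff.1 (h0 ▸ hr))
  have hs0 : s ≠ 0 := fun h0 => pow_ne_zero n2 hGf (zero_dvd_iff.1 (h0 ▸ hs))
  have hcu : IsUnit (ψ (ct c)) := ct_unit hc
  have h1 : Ideal.span {e} * Ideal.span {ψ (up s)} = Ideal.span {ψ (up r)} := by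
    rw [Ideal.span_singleton_mul_span_singleton, hers,
      Ideal.span_singleton_mul_left_unit hcu]
  have h2 : dv ψ G I + w ψ G s = w ψ G r := by
    rw [w, w, ← dv_mul hI0 (sp_ne h H hs0), he, h1]
  have h3 : n = w ψ G r - w ψ G s - (k : ℤ) • w ψ G G := by
    rw [← h2, hdvI]
    abel
  rw [h3]
  exact Submodule.sub_mem _ (Submodule.sub_mem _ (w_mem h H hB g hcov hg r n1 hr)
    (w_mem h H hB g hcov hg s n2 hs)) (Submodule.smul_mem _ _ hD)

private theorem range_le [IsDedekindDomain A] (h : Pencil F G) {B : L[X]} (hB : B ≠ 0)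
    (H : Cv F G A ψ) [Fintype {P : Ideal A // P.IsPrime ∧ ψ (up G) ∈ P}] (g : κ → L[X][X])
    (hg : ∀ j, Prime (g j)) (hdvd : ∀ j, g j ∣ G * fib F G B) :
    LinearMap.range (Ψ ψ G g) ≤ LinearMap.ker (Φ ψ G) := by
  rintro - ⟨x, rfl⟩
  rw [LinearMap.mem_ker, Ψ_apply, map_sum]
  refine Finset.sum_eq_zero fun j _ => ?_
  rw [map_smul]
  obtain ⟨m, hm⟩ := up_dvd H hB (r := g j) (n := 1) (by rw [pow_one]; exact hdvd j)
  have h1 : Φ ψ G (w ψ G (g j)) = cls (Ideal.span {ψ (up (g j))}) :=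
    Φ_dv h H (sp_ne h H (hg j).ne_zero) hm
  rw [h1, cls_span, smul_zero]

end main

section fin

variable {L : Type} [Field L] {F G : L[X][X]} {A : Type} [CommRing A]
  {ψ : (RatFunc L)[X][X] →+* A} {E : Type} [Field E]

/-- `L[x, y] → E` -/
private noncomputable def fA (ψ : (RatFunc L)[X][X] →+* A) (j : A →+* E) : L[X][X] →+* E :=
  (j.comp ψ).comp up

/-- `L(t) → E` -/
private noncomputable def fK (ψ : (RatFunc L)[X][X] →+* A) (j : A →+* E) : RatFunc L →+* E :=
  (j.comp ψ).comp ct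

/-- `L[t] → E` -/
private noncomputable def fT (ψ : (RatFunc L)[X][X] →+* A) (j : A →+* E) : L[X] →+* E :=
  (fK ψ j).comp (algebraMap L[X] (RatFunc L))

private theorem im_le {T T' : Type} [CommRing T] [CommRing T'] (f : T →+* E) (f' : T' →+* E)
    (h : ∀ u : Tˣ, ∃ u' : T'ˣ, f' u' = f u) : im f ≤ im f' := by
  rintro - ⟨u, rfl⟩
  obtain ⟨u', hu'⟩ := h (Additive.toMul u)
  refine ⟨Additive.ofMul u', ?_⟩
  exact congrArg Additive.ofMul (Units.ext hu')

private theorem fA_const (j : A →+* E) (c : L) : fA ψ j (C (C c)) = fT ψ j (C c) := by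
  rw [fA, fT, fK, RingHom.comp_apply, RingHom.comp_apply, RingHom.comp_apply,
    RingHom.comp_apply, RingHom.comp_apply, RatFunc.algebraMap_C]
  congr 2
  simp [up, ct]

private theorem im_eq (j : A →+* E) : im (fA ψ j) = im (fT ψ j) := by
  refine le_antisymm (im_le _ _ fun u => ?_) (im_le _ _ fun u => ?_)
  · obtain ⟨r, hr, hu⟩ := Polynomial.isUnit_iff.1 u.isUnit
    obtain ⟨c, hc, rfl⟩ := Polynomial.isUnit_iff.1 hr
    obtain ⟨v, hv⟩ := hr
    refine ⟨v, ?_⟩
    rw [← hu, hv, fA_const]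
  · obtain ⟨c, hc, hu⟩ := Polynomial.isUnit_iff.1 u.isUnit
    obtain ⟨v, hv⟩ := (hc.map (C : L →+* L[X])).map (C : L[X] →+* L[X][X])
    refine ⟨v, ?_⟩
    rw [hv, fA_const, hu]

private theorem im_T_le (j : A →+* E) : im (fT ψ j) ≤ im (fK ψ j) :=
  im_le _ _ fun u => ⟨Units.map (algebraMap L[X] (RatFunc L) : L[X] →* RatFunc L) u, rfl⟩

private theorem im_K_le (j : A →+* E) : im (fK ψ j) ≤ im j :=
  im_le _ _ fun u => ⟨Units.map (ψ.comp ct : RatFunc L →* A) u, rfl⟩

private theorem el_mem' {T : Type} [CommRing T] (f : T →+* E) {x : T} (hx : IsUnit x) :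
    el (f x) ∈ im f := by
  obtain ⟨u, rfl⟩ := hx
  exact (el_mem f (u.isUnit.map f).ne_zero).2 ⟨u, rfl⟩

private theorem fA_ne (h : Pencil F G) (H : Cv F G A ψ) (j : A →+* E)
    (hj : Function.Injective j) {r : L[X][X]} (hr : r ≠ 0) : fA ψ j r ≠ 0 :=
  (map_ne_zero_iff j hj).2 (upG_ne h H hr)

private theorem fA_inj (h : Pencil F G) (H : Cv F G A ψ) (j : A →+* E)
    (hj : Function.Injective j) : Function.Injective (fA ψ j) := fun _ _ h1 =>
  up_injective h H (hj h1)

private theorem fK_ne (j : A →+* E) {c : RatFunc L} (hc : c ≠ 0) : fK ψ j c ≠ 0 :=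
  (map_ne_zero (fK ψ j)).2 hc

private theorem fT_inj (j : A →+* E) : Function.Injective (fT ψ j) :=
  (fK ψ j).injective.comp (RatFunc.algebraMap_injective L)

variable {κ σ : Type} [Fintype κ] [Fintype σ]

private theorem mem_im_K (h : Pencil F G) (H : Cv F G A ψ) (j : A →+* E)
    (hj : Function.Injective j) (g : κ → L[X][X]) (hg : ∀ i, g i ≠ 0) (x : κ → ℤ)
    (hx : lc (fA ψ j) g x ∈ im (fK ψ j)) : ∃ c : RatFunc L, c ≠ 0 ∧
      ψ (up (∏ i, g i ^ (x i).toNat)) = ψ (ct c) * ψ (up (∏ i, g i ^ (-x i).toNat)) ∧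
      lc (fA ψ j) g x = el (fK ψ j c) := by
  have hp := fA_ne h H j hj (prod_ne g hg fun i => (x i).toNat)
  have hq := fA_ne h H j hj (prod_ne g hg fun i => (-x i).toNat)
  rw [lc_pn _ g (fun i => fA_ne h H j hj (hg i)), el_sub_mem _ hp hq] at hx
  obtain ⟨c, hc⟩ := hx
  refine ⟨c, c.ne_zero, hj ?_, ?_⟩
  · rw [map_mul]
    exact hc
  · rw [lc_pn _ g (fun i => fA_ne h H j hj (hg i)), hc, el_mul (fK_ne j c.ne_zero) hq,
      add_sub_cancel_right]

private theorem w_of_eq [IsDedekindDomain A] {c : A} (hc : IsUnit c) {p q : L[X][X]}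
    (h : ψ (up p) = c * ψ (up q)) : w ψ G p = w ψ G q := by
  rw [w, w, h, Ideal.span_singleton_mul_left_unit hc]

/-- the map `ℤ^κ → E^*/L(t)^*` -/
private noncomputable def θ (ψ : (RatFunc L)[X][X] →+* A) (j : A →+* E) (g : κ → L[X][X]) :
    (κ → ℤ) →ₗ[ℤ] (Additive Eˣ ⧸ im (fK ψ j)) := (im (fK ψ j)).mkQ ∘ₗ lc (fA ψ j) g

private theorem θ_zero (j : A →+* E) (g : κ → L[X][X]) (x : κ → ℤ) :
    θ ψ j g x = 0 ↔ lc (fA ψ j) g x ∈ im (fK ψ j) := by
  rw [θ, LinearMap.comp_apply, Submodule.mkQ_apply, Submodule.Quotient.mk_eq_zero]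

private theorem ker_θ_le [IsDedekindDomain A] (h : Pencil F G) (H : Cv F G A ψ) (j : A →+* E)
    (hj : Function.Injective j) (g : κ → L[X][X]) (hg : ∀ i, g i ≠ 0) :
    LinearMap.ker (θ ψ j g) ≤ LinearMap.ker (Ψ ψ G g) := by
  intro x hx
  rw [LinearMap.mem_ker, θ_zero] at hx
  obtain ⟨c, hc, h1, -⟩ := mem_im_K h H j hj g hg x hx
  rw [LinearMap.mem_ker, Ψ_pn h H g hg, w_of_eq (ct_unit hc) h1, sub_self]

private theorem map_ker [IsDedekindDomain A] (h : Pencil F G) {B : L[X]} (hB : B ≠ 0)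
    (hm : IrrOutside F G B) (H : Cv F G A ψ)
    [Fintype {P : Ideal A // P.IsPrime ∧ ψ (up G) ∈ P}] (j : A →+* E)
    (hj : Function.Injective j) (g : κ → L[X][X])
    (hcov : ∀ π : L[X][X], Prime π → π ∣ G * fib F G B → ∃ j, g j ∣ π)
    (hg : ∀ j, Prime (g j)) (hdvd : ∀ j, g j ∣ G * fib F G B) :
    (LinearMap.ker (Ψ ψ G g)).map (θ ψ j g) = (im j).map (im (fK ψ j)).mkQ := by
  have hg0 : ∀ i, g i ≠ 0 := fun i => (hg i).ne_zero
  have hGf : G * fib F G B ≠ 0 := mul_ne_zero h.ne (fib_ne h H hB)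
  refine le_antisymm ?_ ?_
  · rintro - ⟨x, hx, rfl⟩
    refine ⟨lc (fA ψ j) g x, ?_, rfl⟩
    rw [SetLike.mem_coe, LinearMap.mem_ker, Ψ_pn h H g hg0, sub_eq_zero] at hx
    have hd : ∀ k : κ → ℕ, ∏ i, g i ^ k i ∣ (G * fib F G B) ^ (∑ i, k i) := fun k => by
      rw [← Finset.prod_pow_eq_pow_sum]
      exact Finset.prod_dvd_prod_of_dvd _ _ fun i _ => pow_dvd_pow_of_dvd (hdvd i) _
    obtain ⟨m, h1⟩ := up_dvd H hB (hd fun i => (x i).toNat)
    obtain ⟨m', h1'⟩ := up_dvd H hB (hd fun i => (-x i).toNat)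
    have hI := dv_inj (sp_ne h H (prod_ne g hg0 _)) (sp_ne h H (prod_ne g hg0 _)) h1 h1' hx
    obtain ⟨u, hu⟩ := (Ideal.span_singleton_eq_span_singleton.1 hI).symm
    rw [lc_pn _ g (fun i => fA_ne h H j hj (hg0 i)), SetLike.mem_coe,
      el_sub_mem _ (fA_ne h H j hj (prod_ne g hg0 _)) (fA_ne h H j hj (prod_ne g hg0 _))]
    refine ⟨u, ?_⟩
    rw [fA, RingHom.comp_apply, RingHom.comp_apply, ← hu, map_mul, mul_comm]
    rfl
  · rintro - ⟨y, hy, rfl⟩
    obtain ⟨u, rfl⟩ := hy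
    obtain ⟨c, r, s, hc, ⟨n1, hr⟩, ⟨n2, hs⟩, hers⟩ := unit_thm3 h hB hm H
      ((Additive.toMul u : Aˣ) : A) 0 (by rw [pow_zero]; exact (Additive.toMul u).isUnit.dvd)
    have hr0 : r ≠ 0 := fun h0 => pow_ne_zero n1 hGf (zero_dvd_iff.1 (h0 ▸ hr))
    have hs0 : s ≠ 0 := fun h0 => pow_ne_zero n2 hGf (zero_dvd_iff.1 (h0 ▸ hs))
    obtain ⟨k, hk⟩ := fact g hg hGf hcov n1 r hr
    obtain ⟨l, hl⟩ := fact g hg hGf hcov n2 s hs
    refine ⟨(fun i => (k i : ℤ)) - fun i => (l i : ℤ), ?_, ?_⟩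
    · rw [SetLike.mem_coe, LinearMap.mem_ker, map_sub, w_fact h H g hg0 hk,
        w_fact h H g hg0 hl, sub_eq_zero, w, w]
      congr 1
      rw [← Ideal.span_singleton_mul_left_unit (ct_unit hc) (ψ (up r)), ← hers,
        Ideal.span_singleton_mul_left_unit (Additive.toMul u).isUnit]
    · rw [θ, LinearMap.comp_apply, Submodule.mkQ_apply, Submodule.mkQ_apply,
        Submodule.Quotient.eq, map_sub]
      have hAK : im (fA ψ j) ≤ im (fK ψ j) := (im_eq j).le.trans (im_T_le j)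
      have a1 := hAK (lc_fact (fA ψ j) (fA_inj h H j hj) g hg0 hk)
      have a2 := hAK (lc_fact (fA ψ j) (fA_inj h H j hj) g hg0 hl)
      have a3 := el_mem' (fK ψ j) (IsUnit.mk0 c hc)
      have hju : j (Additive.toMul u : Aˣ) ≠ 0 :=
        ((Additive.toMul u).isUnit.map j).ne_zero
      have a4 : el (j (Additive.toMul u : Aˣ)) + el (fA ψ j s) =
          el (fK ψ j c) + el (fA ψ j r) := by
        rw [← el_mul hju (fA_ne h H j hj hs0), ← el_mul (fK_ne j hc) (fA_ne h H j hj hr0)]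
        congr 1
        have := congrArg j hers
        rw [map_mul, map_mul] at this
        exact this
      have a5 : ((MonoidHom.toAdditive (Units.map (j : A →* E))).toIntLinearMap) u =
          el (j (Additive.toMul u : Aˣ)) := by
        rw [el_of hju]
        exact congrArg Additive.ofMul (Units.ext rfl)
      rw [a5]
      have a6 : lc (fA ψ j) g (fun i => (k i : ℤ)) - lc (fA ψ j) g (fun i => (l i : ℤ)) -
          el (j (Additive.toMul u : Aˣ)) = (el (fA ψ j s) - lc (fA ψ j) g (fun i => (l i : ℤ))) -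
            (el (fA ψ j r) - lc (fA ψ j) g (fun i => (k i : ℤ))) - el (fK ψ j c) := by
        have a7 : el (j (Additive.toMul u : Aˣ)) =
          el (fK ψ j c) + el (fA ψ j r) - el (fA ψ j s) := eq_sub_of_add_eq a4
        rw [a7]
        abel
      rw [a6]
      exact Submodule.sub_mem _ (Submodule.sub_mem _ a2 a1) a3

/-- the map `ℤ^κ → E^*/L^*` -/
private noncomputable def α (ψ : (RatFunc L)[X][X] →+* A) (j : A →+* E) (g : κ → L[X][X]) :
    (κ → ℤ) →ₗ[ℤ] (Additive Eˣ ⧸ im (fA ψ j)) := (im (fA ψ j)).mkQ ∘ₗ lc (fA ψ j) g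

/-- the map `ℤ^σ → E^*/L^*` -/
private noncomputable def β (ψ : (RatFunc L)[X][X] →+* A) (j : A →+* E) (q : σ → L[X]) :
    (σ → ℤ) →ₗ[ℤ] (Additive Eˣ ⧸ im (fA ψ j)) := (im (fA ψ j)).mkQ ∘ₗ lc (fT ψ j) q

private theorem α_inj (h : Pencil F G) (H : Cv F G A ψ) (j : A →+* E)
    (hj : Function.Injective j) (g : κ → L[X][X]) (hg : ∀ j, Prime (g j))
    (hne : ∀ i j, g i ∣ g j → i = j) : Function.Injective (α ψ j g) :=
  lc_inj (fA ψ j) (fA_inj h H j hj) g hg hne

private theorem β_inj (j : A →+* E) (q : σ → L[X]) (hq : ∀ j, Prime (q j))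
    (hne : ∀ i j, q i ∣ q j → i = j) : Function.Injective (β ψ j q) := by
  have h1 := lc_inj (fT ψ j) (fT_inj j) q hq hne
  rw [← LinearMap.ker_eq_bot, LinearMap.ker_eq_bot'] at h1 ⊢
  intro x hx
  refine h1 x ?_
  rw [β, LinearMap.comp_apply, Submodule.mkQ_apply, Submodule.Quotient.mk_eq_zero, im_eq] at hx
  rw [LinearMap.comp_apply, Submodule.mkQ_apply, Submodule.Quotient.mk_eq_zero]
  exact hx

private theorem range_β_le (h : Pencil F G) {B : L[X]} (hB : B ≠ 0) (H : Cv F G A ψ)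
    (j : A →+* E) (hj : Function.Injective j) (g : κ → L[X][X])
    (hcov : ∀ π : L[X][X], Prime π → π ∣ G * fib F G B → ∃ j, g j ∣ π)
    (hg : ∀ j, Prime (g j)) (q : σ → L[X]) (hq : ∀ i, Prime (q i)) (hqdvd : ∀ i, q i ∣ B) :
    LinearMap.range (β ψ j q) ≤ LinearMap.range (α ψ j g) := by
  have hg0 : ∀ i, g i ≠ 0 := fun i => (hg i).ne_zero
  have hGf : G * fib F G B ≠ 0 := mul_ne_zero h.ne (fib_ne h H hB)
  have key : ∀ r : L[X][X], r ∣ G * fib F G B →
      (im (fA ψ j)).mkQ (el (fA ψ j r)) ∈ LinearMap.range (α ψ j g) := by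
    intro r hr
    obtain ⟨k, hk⟩ := fact g hg hGf hcov 1 r (by rw [pow_one]; exact hr)
    refine ⟨fun i => (k i : ℤ), ?_⟩
    rw [α, LinearMap.comp_apply, Submodule.mkQ_apply, Submodule.mkQ_apply, eq_comm,
      Submodule.Quotient.eq]
    exact lc_fact (fA ψ j) (fA_inj h H j hj) g hg0 hk
  rintro - ⟨y, rfl⟩
  rw [β, LinearMap.comp_apply, lc_apply, map_sum]
  refine Submodule.sum_mem _ fun i _ => ?_
  rw [map_zsmul]
  refine Submodule.smul_mem _ _ ?_
  have hfd : fib F G (q i) ∣ G * fib F G B := by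
    obtain ⟨B', hB'⟩ := hqdvd i
    have h0 : B' ≠ 0 := by
      rintro rfl
      exact hB (by rw [hB', mul_zero])
    rw [hB', fib_mul F G (hq i).ne_zero h0]
    exact dvd_mul_of_dvd_right (dvd_mul_right _ _) _
  have h1 := key _ hfd
  have h2 := key G (dvd_mul_right _ _)
  have h3 : fA ψ j (fib F G (q i)) = fA ψ j G ^ (q i).natDegree * fT ψ j (q i) := by
    have := congrArg j (up_fib H (q i))
    rw [map_mul, map_pow] at this
    exact this
  have hG0 := fA_ne h H j hj h.ne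
  rw [h3, el_mul (pow_ne_zero _ hG0) ((map_ne_zero_iff _ (fT_inj j)).2 (hq i).ne_zero),
    el_pow hG0, map_add, map_zsmul] at h1
  exact (Submodule.add_mem_iff_right _ (Submodule.smul_mem _ _ h2)).1 h1

private theorem ker_θ (h : Pencil F G) {B : L[X]} (hB : B ≠ 0)
    (hm : IrrOutside F G B) (H : Cv F G A ψ) (j : A →+* E)
    (hj : Function.Injective j) (g : κ → L[X][X])
    (hg : ∀ j, Prime (g j)) (hdvd : ∀ j, g j ∣ G * fib F G B)
    (q : σ → L[X]) (hq : ∀ i, Prime (q i))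
    (hqcov : ∀ π : L[X], Prime π → π ∣ B → ∃ i, q i ∣ π) :
    LinearMap.ker (θ ψ j g) = (LinearMap.range (β ψ j q)).comap (α ψ j g) := by
  have hg0 : ∀ i, g i ≠ 0 := fun i => (hg i).ne_zero
  have hq0 : ∀ i, q i ≠ 0 := fun i => (hq i).ne_zero
  ext x
  rw [LinearMap.mem_ker, θ_zero, Submodule.mem_comap]
  constructor
  · intro hx
    obtain ⟨c, hc, h1, h2⟩ := mem_im_K h H j hj g hg0 x hx
    have hdp : ∏ i, g i ^ (x i).toNat ∣
        (G * fib F G B) ^ (∑ i, ((x i).toNat + (-x i).toNat)) := by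
      rw [← Finset.prod_pow_eq_pow_sum]
      refine Finset.prod_dvd_prod_of_dvd _ _ fun i _ => ?_
      exact (pow_dvd_pow_of_dvd (hdvd i) _).trans (pow_dvd_pow _ (Nat.le_add_right _ _))
    have hdq : ∏ i, g i ^ (-x i).toNat ∣
        (G * fib F G B) ^ (∑ i, ((x i).toNat + (-x i).toNat)) := by
      rw [← Finset.prod_pow_eq_pow_sum]
      refine Finset.prod_dvd_prod_of_dvd _ _ fun i _ => ?_
      exact (pow_dvd_pow_of_dvd (hdvd i) _).trans (pow_dvd_pow _ (Nat.le_add_left _ _))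
    obtain ⟨m, c₁, c₂, hc₁, hc₂, hcc⟩ := const_rel h hB hm H _ _ _ hdp hdq c hc h1
    obtain ⟨k, hk⟩ := fact q hq hB hqcov m c₁ hc₁
    obtain ⟨l, hl⟩ := fact q hq hB hqcov m c₂ hc₂
    refine ⟨(fun i => (k i : ℤ)) - fun i => (l i : ℤ), ?_⟩
    rw [α, β, LinearMap.comp_apply, LinearMap.comp_apply, Submodule.mkQ_apply,
      Submodule.mkQ_apply, Submodule.Quotient.eq, im_eq, map_sub, h2]
    have a1 := lc_fact (fT ψ j) (fT_inj j) q hq0 hk
    have a2 := lc_fact (fT ψ j) (fT_inj j) q hq0 hl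
    have hc2 : c₂ ≠ 0 := (hl.ne_zero_iff).1 (prod_ne q hq0 l)
    have a3 : el (fT ψ j c₁) = el (fT ψ j c₂) + el (fK ψ j c) := by
      rw [← el_mul ((map_ne_zero_iff _ (fT_inj j)).2 hc2) (fK_ne j hc)]
      congr 1
      rw [fT, RingHom.comp_apply, RingHom.comp_apply, ← hcc, map_mul]
    have a4 : lc (fT ψ j) q (fun i => (k i : ℤ)) - lc (fT ψ j) q (fun i => (l i : ℤ)) -
        el (fK ψ j c) = (el (fT ψ j c₂) - lc (fT ψ j) q (fun i => (l i : ℤ))) -
          (el (fT ψ j c₁) - lc (fT ψ j) q (fun i => (k i : ℤ))) := by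
      rw [a3]
      abel
    rw [a4]
    exact Submodule.sub_mem _ a2 a1
  · rintro ⟨y, hy⟩
    rw [α, β, LinearMap.comp_apply, LinearMap.comp_apply, Submodule.mkQ_apply,
      Submodule.mkQ_apply, Submodule.Quotient.eq] at hy
    have h1 := ((im_eq j).le.trans (im_T_le j)) hy
    have h2 : lc (fT ψ j) q y ∈ im (fK ψ j) := by
      rw [lc_apply]
      refine Submodule.sum_mem _ fun i _ => Submodule.smul_mem _ _ ?_
      exact el_mem' (fK ψ j) (IsUnit.mk0 _ (alg_ne (hq0 i)))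
    exact (Submodule.sub_mem_iff_right _ h2).1 h1

private theorem rank_nullity {M N : Type} [AddCommGroup M] [AddCommGroup N] [Module.Finite ℤ M]
    (f : M →ₗ[ℤ] N) : Module.finrank ℤ (LinearMap.range f) + Module.finrank ℤ (LinearMap.ker f) =
      Module.finrank ℤ M := by
  rw [← (LinearMap.quotKerEquivRange f).finrank_eq]
  exact Submodule.finrank_quotient_add_finrank _

private theorem finrank_units (j : A →+* E) (hj : Function.Injective j) :
    Module.finrank ℤ ((im j).map (im (fK ψ j)).mkQ) =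
      Module.finrank ℤ (UnitsMod (ψ.comp ct)) := by
  let υ : Additive Aˣ →ₗ[ℤ] (Additive Eˣ ⧸ im (fK ψ j)) :=
    (im (fK ψ j)).mkQ ∘ₗ (MonoidHom.toAdditive (Units.map (j : A →* E))).toIntLinearMap
  let π' : Additive Aˣ →+ UnitsMod (ψ.comp ct) :=
    MonoidHom.toAdditive (QuotientGroup.mk' (Units.map (ψ.comp ct : RatFunc L →* A)).range)
  let π : Additive Aˣ →ₗ[ℤ] UnitsMod (ψ.comp ct) := π'.toIntLinearMap
  have hπ : Function.Surjective π :=
    QuotientGroup.mk'_surjective (Units.map (ψ.comp ct : RatFunc L →* A)).range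
  have hr : LinearMap.range υ = (im j).map (im (fK ψ j)).mkQ := LinearMap.range_comp ..
  have hk : LinearMap.ker π = LinearMap.ker υ := by
    ext u
    rw [LinearMap.mem_ker, LinearMap.mem_ker]
    have h1 : π u = 0 ↔ Additive.toMul u ∈ (Units.map (ψ.comp ct : RatFunc L →* A)).range :=
      QuotientGroup.eq_one_iff (Additive.toMul u)
    have hju : j (Additive.toMul u : Aˣ) ≠ 0 := ((Additive.toMul u).isUnit.map j).ne_zero
    have a5 : ((MonoidHom.toAdditive (Units.map (j : A →* E))).toIntLinearMap) u =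
        el (j (Additive.toMul u : Aˣ)) := by
      rw [el_of hju]
      exact congrArg Additive.ofMul (Units.ext rfl)
    have h2 : υ u = 0 ↔ ∃ c : (RatFunc L)ˣ, fK ψ j c = j (Additive.toMul u : Aˣ) := by
      rw [← el_mem (fK ψ j) hju, ← a5, ← Submodule.Quotient.mk_eq_zero]
      rfl
    rw [h1, h2, MonoidHom.mem_range]
    refine exists_congr fun c => ?_
    rw [Units.ext_iff]
    exact ⟨fun h => congrArg j h, fun h => hj h⟩
  rw [← hr, ← (LinearMap.quotKerEquivRange υ).finrank_eq, ← hk]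
  exact (LinearMap.quotKerEquivOfSurjective π hπ).finrank_eq

end fin

theorem pic_rank3 {L : Type} [Field L] {F G : L[X][X]} (h : Pencil F G) {B : L[X]}
    (hB : B ≠ 0) (hm : IrrOutside F G B) {A : Type} [CommRing A]
    {ψ : (RatFunc L)[X][X] →+* A} (H : Cv F G A ψ) {κ σ : Type} [Fintype κ] [Fintype σ]
    (g : κ → L[X][X]) (hg : ∀ j, Prime (g j)) (hne : ∀ i j, g i ∣ g j → i = j)
    (hdvd : ∀ j, g j ∣ G * fib F G B)
    (hcov : ∀ π : L[X][X], Prime π → π ∣ G * fib F G B → ∃ j, g j ∣ π)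
    (q : σ → L[X]) (hq : ∀ i, Prime (q i)) (hqne : ∀ i j, q i ∣ q j → i = j)
    (hqdvd : ∀ i, q i ∣ B) (hqcov : ∀ π : L[X], Prime π → π ∣ B → ∃ i, q i ∣ π) :
    Module.finrank ℤ (Additive (CommRing.Pic A)) + Fintype.card κ =
      Nat.card {P : Ideal A // P.IsPrime ∧ ψ (up G) ∈ P} +
        Module.finrank ℤ (UnitsMod (ψ.comp ct)) + Fintype.card σ := by
  classical
  have := cv_dedekind h H
  have := fin_S h H
  let _ : Fintype {P : Ideal A // P.IsPrime ∧ ψ (up G) ∈ P} := Fintype.ofFinite _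
  let j : A →+* FractionRing A := algebraMap A (FractionRing A)
  have hj : Function.Injective j := IsFractionRing.injective A (FractionRing A)
  have e2 : Additive (ClassGroup A) ≃+ Additive (CommRing.Pic A) :=
    MulEquiv.toAdditive (ClassGroup.equivPic A)
  have e3 : Additive (ClassGroup A) ≃ₗ[ℤ] Additive (CommRing.Pic A) := e2.toIntLinearEquiv
  have hs := Φ_surj h H
  -- the rank of the class group
  have h1 := Submodule.finrank_quotient_add_finrank (LinearMap.ker (Φ ψ G))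
  have h2 := (LinearMap.quotKerEquivOfSurjective (Φ ψ G) hs).finrank_eq
  rw [h2, le_antisymm (ker_le h hB hm H g hcov hg) (range_le h hB H g hg hdvd),
    Module.finrank_fintype_fun_eq_card] at h1
  have h3 := rank_nullity (Ψ ψ G g)
  rw [Module.finrank_fintype_fun_eq_card] at h3
  -- the rank of the kernel of `Ψ`
  have h4 := rank_nullity ((θ ψ j g).domRestrict (LinearMap.ker (Ψ ψ G g)))
  rw [LinearMap.range_domRestrict, map_ker h hB hm H j hj g hcov hg hdvd,
    finrank_units j hj, LinearMap.ker_domRestrict,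
    (Submodule.comapSubtypeEquivOfLe (ker_θ_le h H j hj g fun i => (hg i).ne_zero)).finrank_eq,
    ker_θ h hB hm H j hj g hg hdvd q hq hqcov] at h4
  have h5 := (Submodule.equivMapOfInjective (α ψ j g) (α_inj h H j hj g hg hne)
    ((LinearMap.range (β ψ j q)).comap (α ψ j g))).finrank_eq
  rw [Submodule.map_comap_eq, inf_eq_right.2 (range_β_le h hB H j hj g hcov hg q hq hqdvd),
    LinearMap.finrank_range_of_inj (β_inj j q hq hqne),
    Module.finrank_fintype_fun_eq_card] at h5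
  rw [← e3.finrank_eq, Nat.card_eq_fintype_card]
  omega

end Pool.Agent.Lib.MP_1a0ddd_nt.V
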