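import Pool.Agent.Lib.MP_1a0ddd_nt.V.State
import Pool.Agent.Lib.MP_1a0ddd_nt.V.Pic
import Pool.Agent.Lib.MP_1a0ddd_nt.V.Frc
import Pool.Agent.Lib.MP_1a0ddd_nt.V.Inf
import Pool.Agent.Lib.MP_1a0ddd_nt.V.Aff
import Pool.Agent.Lib.MP_1a0ddd_nt.V.Ipt
import Pool.Agent.Lib.MP_1a0ddd_nt.V.Exm
import Pool.Agent.Lib.MP_1a0ddd_nt.W.Fin
import Pool.Agent.Lib.MP_1a0ddd_nt.Dbl

/-! Assembly of `PlanePencils`. -/

set_option autoImplicit false

namespace Pool.Agent.Lib.MP_1a0ddd_nt.V

open Polynomial Pool.Agent.Lib.MP_1a0ddd_nt.W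

private theorem to_comps {R : Type} [CommRing R] {I : Ideal R[X][X]} {e n : ℕ}
    {P : Fin n → Ideal R[X][X]} (h : CompsG R I e P) : Comps I e P where
  le := h.le
  pow := h.pow
  inc := h.inc
  prime := h.prime
  dom := fun i r hr => h.dom i r hr
  count := h.count

theorem fin_over {R : Type} [CommRing R] {F G : R[X][X]} (h : Pencil F G) :
    FiniteOverAll F G := fun _ _ φ hφ => fin_finite h φ hφ

theorem fin_curve {R : Type} [CommRing R] (hR : BaseDom R) {F G : R[X][X]}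
    {a b d m N : ℕ} (h : CabData R a b F G d m N) : ∃ r, r + m = N ∧ NagaoC F G d r := by
  have := hR.domain
  have := hR.finite
  obtain ⟨P, hP⟩ := h.compG
  obtain ⟨Q, hQ⟩ := h.compFG
  obtain ⟨r, h1, h2⟩ := fin_cab ⟨h.apos, h.bpos, h.cop, h.cab, h.low, h.ne, h.reg⟩
    (to_comps hP) (to_comps hQ)
  exact ⟨r, h1, h2.mean, h2.rank, h2.finite⟩

theorem fin_rank3 {R : Type} [CommRing R] [IsDomain R] {δ : ℕ} {F G : R[X][X]} {B : R[X]}
    {d m N s w n₀ : ℕ} (h : Data R δ F G B d m N s w n₀) (hK : IrrGeneric F G B)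
    (K : Type) [Field K] [Algebra R K] [IsFractionRing R K] :
    picRank (bc (algebraMap R K) F) (bc (algebraMap R K) G) + (m + w) =
      N + unitRank (bc (algebraMap R K) F) (bc (algebraMap R K) G) + s := by
  obtain ⟨P, hP⟩ := h.compG
  obtain ⟨Q, hQ⟩ := h.compFG
  obtain ⟨T, hT⟩ := h.compB
  obtain ⟨W, hW⟩ := h.compF
  have h1 := h.pencil.pencil
  have h2 := pencil_map (algebraMap R K) (IsFractionRing.injective R K) h1
  obtain ⟨g, hg, hne, hdvd, hcov⟩ := frac_family h1 h.monic hP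
    (e := d + 1) hW K
  obtain ⟨q, hq, hqne, hqdvd, hqcov⟩ := frac_factors1 h.monic.ne_zero hT K
  have H := cv_crv (bc (algebraMap R K) F) (bc (algebraMap R K) G)
  have hB : B.map (algebraMap R K) ≠ 0 := (h.monic.map _).ne_zero
  have h3 := pic_rank3 h2 hB (hK K) H g hg hne hdvd hcov q hq hqne hqdvd hqcov
  have h4 : picRank (bc (algebraMap R K) F) (bc (algebraMap R K) G) +
      Fintype.card (Fin m ⊕ Fin w) =
      N + unitRank (bc (algebraMap R K) F) (bc (algebraMap R K) G) + Fintype.card (Fin s) := by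
    rw [← frac_base3 h1 hQ K H]
    exact h3
  rw [Fintype.card_sum, Fintype.card_fin, Fintype.card_fin, Fintype.card_fin] at h4
  exact h4

private theorem avgP_eq {R : Type} [CommRing R] [Algebra.FiniteType ℤ R] (δ : ℕ)
    (F G : R[X][X]) (B : R[X]) (d p : ℕ) (hp : p.Prime) :
    avgP δ F G B d p =
      (∑ᶠ z : R →+* ZMod p, ∑ᶠ t : {t : ZMod p // (B.map z).eval t ≠ 0},
        ((p : ℝ) - Nat.card {q : ZMod p × ZMod p // val z q F + t.1 * val z q G = 0})) /
          (p : ℝ) ^ (d + 1) +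
      (∑ᶠ z : R →+* ZMod p, ∑ᶠ t : {t : ZMod p // (B.map z).eval t ≠ 0},
        ((1 : ℝ) - Nat.card {y : ZMod p //
          ((top δ F).map z).eval y + t.1 * ((top δ G).map z).eval y = 0})) /
            (p : ℝ) ^ (d + 1) := by
  have : Fact p.Prime := ⟨hp⟩
  have : Finite (R →+* ZMod p) := finite_hom R p hp
  rw [← add_div, ← finsum_add_distrib (Set.toFinite _) (Set.toFinite _)]
  unfold avgP
  congr 1
  refine finsum_congr fun z => ?_
  rw [← finsum_add_distrib (Set.toFinite _) (Set.toFinite _)]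
  refine finsum_congr fun t => ?_
  unfold trP
  push_cast
  ring

theorem avgP_mean {R : Type} [CommRing R] [IsDomain R] [Algebra.FiniteType ℤ R] {δ : ℕ}
    {F G : R[X][X]} {B : R[X]} {d m N s w n₀ : ℕ} (h : Data R δ F G B d m N s w n₀) :
    Quad.TauMean (avgP δ F G B d) (((m : ℝ) - N - s + w) +
      ((1 : ℝ) - n₀ - (open Classical in if top δ G = 0 then 0 else 1))) :=
  ((aff_mean h).add (inf_mean h)).congr' 0 fun p _ hp => avgP_eq δ F G B d p hp

theorem fin_plane {R : Type} [CommRing R] (hR : BaseDom R) {δ : ℕ}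
    {F G : R[X][X]} {B : R[X]} {d m N s w n₀ : ℕ} (h : Data R δ F G B d m N s w n₀)
    (hK : IrrGeneric F G B) :
    ∃ ρ : ℤ, ρ + m + w + 1 = N + s + n₀ + movInf δ G ∧ NagaoP δ F G B d ρ := by
  classical
  have := hR.domain
  have := hR.finite
  obtain ⟨V, hV⟩ := h.compI
  refine ⟨(N : ℤ) + s + n₀ + (if top δ G = 0 then 0 else 1) - m - w - 1, ?_, ?_, ?_,
    fin_over h.pencil.pencil⟩
  · unfold movInf
    push_cast
    split_ifs <;> ring
  · have h1 := avgP_mean h
    convert h1 using 1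
    push_cast
    split_ifs <;> ring
  · intro K _ _ _
    have h1 := fin_rank3 h hK K
    have h2 := inf_points h.pencil hV K
    rw [h2]
    push_cast
    have h3 : (picRank (bc (algebraMap R K) F) (bc (algebraMap R K) G) : ℤ) + (m + w) =
      N + unitRank (bc (algebraMap R K) F) (bc (algebraMap R K) G) + s := by exact_mod_cast h1
    linear_combination -h3

theorem fin_tower (R : Type) [CommRing R] (d : ℕ) (h : TowerD R d) :
    BaseDom R ∧ Quad.LangWeilT R d ∧ PlaneTower R d := by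
  obtain ⟨h1, h2, h3, h4⟩ := towerD_spec R d h
  exact ⟨⟨h1, h2, h3⟩, Quad.langWeilT_of R d h4, tower_line R d h, tower_graph R d h,
    tower_point R d h⟩

end Pool.Agent.Lib.MP_1a0ddd_nt.V
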