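import Pool.Agent.Lib.MP_1a0ddd_nt.W.Defs

/-! All linear pencils of plane curves: definitions. -/

set_option autoImplicit false

namespace Pool.Agent.Lib.MP_1a0ddd_nt.V

open Polynomial Filter Topology Pool.Agent.Lib.MP_1a0ddd_nt.W

/-- the `P i` are the minimal primes over the ideal `I` of the `R`-algebra `S`; they have zero
intersection with `R`, and the quotients have the point count of dimension `e` -/
structure CompsG (R : Type) {S : Type} [CommRing R] [CommRing S] [Algebra R S] (I : Ideal S)
    (e : ℕ) {n : ℕ} (P : Fin n → Ideal S) : Prop where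
  le : ∀ i, I ≤ P i
  pow : ∃ k : ℕ, (∏ i, P i) ^ k ≤ I
  inc : ∀ i j, P i ≤ P j → i = j
  prime : ∀ i, (P i).IsPrime
  dom : ∀ i (r : R), algebraMap R S r ∈ P i → r = 0
  count : ∀ i, Quad.LangWeilT (S ⧸ P i) e

/-- `G^n B(-F/G)`, `n = deg B`: the equation of the members of the pencil over the zeros of the
polynomial `B(t)` -/
noncomputable def fib {R : Type} [CommRing R] (F G : R[X][X]) (B : R[X]) : R[X][X] :=
  ∑ i ∈ Finset.range (B.natDegree + 1),
    C (C (B.coeff i)) * (-F) ^ i * G ^ (B.natDegree - i)

/-- the members of the pencil over the closed points of the affine line outside `B = 0` are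
irreducible: for all irreducible `q(t)` not dividing `B`, the polynomial `F + θ G` over the field
`L[t]/q(t)`, `θ` the class of `t` -/
def IrrOutside {L : Type} [Field L] (F G : L[X][X]) (B : L[X]) : Prop :=
  ∀ q : L[X], Irreducible q → ¬ q ∣ B →
    Irreducible (lin (AdjoinRoot.of q) (AdjoinRoot.root q) F G)

/-- the units of `A` modulo the nonzero elements of the field `K` -/
def UnitsMod {K A : Type} [Field K] [CommRing A] (κ : K →+* A) : Type :=
  Additive (Aˣ ⧸ (Units.map (κ : K →* A)).range)

noncomputable instance {K A : Type} [Field K] [CommRing A] (κ : K →+* A) :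
    AddCommGroup (UnitsMod κ) :=
  @Additive.addCommGroup _ (QuotientGroup.Quotient.commGroup (Units.map (κ : K →* A)).range)

/-- the rank of the units of `L(t)[x, y]/(F + t G)` modulo the constants `L(t)^*` -/
noncomputable def unitRank {L : Type} [Field L] (F G : L[X][X]) : ℕ :=
  Module.finrank ℤ (UnitsMod (cst F G))

/-- the rank of the Picard group of `L(t)[x, y]/(F + t G)` -/
noncomputable def picRank {L : Type} [Field L] (F G : L[X][X]) : ℕ :=
  Module.finrank ℤ (Additive (CommRing.Pic (Crv F G)))

/-- the part of degree `δ` of `F`, dehomogenised: `F_δ(1, y)` -/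
noncomputable def top {R : Type} [CommRing R] (δ : ℕ) (F : R[X][X]) : R[X] :=
  ∑ i ∈ Finset.range (δ + 1), C ((F.coeff i).coeff (δ - i)) * X ^ i

/-- a pencil of plane curves of degree `δ` -/
structure PlanePencil {R : Type} [CommRing R] (δ : ℕ) (F G : R[X][X]) : Prop where
  pencil : Pencil F G
  deg : F.natDegree = δ
  degF : ∀ i, F.coeff i ≠ 0 → (F.coeff i).natDegree + i ≤ δ
  degG : ∀ i, G.coeff i ≠ 0 → (G.coeff i).natDegree + i ≤ δ

/-- the number of monic irreducible factors of `P` -/
noncomputable def factors {S : Type} [CommRing S] (P : S[X]) : ℕ :=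
  Set.ncard {π : S[X] | π.Monic ∧ Irreducible π ∧ π ∣ P}

/-- the number of closed points at infinity of the projective curve `F + t G = 0` over `L(t)`; the
point `[0 : 1 : 0]` is not on it because `y^δ` has coefficient `1` -/
noncomputable def infPoints {L : Type} [Field L] (δ : ℕ) (F G : L[X][X]) : ℕ :=
  factors (top δ (pen F G))

/-- `p + 1 - #C(F_p)` for the projective plane curve `C : F_z + t G_z = 0` over `F_p`, with the
points at infinity `[1 : y : 0]` -/
noncomputable def trP {R : Type} [CommRing R] (δ : ℕ) (F G : R[X][X]) (p : ℕ) (z : R →+* ZMod p)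
    (t : ZMod p) : ℤ :=
  (p : ℤ) + 1 - Nat.card {q : ZMod p × ZMod p // val z q F + t * val z q G = 0} -
    Nat.card {y : ZMod p // ((top δ F).map z).eval y + t * ((top δ G).map z).eval y = 0}

/-- the sum of the `trP` over the `F_p`-points `(z, t)` of `Spec R × A¹` with `B_z(t) ≠ 0`,
divided by `p^(d+1)` -/
noncomputable def avgP {R : Type} [CommRing R] (δ : ℕ) (F G : R[X][X]) (B : R[X]) (d p : ℕ) : ℝ :=
  (∑ᶠ z : R →+* ZMod p, ∑ᶠ t : {t : ZMod p // (B.map z).eval t ≠ 0},
    (trP δ F G p z t : ℝ)) / (p : ℝ) ^ (d + 1)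

/-- the data of a pencil over `R`: numbers of components `m` of `G = 0`, `N` of `F = G = 0`, `s`
of `B = 0`, `w` of the members over `B = 0`, `n₀` of the base points at infinity -/
structure Data (R : Type) [CommRing R] (δ : ℕ) (F G : R[X][X]) (B : R[X]) (d m N s w n₀ : ℕ) :
    Prop where
  base : Quad.LangWeilT R d
  pencil : PlanePencil δ F G
  monic : B.Monic
  compG : ∃ P : Fin m → Ideal R[X][X], CompsG R (Ideal.span {G}) (d + 1) P
  compFG : ∃ P : Fin N → Ideal R[X][X], CompsG R (Ideal.span {F, G}) d P
  compB : ∃ P : Fin s → Ideal R[X], CompsG R (Ideal.span {B}) d P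
  compF : ∃ P : Fin w → Ideal R[X][X], CompsG R (Ideal.span {fib F G B}) (d + 1) P
  compI : ∃ P : Fin n₀ → Ideal R[X], CompsG R (Ideal.span {top δ F, top δ G}) d P

end Pool.Agent.Lib.MP_1a0ddd_nt.V
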