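import Pool.Agent.Lib.MP_1a0ddd_nt.V.Defs
import Pool.Agent.Lib.MP_1a0ddd_nt.Base2

/-! Named parts of the statement of `PlanePencils`. -/

set_option autoImplicit false

namespace Pool.Agent.Lib.MP_1a0ddd_nt.V

open Polynomial Pool.Agent.Lib.MP_1a0ddd_nt.W

/-- `R` is a finitely generated domain of characteristic zero -/
structure BaseDom (R : Type) [CommRing R] : Prop where
  domain : IsDomain R
  zero : CharZero R
  finite : Algebra.FiniteType ℤ R

/-- `F` is a `C_{ab}` polynomial, `a` and `b` are coprime, all monomials of `G ≠ 0` have smaller
weight, generically no base point is singular on both `F = 0` and `G = 0`; `m` and `N` are the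
numbers of components of `G = 0` and of `F = G = 0` -/
structure CabData (R : Type) [CommRing R] (a b : ℕ) (F G : R[X][X]) (d m N : ℕ) : Prop where
  apos : 0 < a
  bpos : 0 < b
  cop : a.Coprime b
  cab : IsCab a b F
  low : Low a b G
  ne : G ≠ 0
  reg : Regular F G
  compG : ∃ P : Fin m → Ideal R[X][X], CompsG R (Ideal.span {G}) (d + 1) P
  compFG : ∃ P : Fin N → Ideal R[X][X], CompsG R (Ideal.span {F, G}) d P

/-- `A` is a Dedekind domain (or a field) with finitely generated Picard group -/
def DedekindFinite (A : Type) [CommRing A] : Prop :=
  IsDedekindDomain A ∧ Module.Finite ℤ (Additive (CommRing.Pic A))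

/-- over every field `L` containing `R` the affine curve `F + t G = 0` over `L(t)` is regular with
finitely generated Picard group -/
def FiniteOverAll {R : Type} [CommRing R] (F G : R[X][X]) : Prop :=
  ∀ (L : Type) [Field L] (φ : R →+* L), Function.Injective φ →
    DedekindFinite (Crv (bc φ F) (bc φ G))

/-- Q1 for a pencil of curves with one point at infinity: the mean of the averages is `-r`, and
`r` is the rank of the Picard group over the fraction field `K` of `R` -/
structure NagaoC {R : Type} [CommRing R] (F G : R[X][X]) (d r : ℕ) : Prop where
  mean : Quad.TauMean (avg F G d) (-(r : ℝ))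
  rank : ∀ (K : Type) [Field K] [Algebra R K] [IsFractionRing R K],
    picRank (bc (algebraMap R K) F) (bc (algebraMap R K) G) = r
  finite : FiniteOverAll F G

/-- Q1 for a pencil of projective plane curves `C`: the mean of the averages is `-ρ`, and over
the fraction field `K` of `R` one has `ρ = r - u + n - 1`, where `r` is the rank of the Picard
group of the affine curve, `u` the rank of its units modulo constants and `n` the number of closed
points at infinity (so `ρ` is the rank of `Pic⁰(C)`) -/
structure NagaoP {R : Type} [CommRing R] (δ : ℕ) (F G : R[X][X]) (B : R[X]) (d : ℕ) (ρ : ℤ) :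
    Prop where
  mean : Quad.TauMean (avgP δ F G B d) (-(ρ : ℝ))
  rank : ∀ (K : Type) [Field K] [Algebra R K] [IsFractionRing R K],
    ρ = picRank (bc (algebraMap R K) F) (bc (algebraMap R K) G) -
      unitRank (bc (algebraMap R K) F) (bc (algebraMap R K) G) +
      infPoints δ (bc (algebraMap R K) F) (bc (algebraMap R K) G) - 1
  finite : FiniteOverAll F G

/-- the number of closed points at infinity of `F + t G = 0` which are not base points: the
equation `F_δ(1, y) + t G_δ(1, y)` has one irreducible factor containing `t` unless `G_δ = 0` -/
noncomputable def movInf {R : Type} [CommRing R] (δ : ℕ) (G : R[X][X]) : ℕ :=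
  open Classical in if top δ G = 0 then 0 else 1

/-- all members over the closed points of the affine line over the fraction field of `R`, except
those over `B = 0`, are irreducible -/
def IrrGeneric {R : Type} [CommRing R] (F G : R[X][X]) (B : R[X]) : Prop :=
  ∀ (K : Type) [Field K] [Algebra R K] [IsFractionRing R K],
    IrrOutside (bc (algebraMap R K) F) (bc (algebraMap R K) G) (B.map (algebraMap R K))

/-- the lines `x = α`, the graphs `y = φ(x)` and the sections `(α, β)` in the affine plane over
`R` are in `TowerD`, of dimensions `d + 1`, `d + 1` and `d` -/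
structure PlaneTower (R : Type) [CommRing R] (d : ℕ) : Prop where
  line : ∀ α : R, TowerD (R[X][X] ⧸ Ideal.span {(C (X - C α) : R[X][X])}) (d + 1)
  graph : ∀ φ : R[X], TowerD (R[X][X] ⧸ Ideal.span {(X - C φ : R[X][X])}) (d + 1)
  point : ∀ α β : R, TowerD (R[X][X] ⧸ Ideal.span {(C (X - C α) : R[X][X]), X - C (C β)}) d

end Pool.Agent.Lib.MP_1a0ddd_nt.V
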