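import Pool.Agent.Lib.MP_1a0ddd_nt.V.Defs
import Pool.Agent.Lib.MP_1a0ddd_nt.W.Idp

/-! Units of `L(t)[x, y]/(F + t G)` and reducible members. -/

set_option autoImplicit false

namespace Pool.Agent.Lib.MP_1a0ddd_nt.V

open Polynomial Pool.Agent.Lib.MP_1a0ddd_nt.W

variable {L : Type} [Field L]

private theorem coeff_lft (B : L[X]) (i : ℕ) : (lft B).coeff i = C (C (B.coeff i)) := by
  simp [lft, coeff_map]

theorem fib_hmg (F G : L[X][X]) (B : L[X]) : fib F G B = hmg F G B.natDegree (lft B) := by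
  unfold fib hmg
  simp only [coeff_lft]

private theorem nd_lft (B : L[X]) : (lft B).natDegree ≤ B.natDegree := natDegree_map_le

theorem fib_mul (F G : L[X][X]) {B B' : L[X]} (h : B ≠ 0) (h' : B' ≠ 0) :
    fib F G (B * B') = fib F G B * fib F G B' := by
  rw [fib_hmg, fib_hmg, fib_hmg, natDegree_mul h h', map_mul]
  exact hmg_mul F G _ _ _ _ (nd_lft B) (nd_lft B')

theorem fib_bc {R S : Type} [CommRing R] [CommRing S] (φ : R →+* S)
    (hφ : Function.Injective φ) (F G : R[X][X]) (B : R[X]) :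
    bc φ (fib F G B) = fib (bc φ F) (bc φ G) (B.map φ) := by
  have h1 : (B.map φ).natDegree = B.natDegree := natDegree_map_eq_of_injective hφ B
  unfold bc fib
  rw [h1, ← coe_mapRingHom, map_sum]
  refine Finset.sum_congr rfl fun i _ => ?_
  rw [map_mul, map_mul, map_pow, map_pow, map_neg, coe_mapRingHom, map_C, coe_mapRingHom, map_C,
    coeff_map]

/-! ### reduction modulo `q(t)` -/

/-- `L[x][y][t] → L[t][x][y]` -/
private noncomputable def sw : L[X][X][X] →+* L[X][X][X] :=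
  eval₂RingHom (mapRingHom (mapRingHom (C : L →+* L[X]))) (C (C (X : L[X])) : L[X][X][X])

/-- `L[t][x][y] → L[x][y][t]` -/
private noncomputable def ws : L[X][X][X] →+* L[X][X][X] :=
  eval₂RingHom (eval₂RingHom (lft : L[X] →+* L[X][X][X]) (C (C (X : L[X])) : L[X][X][X]))
    (C (X : L[X][X]) : L[X][X][X])

private theorem ws_sw (T : L[X][X][X]) : ws (sw T) = T := by
  have h : (ws.comp sw : L[X][X][X] →+* L[X][X][X]) = RingHom.id _ := by
    ext <;> simp [ws, sw, lft]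
  exact RingHom.congr_fun h T

private theorem sw_ws (T : L[X][X][X]) : sw (ws T) = T := by
  have h : (sw.comp ws : L[X][X][X] →+* L[X][X][X]) = RingHom.id _ := by
    ext <;> simp [ws, sw, lft]
  exact RingHom.congr_fun h T

private theorem ws_CC (q : L[X]) : ws (C (C q)) = lft q := by
  simp [ws]

/-- `L[x][y][t] → (L[t]/q)[x][y]` -/
private noncomputable def rd (q : L[X]) : L[X][X][X] →+* (AdjoinRoot q)[X][X] :=
  (mapRingHom (mapRingHom (AdjoinRoot.mk q))).comp sw

private theorem rd_surj (q : L[X]) : Function.Surjective (rd q) := by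
  intro a
  have h1 : Function.Surjective (mapRingHom (mapRingHom (AdjoinRoot.mk q))) := by
    rw [coe_mapRingHom]
    refine Polynomial.map_surjective _ ?_
    rw [coe_mapRingHom]
    exact Polynomial.map_surjective _ AdjoinRoot.mk_surjective
  obtain ⟨b, hb⟩ := h1 a
  refine ⟨ws b, ?_⟩
  rw [rd, RingHom.comp_apply, sw_ws, hb]

private theorem rd_ker (q : L[X]) (T : L[X][X][X]) (h : rd q T = 0) : lft q ∣ T := by
  rw [rd, RingHom.comp_apply] at h
  have h1 : C (C q) ∣ sw T := by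
    rw [C_dvd_iff_dvd_coeff]
    intro i
    rw [C_dvd_iff_dvd_coeff]
    intro j
    rw [← AdjoinRoot.mk_eq_zero]
    have h2 := congrArg (fun S => (S.coeff i).coeff j) h
    simpa using h2
  have h3 := map_dvd (ws : L[X][X][X] →+* L[X][X][X]) h1
  rwa [ws_CC, ws_sw] at h3

private theorem rd_C (q : L[X]) (w : L[X][X]) :
    rd q (C w) = w.map (mapRingHom (AdjoinRoot.of q)) := by
  have h : ((rd q).comp C : L[X][X] →+* (AdjoinRoot q)[X][X]) =
      mapRingHom (mapRingHom (AdjoinRoot.of q)) := by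
    ext <;> simp [rd, sw]
  exact RingHom.congr_fun h w

private theorem rd_X (q : L[X]) : rd q X = C (C (AdjoinRoot.root q)) := by
  simp [rd, sw]

private theorem hmg_C (F G : L[X][X]) (n : ℕ) (w : L[X][X]) : hmg F G n (C w) = w * G ^ n := by
  unfold hmg
  rw [Finset.sum_eq_single 0]
  · simp
  · intro i _ hi
    rw [coeff_C, if_neg hi, zero_mul, zero_mul]
  · intro h
    exact absurd (Finset.mem_range.2 (Nat.succ_pos n)) h

private theorem hmg_lin (F G : L[X][X]) : hmg F G 1 (C F + X * C G) = 0 := by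
  unfold hmg
  rw [Finset.sum_range_succ, Finset.sum_range_one]
  simp
  ring

private theorem hmg_add (F G : L[X][X]) (n : ℕ) (S T : L[X][X][X]) :
    hmg F G n (S + T) = hmg F G n S + hmg F G n T := by
  unfold hmg
  rw [← Finset.sum_add_distrib]
  refine Finset.sum_congr rfl fun i _ => ?_
  rw [coeff_add]
  ring

private theorem claimA {F G : L[X][X]} (h : Pencil F G) (q : L[X]) (hq : q ≠ 0) (w : L[X][X])
    (hw : F.map (mapRingHom (AdjoinRoot.of q)) +
      C (C (AdjoinRoot.root q)) * G.map (mapRingHom (AdjoinRoot.of q)) ∣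
        w.map (mapRingHom (AdjoinRoot.of q))) : hmg F G q.natDegree (lft q) ∣ w := by
  obtain ⟨a, ha⟩ := hw
  obtain ⟨A, rfl⟩ := rd_surj q a
  rw [← rd_C, ← rd_C, ← rd_C, ← rd_X, ← map_mul, ← map_add, ← map_mul, ← sub_eq_zero,
    ← map_sub] at ha
  obtain ⟨D, hD⟩ := rd_ker q _ ha
  rw [sub_eq_iff_eq_add] at hD
  obtain ⟨N, hN⟩ : ∃ N, N = max (1 + A.natDegree) (q.natDegree + D.natDegree) := ⟨_, rfl⟩
  have h1 : 1 + A.natDegree ≤ N := by rw [hN]; exact le_max_left _ _
  have h2 : q.natDegree + D.natDegree ≤ N := by rw [hN]; exact le_max_right _ _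
  have h3 : (C F + X * C G : L[X][X][X]).natDegree ≤ 1 := by
    refine (natDegree_add_le _ _).trans (max_le (by simp) ?_)
    refine natDegree_mul_le.trans ?_
    rw [natDegree_C, add_zero]
    exact natDegree_X_le
  have e1 : hmg F G N ((C F + X * C G) * A) = 0 := by
    obtain ⟨N', rfl⟩ : ∃ N', N = 1 + N' := ⟨N - 1, by omega⟩
    rw [hmg_mul F G 1 N' _ _ h3 (by omega), hmg_lin, zero_mul]
  have e2 : hmg F G N (lft q * D) =
      hmg F G q.natDegree (lft q) * hmg F G (N - q.natDegree) D := by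
    rw [← hmg_mul F G _ _ (lft q) D natDegree_map_le
      (show D.natDegree ≤ N - q.natDegree by omega), Nat.add_sub_cancel' (by omega)]
  have e3 := congrArg (hmg F G N) hD
  rw [hmg_C, hmg_add, e1, e2, add_zero] at e3
  exact (hmg_lft_relPrime h q hq N).dvd_of_dvd_mul_right ⟨_, e3⟩

private theorem hmg_eval (F G : L[X][X]) (q : L[X]) {T K : Type} [CommRing T] [CommRing K]
    (ν : L[X][X] →+* T) (κ : K →+* T) (ι : L →+* K) (θ : K) (h₁ : ∀ a : L, ν (C (C a)) = κ (ι a))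
    (h₂ : -ν F = κ θ * ν G) :
    ν (hmg F G q.natDegree (lft q)) = κ (eval₂ ι θ q) * ν G ^ q.natDegree := by
  have h3 : ∀ i, (lft q).coeff i = C (C (q.coeff i)) := fun i => by simp [lft, coeff_map]
  rw [eval₂_eq_sum_range, map_sum, Finset.sum_mul, hmg, map_sum]
  refine Finset.sum_congr rfl fun i hi => ?_
  have hi' : i ≤ q.natDegree := Nat.lt_succ_iff.1 (Finset.mem_range.1 hi)
  simp only [h3, map_mul, map_pow, map_neg]
  rw [h₁, h₂, mul_pow]
  conv_rhs => rw [← Nat.add_sub_of_le hi', pow_add]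
  ring

private theorem dvd_of_quot {S : Type} [CommRing S] (P a : S)
    (h : ∀ (T : Type) [CommRing T] (μ : S →+* T), μ P = 0 → μ a = 0) : P ∣ a := by
  rw [← Ideal.mem_span_singleton, ← Ideal.Quotient.eq_zero_iff_mem]
  exact h _ _ (Ideal.Quotient.eq_zero_iff_mem.2 (Ideal.mem_span_singleton_self P))

private theorem claimB (F G : L[X][X]) (q : L[X]) :
    F.map (mapRingHom (AdjoinRoot.of q)) +
      C (C (AdjoinRoot.root q)) * G.map (mapRingHom (AdjoinRoot.of q)) ∣
        (hmg F G q.natDegree (lft q)).map (mapRingHom (AdjoinRoot.of q)) := by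
  refine dvd_of_quot _ _ fun T _ μ hμ => ?_
  have h1 := hmg_eval F G q (μ.comp (mapRingHom (mapRingHom (AdjoinRoot.of q))))
    (μ.comp (C.comp C)) (AdjoinRoot.of q) (AdjoinRoot.root q) (fun a => by simp) (by
      rw [map_add, map_mul] at hμ
      exact neg_eq_of_add_eq_zero_right hμ)
  rw [AdjoinRoot.eval₂_root, map_zero, zero_mul] at h1
  exact h1

private theorem prime_hmg_one {F G : L[X][X]} (h : Pencil F G) (q : L[X]) (hq : Irreducible q)
    (hm : Irreducible (F.map (mapRingHom (AdjoinRoot.of q)) +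
      C (C (AdjoinRoot.root q)) * G.map (mapRingHom (AdjoinRoot.of q)))) :
    Prime (hmg F G q.natDegree (lft q)) := by
  have : Fact (Irreducible q) := ⟨hq⟩
  have hp := hm.prime
  have hd := hmg_lft_natDegree h q hq.ne_zero
  have h3 : 0 < F.natDegree := lt_of_le_of_lt (Nat.zero_le _) h.lt
  have h4 : 0 < q.natDegree := hq.natDegree_pos
  have h5 : 0 < (hmg F G q.natDegree (lft q)).natDegree := by
    rw [hd]
    exact Nat.mul_pos h3 h4
  refine ⟨?_, ?_, ?_⟩
  · intro h0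
    rw [h0, natDegree_zero] at h5
    exact lt_irrefl _ h5
  · intro hu
    rw [natDegree_eq_zero_of_isUnit hu] at h5
    exact lt_irrefl _ h5
  · intro u v huv
    have h6 := (claimB F G q).trans (map_dvd (mapRingHom (mapRingHom (AdjoinRoot.of q))) huv)
    rw [map_mul] at h6
    rcases hp.dvd_or_dvd h6 with h7 | h7
    · exact Or.inl (claimA h q hq.ne_zero u h7)
    · exact Or.inr (claimA h q hq.ne_zero v h7)

/-- proof: as for `prime_hmg` in `W/Unt.lean`, which uses `hm` only for `q` -/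
theorem prime_fib {F G : L[X][X]} (h : Pencil F G) {B : L[X]} (hm : IrrOutside F G B) (q : L[X])
    (hq : Irreducible q) (hqB : ¬ q ∣ B) : Prime (fib F G q) := by
  rw [fib_hmg]
  exact prime_hmg_one h q hq (hm q hq hqB)

/-! ### forms of different degrees -/

private theorem hmg_one (F G : L[X][X]) (n : ℕ) : hmg F G n (1 : L[X][X][X]) = G ^ n := by
  unfold hmg
  rw [Finset.sum_eq_single 0]
  · simp
  · intro i _ hi
    rw [coeff_one, if_neg hi, zero_mul, zero_mul]
  · intro h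
    exact absurd (Finset.mem_range.2 (Nat.succ_pos n)) h

/-- `fib` of coprime polynomials are relatively prime, and also relatively prime to `G` -/
theorem fib_relPrime {F G : L[X][X]} (h : Pencil F G) {c c' : L[X]} (hc : c ≠ 0) (hc' : c' ≠ 0)
    (hcc : IsCoprime c c') :
    IsRelPrime (fib F G c) (fib F G c') ∧ IsRelPrime (fib F G c) G := by
  have _ := hc'
  rw [fib_hmg, fib_hmg]
  constructor
  · obtain ⟨u, v, huv⟩ := hcc
    obtain ⟨N, hN⟩ : ∃ N, N = max (u.natDegree + c.natDegree) (v.natDegree + c'.natDegree) :=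
      ⟨_, rfl⟩
    have h1 : u.natDegree + c.natDegree ≤ N := by rw [hN]; exact le_max_left _ _
    have h2 : v.natDegree + c'.natDegree ≤ N := by rw [hN]; exact le_max_right _ _
    have e1 : hmg F G N (lft (u * c)) =
        hmg F G (N - c.natDegree) (lft u) * hmg F G c.natDegree (lft c) := by
      rw [← hmg_mul F G _ _ _ _ ((nd_lft u).trans (by omega)) (nd_lft c), map_mul,
        Nat.sub_add_cancel (by omega)]
    have e2 : hmg F G N (lft (v * c')) =
        hmg F G (N - c'.natDegree) (lft v) * hmg F G c'.natDegree (lft c') := by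
      rw [← hmg_mul F G _ _ _ _ ((nd_lft v).trans (by omega)) (nd_lft c'), map_mul,
        Nat.sub_add_cancel (by omega)]
    have e3 : hmg F G N (lft (u * c)) + hmg F G N (lft (v * c')) = G ^ N := by
      rw [← hmg_add, ← map_add, huv, map_one, hmg_one]
    intro d hd hd'
    refine hmg_lft_relPrime h c hc N hd ?_
    rw [← e3, e1, e2]
    exact dvd_add (hd.mul_left _) (hd'.mul_left _)
  · have h1 := hmg_lft_relPrime h c hc 1
    rwa [pow_one] at h1

/-! ### units -/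

private theorem val_fib {F G : L[X][X]} {A : Type} [CommRing A]
    {ψ : (RatFunc L)[X][X] →+* A} (H : Cv F G A ψ) (c : L[X]) :
    ψ (up (fib F G c)) = ψ (up G) ^ c.natDegree * ψ (ct (algebraMap L[X] (RatFunc L) c)) := by
  rw [fib_hmg, up_hmg H c.natDegree (lft c) (nd_lft c), tup_lft]

private theorem isUnit_fib {F G : L[X][X]} {c : L[X]} (hc : IsUnit c) :
    IsUnit (fib F G c) := by
  obtain ⟨d, hd⟩ := hc.exists_right_inv
  have hd0 : d ≠ 0 := by
    rintro rfl
    rw [mul_zero] at hd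
    exact zero_ne_one hd
  have h3 := fib_mul F G hc.ne_zero hd0
  rw [hd, fib_hmg F G 1, map_one, natDegree_one, hmg_one, pow_zero] at h3
  exact IsUnit.of_mul_eq_one _ h3.symm

private theorem exists_irr {F G π : L[X][X]} (hπ : Prime π) (c : L[X]) :
    c ≠ 0 → π ∣ fib F G c → ∃ q : L[X], Irreducible q ∧ π ∣ fib F G q := by
  induction c using WfDvdMonoid.induction_on_irreducible with
  | zero => exact fun h => absurd rfl h
  | unit u hu => exact fun _ h => absurd (isUnit_of_dvd_unit h (isUnit_fib hu)) hπ.not_isUnit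
  | mul a i ha hi ih =>
    intro _ h
    rw [fib_mul F G hi.ne_zero ha] at h
    rcases hπ.dvd_or_dvd h with h | h
    · exact ⟨i, hi, h⟩
    · exact ih ha h

private def Good (W : L[X][X]) {A : Type} [CommRing A] (ψ : (RatFunc L)[X][X] →+* A)
    (e : A) : Prop :=
  ∃ (c : RatFunc L) (r s : L[X][X]), c ≠ 0 ∧ (∃ n, r ∣ W ^ n) ∧ (∃ n, s ∣ W ^ n) ∧
      e * ψ (up s) = ψ (ct c) * ψ (up r)

private theorem good_mul {W : L[X][X]} {A : Type} [CommRing A]
    {ψ : (RatFunc L)[X][X] →+* A} {e e' : A} (h : Good W ψ e) (h' : Good W ψ e') :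
    Good W ψ (e * e') := by
  obtain ⟨c, r, s, hc, ⟨n, hr⟩, ⟨m, hs⟩, he⟩ := h
  obtain ⟨c', r', s', hc', ⟨n', hr'⟩, ⟨m', hs'⟩, he'⟩ := h'
  refine ⟨c * c', r * r', s * s', mul_ne_zero hc hc', ⟨n + n', ?_⟩, ⟨m + m', ?_⟩, ?_⟩
  · rw [pow_add]; exact mul_dvd_mul hr hr'
  · rw [pow_add]; exact mul_dvd_mul hs hs'
  · rw [map_mul, map_mul, map_mul, map_mul, map_mul, map_mul]
    linear_combination (e' * ψ (up s')) * he + (ψ (ct c) * ψ (up r)) * he'

private theorem good_prime {F G : L[X][X]} (h : Pencil F G) {B : L[X]} (hB : B ≠ 0)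
    (hm : IrrOutside F G B) {A : Type}
    [CommRing A] {ψ : (RatFunc L)[X][X] →+* A} (H : Cv F G A ψ) {π : L[X][X]} (hπ : Prime π)
    {M : ℕ} (hd : ψ (up π) ∣ ψ (up G) ^ M) : Good (G * fib F G B) ψ (ψ (up π)) := by
  obtain ⟨e, he⟩ := hd
  obtain ⟨u, hu⟩ := H.surj e
  obtain ⟨c, T, hc, hT⟩ := clear_den u
  have h1 := up_hmg H T.natDegree T le_rfl
  rw [hT, map_mul, hu] at h1
  have h2 := val_fib H c
  have h3 : ψ (up (π * hmg F G T.natDegree T * G ^ c.natDegree)) =
      ψ (up (G ^ (T.natDegree + M) * fib F G c)) := by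
    simp only [map_mul, map_pow]
    rw [h1, h2, pow_add]
    linear_combination (-(ψ (up G) ^ T.natDegree * ψ (ct (algebraMap L[X] (RatFunc L) c)) *
      ψ (up G) ^ c.natDegree)) * he
  have h4 := up_injective h H h3
  have h5 : π ∣ G ^ (T.natDegree + M) * fib F G c := by
    rw [← h4, mul_assoc]
    exact dvd_mul_right _ _
  rcases hπ.dvd_or_dvd h5 with h6 | h6
  · refine ⟨1, π, 1, one_ne_zero, ⟨1, ?_⟩, ⟨0, by simp⟩, by simp⟩
    rw [pow_one]
    exact (hπ.dvd_of_dvd_pow h6).mul_right _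
  · obtain ⟨q, hq, h7⟩ := exists_irr hπ c hc h6
    by_cases hqB : q ∣ B
    · obtain ⟨b, rfl⟩ := hqB
      have hb : b ≠ 0 := right_ne_zero_of_mul hB
      refine ⟨1, π, 1, one_ne_zero, ⟨1, ?_⟩, ⟨0, by simp⟩, by simp⟩
      rw [pow_one, fib_mul F G hq.ne_zero hb]
      exact (h7.mul_right _).mul_left _
    · have h8 := (hπ.associated_of_dvd (prime_fib h hm q hq hqB) h7)
      obtain ⟨w, hw⟩ := h8
      have h9 := val_fib H q
      rw [← hw, map_mul, map_mul] at h9
      refine ⟨algebraMap L[X] (RatFunc L) q, G ^ q.natDegree, w, ?_, ⟨q.natDegree, ?_⟩,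
        ⟨0, ?_⟩, ?_⟩
      · exact (map_ne_zero_iff _ (RatFunc.algebraMap_injective L)).mpr hq.ne_zero
      · exact pow_dvd_pow_of_dvd (dvd_mul_right _ _) _
      · rw [pow_zero]; exact w.isUnit.dvd
      · rw [h9, map_pow, map_pow]
        ring

private theorem good_up {F G : L[X][X]} (h : Pencil F G) {B : L[X]} (hB : B ≠ 0)
    (hm : IrrOutside F G B) {A : Type}
    [CommRing A] {ψ : (RatFunc L)[X][X] →+* A} (H : Cv F G A ψ) (b : L[X][X]) :
    (∃ M : ℕ, ψ (up b) ∣ ψ (up G) ^ M) → Good (G * fib F G B) ψ (ψ (up b)) := by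
  induction b using UniqueFactorizationMonoid.induction_on_prime with
  | h₁ =>
    rintro ⟨M, hM⟩
    exfalso
    rw [map_zero, map_zero, zero_dvd_iff, ← map_pow, ← map_pow] at hM
    have h1 : G ^ M = 0 := up_injective h H (by
      show ψ (up (G ^ M)) = ψ (up 0)
      rw [hM, map_zero, map_zero])
    exact pow_ne_zero M h.ne h1
  | h₂ u hu =>
    intro _
    refine ⟨1, u, 1, one_ne_zero, ⟨0, ?_⟩, ⟨0, by simp⟩, by simp⟩
    rw [pow_zero]; exact hu.dvd
  | h₃ a p _ hp ih =>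
    rintro ⟨M, hM⟩
    rw [map_mul, map_mul] at hM ⊢
    exact good_mul (good_prime h hB hm H hp (M := M) (dvd_of_mul_right_dvd hM))
      (ih ⟨M, dvd_of_mul_left_dvd hM⟩)

/-- proof: as for `unit_thm` in `W/Idp.lean`; a prime factor of `hmg (lft q)` with `q ∣ B`
divides `fib F G B` (`fib_mul`) -/
theorem unit_thm3 {F G : L[X][X]} (h : Pencil F G) {B : L[X]} (hB : B ≠ 0)
    (hm : IrrOutside F G B) {A : Type} [CommRing A] {ψ : (RatFunc L)[X][X] →+* A}
    (H : Cv F G A ψ) (e : A) (N : ℕ) (he : e ∣ ψ (up G) ^ N) :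
    ∃ (c : RatFunc L) (r s : L[X][X]), c ≠ 0 ∧ (∃ n, r ∣ (G * fib F G B) ^ n) ∧
      (∃ n, s ∣ (G * fib F G B) ^ n) ∧ e * ψ (up s) = ψ (ct c) * ψ (up r) := by
  obtain ⟨s₀, b, ⟨N₀, hs₀⟩, hb⟩ := exists_den H e
  have h1 : ψ (up b) ∣ ψ (up G) ^ (N₀ + N) := by
    rw [← hb, pow_add]
    exact mul_dvd_mul hs₀ he
  obtain ⟨c₁, r₁, s₁, hc₁, ⟨n₁, hr₁⟩, ⟨m₁, hs₁⟩, h₁⟩ := good_up h hB hm H b ⟨_, h1⟩
  obtain ⟨c₂, r₂, s₂, hc₂, ⟨n₂, hr₂⟩, ⟨m₂, hs₂⟩, h₂⟩ := good_up h hB hm H s₀ ⟨_, hs₀⟩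
  refine ⟨c₁ / c₂, r₁ * s₂, r₂ * s₁, div_ne_zero hc₁ hc₂, ⟨n₁ + m₂, ?_⟩, ⟨n₂ + m₁, ?_⟩, ?_⟩
  · rw [pow_add]; exact mul_dvd_mul hr₁ hs₂
  · rw [pow_add]; exact mul_dvd_mul hr₂ hs₁
  · have h3 : ψ (ct c₂) * ψ (ct (c₁ / c₂)) = ψ (ct c₁) := by
      rw [← map_mul, ← map_mul, mul_div_cancel₀ _ hc₂]
    have hu : IsUnit (ψ (ct c₂)) := by
      have : IsUnit c₂ := IsUnit.mk0 _ hc₂
      exact (this.map ct).map ψ
    refine hu.mul_left_cancel ?_
    rw [map_mul, map_mul, map_mul, map_mul]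
    linear_combination (-(e * ψ (up s₁))) * h₂ + (ψ (up s₂)) * h₁ +
      (ψ (up s₁) * ψ (up s₂)) * hb - (ψ (up r₁) * ψ (up s₂)) * h3

/-! ### constants -/

private theorem dvd_pow_of_irr (B c : L[X]) :
    c ≠ 0 → (∀ q : L[X], Irreducible q → q ∣ c → q ∣ B) → ∃ k : ℕ, c ∣ B ^ k := by
  induction c using WfDvdMonoid.induction_on_irreducible with
  | zero => exact fun h => absurd rfl h
  | unit u hu => exact fun _ _ => ⟨0, by rw [pow_zero]; exact hu.dvd⟩
  | mul a i ha hi ih =>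
    intro _ h
    obtain ⟨k, hk⟩ := ih ha fun q hq hqa => h q hq (hqa.mul_left _)
    refine ⟨k + 1, ?_⟩
    rw [pow_succ', mul_comm B]
    rw [mul_comm i a]
    exact mul_dvd_mul hk (h i hi (dvd_mul_right _ _))

private theorem const_aux {F G : L[X][X]} (h : Pencil F G) {B : L[X]} (hB : B ≠ 0)
    (hm : IrrOutside F G B) {c₁ c₂ : L[X]} (h₁ : c₁ ≠ 0) (h₂ : c₂ ≠ 0) (hcc : IsCoprime c₁ c₂)
    {P Q : L[X][X]} {n d₁ d₂ : ℕ} (hP : P ∣ (G * fib F G B) ^ n)
    (key : fib F G c₂ * (G ^ d₁ * P) = fib F G c₁ * (G ^ d₂ * Q)) : ∃ k : ℕ, c₁ ∣ B ^ k := by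
  refine dvd_pow_of_irr B c₁ h₁ fun q hq hqc => ?_
  by_contra hqB
  have hp := prime_fib h hm q hq hqB
  have hG : ¬ fib F G q ∣ G := fun hd =>
    hp.not_isUnit ((fib_relPrime h hq.ne_zero one_ne_zero isCoprime_one_right).2 dvd_rfl hd)
  have hc2 : ¬ fib F G q ∣ fib F G c₂ := fun hd =>
    hp.not_isUnit ((fib_relPrime h hq.ne_zero h₂
      (hcc.of_isCoprime_of_dvd_left hqc)).1 dvd_rfl hd)
  have hB' : ¬ fib F G q ∣ fib F G B := fun hd =>
    hp.not_isUnit ((fib_relPrime h hq.ne_zero hB (hq.coprime_iff_not_dvd.2 hqB)).1 dvd_rfl hd)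
  have h3 : fib F G q ∣ fib F G c₂ * (G ^ d₁ * P) := by
    rw [key]
    obtain ⟨a, rfl⟩ := hqc
    rw [fib_mul F G hq.ne_zero (right_ne_zero_of_mul h₁), mul_assoc]
    exact dvd_mul_right _ _
  rcases hp.dvd_or_dvd h3 with h4 | h4
  · exact hc2 h4
  · rcases hp.dvd_or_dvd h4 with h5 | h5
    · exact hG (hp.dvd_of_dvd_pow h5)
    · rcases hp.dvd_or_dvd (hp.dvd_of_dvd_pow (h5.trans hP)) with h6 | h6
      · exact hG h6
      · exact hB' h6

/-- proof: write `c = c₁/c₂` with coprime `c₁`, `c₂`. So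
`fib c₂ P G^(deg c₁) = fib c₁ Q G^(deg c₂)` in `L[x, y]` (`up_hmg`, `up_injective`). Let `q` be an
irreducible factor of `c₁` which does not divide `B`. Then `fib q` is prime (`prime_fib`), does
not divide `G` nor `fib c₂` nor `fib B` (`hmg_lft_relPrime`; `fib` of coprime polynomials are
relatively prime), a contradiction. The same for `c₂`. -/
theorem const_rel {F G : L[X][X]} (h : Pencil F G) {B : L[X]} (hB : B ≠ 0)
    (hm : IrrOutside F G B) {A : Type} [CommRing A] {ψ : (RatFunc L)[X][X] →+* A}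
    (H : Cv F G A ψ) (P Q : L[X][X]) (n : ℕ) (hP : P ∣ (G * fib F G B) ^ n)
    (hQ : Q ∣ (G * fib F G B) ^ n) (c : RatFunc L) (hc : c ≠ 0)
    (heq : ψ (up P) = ψ (ct c) * ψ (up Q)) :
    ∃ (k : ℕ) (c₁ c₂ : L[X]), c₁ ∣ B ^ k ∧ c₂ ∣ B ^ k ∧
      algebraMap L[X] (RatFunc L) c₂ * c = algebraMap L[X] (RatFunc L) c₁ := by
  have hn0 : c.num ≠ 0 := RatFunc.num_ne_zero hc
  have hd0 : c.denom ≠ 0 := RatFunc.denom_ne_zero c
  have h0 : c * algebraMap L[X] (RatFunc L) c.denom = algebraMap L[X] (RatFunc L) c.num := by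
    have h3 : algebraMap L[X] (RatFunc L) c.denom ≠ 0 :=
      (map_ne_zero_iff _ (RatFunc.algebraMap_injective L)).mpr hd0
    calc c * algebraMap L[X] (RatFunc L) c.denom
        = (algebraMap L[X] (RatFunc L) c.num / algebraMap L[X] (RatFunc L) c.denom) *
          algebraMap L[X] (RatFunc L) c.denom := by rw [RatFunc.num_div_denom c]
      _ = _ := div_mul_cancel₀ _ h3
  have h1 : ψ (ct c) * ψ (ct (algebraMap L[X] (RatFunc L) c.denom)) =
      ψ (ct (algebraMap L[X] (RatFunc L) c.num)) := by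
    rw [← map_mul, ← map_mul, h0]
  have e₁ := val_fib H c.num
  have e₂ := val_fib H c.denom
  have key : fib F G c.denom * (G ^ c.num.natDegree * P) =
      fib F G c.num * (G ^ c.denom.natDegree * Q) := by
    refine up_injective h H ?_
    show ψ (up (fib F G c.denom * (G ^ c.num.natDegree * P))) =
      ψ (up (fib F G c.num * (G ^ c.denom.natDegree * Q)))
    simp only [map_mul, map_pow]
    rw [e₁, e₂, heq, ← h1]
    ring
  have hcc : IsCoprime c.num c.denom := RatFunc.isCoprime_num_denom c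
  obtain ⟨k₁, hk₁⟩ := const_aux h hB hm hn0 hd0 hcc hP key
  obtain ⟨k₂, hk₂⟩ := const_aux h hB hm hd0 hn0 hcc.symm hQ key.symm
  refine ⟨k₁ + k₂, c.num, c.denom, ?_, ?_, ?_⟩
  · exact hk₁.trans (pow_dvd_pow _ (Nat.le_add_right _ _))
  · exact hk₂.trans (pow_dvd_pow _ (Nat.le_add_left _ _))
  · rw [mul_comm, h0]

end Pool.Agent.Lib.MP_1a0ddd_nt.V
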